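import Mathlib

/-!
# A countable Borel equivalence relation with a compact realization but none on the Cantor space
-/

set_option autoImplicit false

namespace Pool.Agent.TH817.J711

open Set Filter Topology

theorem borelSpace_sum (Z Z' : Type) [TopologicalSpace Z] [TopologicalSpace Z']
    [MeasurableSpace Z] [MeasurableSpace Z'] [BorelSpace Z] [BorelSpace Z'] :
    BorelSpace (Z ⊕ Z') := by
  constructor
  apply le_antisymm
  · intro A hA
    have h1 : MeasurableSet (Sum.inl ⁻¹' A : Set Z) := measurable_inl hA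
    have h2 : MeasurableSet (Sum.inr ⁻¹' A : Set Z') := measurable_inr hA
    have h3 : A = Sum.inl '' (Sum.inl ⁻¹' A) ∪ Sum.inr '' (Sum.inr ⁻¹' A) := by
      ext x; cases x <;> simp
    let _ : MeasurableSpace (Z ⊕ Z') := borel (Z ⊕ Z')
    have _ : BorelSpace (Z ⊕ Z') := ⟨rfl⟩
    have e1 : MeasurableEmbedding (Sum.inl : Z → Z ⊕ Z') :=
      Topology.IsOpenEmbedding.inl.measurableEmbedding
    have e2 : MeasurableEmbedding (Sum.inr : Z' → Z ⊕ Z') :=
      Topology.IsOpenEmbedding.inr.measurableEmbedding
    rw [h3]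
    exact (e1.measurableSet_image.2 h1).union (e2.measurableSet_image.2 h2)
  · apply MeasurableSpace.generateFrom_le
    intro U hU
    have h1 : MeasurableSet (Sum.inl ⁻¹' U : Set Z) := (hU.preimage continuous_inl).measurableSet
    have h2 : MeasurableSet (Sum.inr ⁻¹' U : Set Z') := (hU.preimage continuous_inr).measurableSet
    exact measurableSet_sum_iff.2 ⟨h1, h2⟩

/-- the space -/
abbrev XX : Type := Fin 4 ⊕ ((ℕ → Bool) × Fin 5)

/-- the group -/
abbrev GG : Type := Equiv.Perm (Fin 4) × Equiv.Perm (Fin 5)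

/-- the action -/
def act (g : GG) (x : XX) : XX := Sum.map (fun i => g.1 i) (fun p => (p.1, g.2 p.2)) x

instance actI : MulAction GG XX where
  smul g x := act g x
  one_smul x := by
    change act 1 x = x
    cases x <;> simp [act]
  mul_smul g h x := by
    change act (g * h) x = act g (act h x)
    cases x <;> simp [act]

theorem smul_def (g : GG) (x : XX) : g • x = act g x := rfl

theorem rel_inl (i : Fin 4) (x : XX) : (∃ g : GG, g • (Sum.inl i : XX) = x) ↔ ∃ j, x = Sum.inl j := by
  constructor
  · rintro ⟨g, rfl⟩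
    exact ⟨g.1 i, rfl⟩
  · rintro ⟨j, rfl⟩
    refine ⟨(Equiv.swap i j, 1), ?_⟩
    simp [smul_def, act]

theorem rel_inr (c : ℕ → Bool) (i : Fin 5) (x : XX) :
    (∃ g : GG, g • (Sum.inr (c, i) : XX) = x) ↔ ∃ j, x = Sum.inr (c, j) := by
  constructor
  · rintro ⟨g, rfl⟩
    exact ⟨g.2 i, rfl⟩
  · rintro ⟨j, rfl⟩
    refine ⟨(1, Equiv.swap i j), ?_⟩
    simp [smul_def, act]

theorem act_continuous (g : GG) : Continuous (fun x : XX => g • x) := by
  change Continuous (fun x : XX => Sum.map (fun i => g.1 i) (fun p => (p.1, g.2 p.2)) x)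
  refine Continuous.sumMap (continuous_of_discreteTopology) ?_
  exact continuous_fst.prodMk ((continuous_of_discreteTopology (f := fun i => g.2 i)).comp
    continuous_snd)

/-- nonrealizability on the Cantor space -/
theorem not_cantor {G : Type} [Group G] [MulAction G (ℕ → Bool)]
    [ContinuousConstSMul G (ℕ → Bool)] (f : XX ≃ (ℕ → Bool))
    (hf : ∀ a b : XX, (∃ g : GG, g • a = b) ↔ ∃ g : G, g • f a = f b) : False := by
  classical
  set O : Set (ℕ → Bool) := Set.range (fun i : Fin 4 => f (Sum.inl i)) with hO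
  have hOfin : O.Finite := Set.finite_range _
  set p : ℕ → Bool := f (Sum.inl 0) with hp
  have hpO : p ∈ O := ⟨0, rfl⟩
  -- the approximating sequence
  set x : ℕ → (ℕ → Bool) := fun n => Function.update p n (!(p n)) with hx
  have hxlim : Tendsto x atTop (𝓝 p) := by
    rw [tendsto_pi_nhds]
    intro k
    refine tendsto_const_nhds.congr' ?_
    filter_upwards [eventually_gt_atTop k] with n hn
    simp only [hx]
    rw [Function.update_of_ne (ne_of_lt hn)]
  have hxinj : Function.Injective x := by
    intro m n hmn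
    by_contra hne
    have h1 := congrFun hmn m
    simp only [hx] at h1
    rw [Function.update_self, Function.update_of_ne hne] at h1
    cases hpm : p m <;> rw [hpm] at h1 <;> simp at h1
  have hxO : ∀ᶠ n in (Filter.hyperfilter ℕ : Filter ℕ), x n ∉ O := by
    have h1 : (x ⁻¹' O).Finite := hOfin.preimage hxinj.injOn
    exact Filter.hyperfilter_le_cofinite h1.compl_mem_cofinite
  have hxlimU : Tendsto x (Filter.hyperfilter ℕ : Filter ℕ) (𝓝 p) :=
    hxlim.mono_left (Filter.hyperfilter_le_cofinite.trans_eq Nat.cofinite_eq_atTop)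
  -- points outside O
  have hout : ∀ z : ℕ → Bool, z ∉ O → ∃ (c : ℕ → Bool) (i : Fin 5), f (Sum.inr (c, i)) = z := by
    intro z hz
    cases hfz : f.symm z with
    | inl i =>
      exfalso
      apply hz
      refine ⟨i, ?_⟩
      simp only
      rw [← hfz, Equiv.apply_symm_apply]
    | inr q =>
      refine ⟨q.1, q.2, ?_⟩
      rw [Prod.mk.eta, ← hfz, Equiv.apply_symm_apply]
  have hinrO : ∀ c i, f (Sum.inr (c, i)) ∉ O := by
    rintro c i ⟨j, hj⟩
    have := f.injective hj
    simp at this
  have hex : ∀ n, ∃ (c : ℕ → Bool) (i : Fin 5), x n ∉ O → f (Sum.inr (c, i)) = x n := by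
    intro n
    by_cases h : x n ∈ O
    · exact ⟨p, 0, fun h' => absurd h h'⟩
    · obtain ⟨c, i, hci⟩ := hout _ h
      exact ⟨c, i, fun _ => hci⟩
  choose c i0 hci using hex
  set y : ℕ → Fin 5 → (ℕ → Bool) := fun n j => f (Sum.inr (c n, j)) with hy
  -- limits
  have hlim : ∀ j : Fin 5, ∃ q, Tendsto (fun n => y n j) (Filter.hyperfilter ℕ : Filter ℕ) (𝓝 q) := by
    intro j
    have := ((Filter.hyperfilter ℕ).map (fun n => y n j)).le_nhds_lim
    exact ⟨_, this⟩
  choose q hq using hlim
  have fin_const : ∀ {T : Type} [Finite T] (t : ℕ → T), ∃ a : T,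
      ∀ᶠ n in (Filter.hyperfilter ℕ : Filter ℕ), t n = a := by
    intro T _ t
    obtain ⟨a, ha⟩ := Ultrafilter.eq_pure_of_finite ((Filter.hyperfilter ℕ).map t)
    refine ⟨a, ?_⟩
    have h1 : {a} ∈ (Filter.hyperfilter ℕ).map t := by
      rw [ha]
      exact Ultrafilter.mem_pure.2 rfl
    exact h1
  -- invariance
  have hinv : ∀ g : G, ∃ τ : Fin 5 → Fin 5, Function.Injective τ ∧ ∀ j, g • q j = q (τ j) := by
    intro g
    have h1 : ∀ n, ∃ τ : Fin 5 → Fin 5, ∀ j, g • y n j = y n (τ j) := by
      intro n
      have h2 : ∀ j, ∃ j', g • y n j = y n j' := by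
        intro j
        have h3 := (hf (Sum.inr (c n, j)) (f.symm (g • y n j))).2
          ⟨g, by rw [Equiv.apply_symm_apply]⟩
        obtain ⟨j', hj'⟩ := (rel_inr _ _ _).1 h3
        refine ⟨j', ?_⟩
        simp only [hy]
        rw [← hj', Equiv.apply_symm_apply]
      choose τ hτ using h2
      exact ⟨τ, hτ⟩
    choose τ hτ using h1
    obtain ⟨σ, hσ⟩ := fin_const τ
    refine ⟨σ, ?_, ?_⟩
    · obtain ⟨n, hn⟩ := hσ.exists
      intro a b hab
      have h3 : g • y n a = g • y n b := by
        rw [hτ, hτ, hn, hab]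
      have h4 := smul_left_cancel g h3
      have h5 := f.injective h4
      simpa using h5
    · intro j
      have h3 : Tendsto (fun n => g • y n j) (Filter.hyperfilter ℕ : Filter ℕ) (𝓝 (g • q j)) :=
        (hq j).const_smul g
      have h4 : Tendsto (fun n => g • y n j) (Filter.hyperfilter ℕ : Filter ℕ) (𝓝 (q (σ j))) := by
        refine (hq (σ j)).congr' ?_
        filter_upwards [hσ] with n hn
        rw [hτ, hn]
      exact tendsto_nhds_unique h3 h4
  -- p is a limit
  have hpq : ∃ j, q j = p := by
    obtain ⟨j, hj⟩ := fin_const i0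
    refine ⟨j, ?_⟩
    refine tendsto_nhds_unique (hq j) (hxlimU.congr' ?_)
    filter_upwards [hj, hxO] with n hn hnO
    rw [← hci n hnO, hn]
  -- all limits are in O
  have hqO : ∀ j, q j ∈ O := by
    intro j
    by_contra hj
    obtain ⟨d, i, hdi⟩ := hout _ hj
    have h1 : ∀ i' : Fin 5, ∃ j', q j' = f (Sum.inr (d, i')) := by
      intro i'
      obtain ⟨g, hg⟩ := (hf (Sum.inr (d, i)) (Sum.inr (d, i'))).1 ((rel_inr _ _ _).2 ⟨i', rfl⟩)
      obtain ⟨τ, _, hτ⟩ := hinv g
      exact ⟨τ j, by rw [← hτ, ← hdi, hg]⟩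
    choose r hr using h1
    obtain ⟨jp, hjp⟩ := hpq
    have h2 : Function.Injective (fun o : Option (Fin 5) => o.elim jp r) := by
      intro a b hab
      have h3 : ∀ i', r i' ≠ jp := by
        intro i' h
        apply hinrO d i'
        rw [← hr, h, hjp]
        exact hpO
      cases a with
      | none =>
        cases b with
        | none => rfl
        | some b => exact absurd hab.symm (h3 b)
      | some a =>
        cases b with
        | none => exact absurd hab (h3 a)
        | some b =>
          simp only [Option.elim] at hab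
          have h4 : f (Sum.inr (d, a)) = f (Sum.inr (d, b)) := by rw [← hr, ← hr, hab]
          have h5 := f.injective h4
          simp at h5
          rw [h5]
    have h3 := Fintype.card_le_of_injective _ h2
    simp at h3
  -- counting
  have hle : ∀ i i' : Fin 4, (Finset.univ.filter (fun j => q j = f (Sum.inl i))).card ≤
      (Finset.univ.filter (fun j => q j = f (Sum.inl i'))).card := by
    intro i i'
    obtain ⟨g, hg⟩ := (hf (Sum.inl i) (Sum.inl i')).1 ((rel_inl _ _).2 ⟨i', rfl⟩)
    obtain ⟨τ, hτi, hτ⟩ := hinv g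
    refine Finset.card_le_card_of_injOn τ ?_ hτi.injOn
    intro j hj
    have hj' := (Finset.mem_filter.1 (Finset.mem_coe.1 hj)).2
    rw [Finset.mem_coe, Finset.mem_filter]
    exact ⟨Finset.mem_univ _, by rw [← hτ, hj', hg]⟩
  have heq : ∀ i : Fin 4, (Finset.univ.filter (fun j => q j = f (Sum.inl i))).card =
      (Finset.univ.filter (fun j => q j = f (Sum.inl 0))).card := fun i =>
    le_antisymm (hle i 0) (hle 0 i)
  have htot : ∑ i : Fin 4, (Finset.univ.filter (fun j => q j = f (Sum.inl i))).card = 5 := by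
    have h1 : ∀ j : Fin 5, ∃ i : Fin 4, q j = f (Sum.inl i) := by
      intro j
      obtain ⟨i, hi⟩ := hqO j
      exact ⟨i, hi.symm⟩
    choose s hs using h1
    have h2 : ∀ i : Fin 4, (Finset.univ.filter (fun j => q j = f (Sum.inl i))) =
        Finset.univ.filter (fun j => s j = i) := by
      intro i
      apply Finset.filter_congr
      intro j _
      rw [hs j]
      constructor
      · intro h
        have := f.injective h
        simpa using this
      · intro h
        rw [h]
    simp only [h2]
    have h3 := Finset.card_eq_sum_card_fiberwise (s := (Finset.univ : Finset (Fin 5)))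
      (t := (Finset.univ : Finset (Fin 4))) (f := s) (fun a _ => Finset.mem_coe.2 (Finset.mem_univ _))
    rw [← h3]
    simp
  simp only [heq, Finset.sum_const, Finset.card_univ, Fintype.card_fin, smul_eq_mul] at htot
  omega

theorem finite_classes_counterexample :
    ∃ (X : Type) (_ : MeasurableSpace X) (_ : StandardBorelSpace X) (E : X → X → Prop),
      ¬ Countable X ∧ Equivalence E ∧ MeasurableSet {p : X × X | E p.1 p.2} ∧
      (∀ x : X, {y : X | E x y}.Countable) ∧
      (∃ (G : Type) (_ : Group G) (_ : Countable G) (Z : Type) (_ : TopologicalSpace Z)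
        (_ : CompactSpace Z) (_ : TopologicalSpace.MetrizableSpace Z) (_ : MeasurableSpace Z)
        (_ : BorelSpace Z) (_ : MulAction G Z) (_ : ContinuousConstSMul G Z) (f : X ≃ᵐ Z),
        ∀ a b : X, E a b ↔ ∃ g : G, g • f a = f b) ∧
      ¬ ∃ (G : Type) (_ : Group G) (_ : Countable G) (_ : MulAction G (ℕ → Bool))
        (_ : ContinuousConstSMul G (ℕ → Bool)) (f : X ≃ᵐ (ℕ → Bool)),
        ∀ a b : X, E a b ↔ ∃ g : G, g • f a = f b := by
  have hb : BorelSpace XX := borelSpace_sum _ _
  have hc : ContinuousConstSMul GG XX := ⟨act_continuous⟩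
  have hP : PolishSpace XX := by
    let _ := TopologicalSpace.metrizableSpaceMetric XX
    infer_instance
  refine ⟨XX, inferInstance, inferInstance, fun a b => ∃ g : GG, g • a = b, ?_, ?_, ?_, ?_, ?_, ?_⟩
  · intro h
    have h1 : Countable (ℕ → Bool) := by
      refine Function.Injective.countable (f := fun c : ℕ → Bool => (Sum.inr (c, 0) : XX)) ?_
      intro a b hab
      simpa using hab
    obtain ⟨F, hF⟩ := exists_surjective_nat (ℕ → Bool)
    obtain ⟨m, hm⟩ := hF (fun n => !(F n n))
    have h2 := congrFun hm m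
    simp at h2
  · refine ⟨fun a => ⟨1, one_smul _ _⟩, ?_, ?_⟩
    · rintro a b ⟨g, rfl⟩
      exact ⟨g⁻¹, inv_smul_smul _ _⟩
    · rintro a b d ⟨g, rfl⟩ ⟨h, rfl⟩
      exact ⟨h * g, mul_smul _ _ _⟩
  · have h1 : {p : XX × XX | ∃ g : GG, g • p.1 = p.2} = ⋃ g : GG, {p : XX × XX | g • p.1 = p.2} := by
      ext p; simp
    rw [h1]
    refine MeasurableSet.iUnion fun g => ?_
    exact (isClosed_eq ((act_continuous g).comp continuous_fst) continuous_snd).measurableSet
  · intro x
    exact Set.countable_range (fun g : GG => g • x)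
  · exact ⟨GG, inferInstance, inferInstance, XX, inferInstance, inferInstance, inferInstance,
      inferInstance, hb, actI, hc, MeasurableEquiv.refl XX, fun a b => Iff.rfl⟩
  · rintro ⟨G, _, _, _, _, f, hf⟩
    exact not_cantor f.toEquiv hf

end Pool.Agent.TH817.J711
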