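import Pool.Agent.TH91.LG.Defs

set_option autoImplicit false

namespace Pool.Agent.TH91.LG

open Topology Filter
open scoped ContDiff Manifold

variable {G : Type*} [Group G] [TopologicalSpace G] [IsTopologicalGroup G] {E : Type*}
  [NormedAddCommGroup E] [NormedSpace ℝ E] (L : LocLie G E)

omit [IsTopologicalGroup G] in
theorem LocLie.src_nhds : L.e.source ∈ 𝓝 (1 : G) := L.e.open_source.mem_nhds L.one_mem

omit [IsTopologicalGroup G] in
theorem LocLie.tgt_nhds : L.e.target ∈ 𝓝 (0 : E) := by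
  have := L.e.map_source L.one_mem
  rw [L.map_one] at this
  exact L.e.open_target.mem_nhds this

omit [IsTopologicalGroup G] in
theorem LocLie.symm_zero : L.e.symm 0 = 1 := by
  rw [← L.map_one, L.e.left_inv L.one_mem]

omit [IsTopologicalGroup G] in
theorem LocLie.ev_symm {γ : ℝ → G} (h0 : γ 0 = 1) (hc : ContinuousAt γ 0) :
    ∀ᶠ t in 𝓝 (0:ℝ), L.e.symm (L.e (γ t)) = γ t := by
  have h1 : γ ⁻¹' L.e.source ∈ 𝓝 (0:ℝ) := hc (by rw [h0]; exact L.src_nhds)
  filter_upwards [h1] with t ht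
  exact L.e.left_inv ht

omit [IsTopologicalGroup G] in
theorem LocLie.e_zero {γ : ℝ → G} (h0 : γ 0 = 1) : L.e (γ 0) = 0 := by rw [h0, L.map_one]

omit [IsTopologicalGroup G] in
/-- the derivative of the multiplication in the chart -/
theorem LocLie.mul_deriv : ∃ M : E × E →L[ℝ] E,
    HasFDerivAt (fun p : E × E => L.e (L.e.symm p.1 * L.e.symm p.2)) M (0, 0) ∧ ∀ X Y, M (X, Y) = X + Y := by
  have hd : DifferentiableAt ℝ (fun p : E × E => L.e (L.e.symm p.1 * L.e.symm p.2)) (0, 0) :=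
    L.mul.differentiableAt (by simp)
  set M := fderiv ℝ (fun p : E × E => L.e (L.e.symm p.1 * L.e.symm p.2)) (0, 0) with hM
  have hM' : HasFDerivAt (fun p : E × E => L.e (L.e.symm p.1 * L.e.symm p.2)) M (0, 0) := hd.hasFDerivAt
  have h1 : ∀ X, M (X, 0) = X := by
    intro X
    have hi : HasFDerivAt (fun x : E => (x, (0:E))) (ContinuousLinearMap.inl ℝ E E) 0 :=
      (ContinuousLinearMap.inl ℝ E E).hasFDerivAt
    have h2 := HasFDerivAt.comp (0:E) (g := fun p : E × E => L.e (L.e.symm p.1 * L.e.symm p.2))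
      (f := fun x : E => (x, (0:E))) hM' hi
    have h3 : (fun x : E => x) =ᶠ[𝓝 0] ((fun p : E × E => L.e (L.e.symm p.1 * L.e.symm p.2)) ∘ fun x : E => (x, (0:E))) := by
      filter_upwards [L.tgt_nhds] with x hx
      simp only [Function.comp, L.symm_zero, mul_one]
      exact (L.e.right_inv hx).symm
    have h4 := (h2.congr_of_eventuallyEq h3).unique (hasFDerivAt_id (0:E))
    have h5 := congrArg (fun A : E →L[ℝ] E => A X) h4
    simpa using h5
  have h1' : ∀ Y, M (0, Y) = Y := by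
    intro Y
    have hi : HasFDerivAt (fun x : E => ((0:E), x)) (ContinuousLinearMap.inr ℝ E E) 0 :=
      (ContinuousLinearMap.inr ℝ E E).hasFDerivAt
    have h2 := HasFDerivAt.comp (0:E) (g := fun p : E × E => L.e (L.e.symm p.1 * L.e.symm p.2))
      (f := fun x : E => ((0:E), x)) hM' hi
    have h3 : (fun x : E => x) =ᶠ[𝓝 0] ((fun p : E × E => L.e (L.e.symm p.1 * L.e.symm p.2)) ∘ fun x : E => ((0:E), x)) := by
      filter_upwards [L.tgt_nhds] with x hx
      simp only [Function.comp, L.symm_zero, one_mul]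
      exact (L.e.right_inv hx).symm
    have h4 := (h2.congr_of_eventuallyEq h3).unique (hasFDerivAt_id (0:E))
    have h5 := congrArg (fun A : E →L[ℝ] E => A Y) h4
    simpa using h5
  refine ⟨M, hM', fun X Y => ?_⟩
  have : (X, Y) = (X, (0:E)) + ((0:E), Y) := by simp
  rw [this, map_add, h1, h1']

omit [IsTopologicalGroup G] in
theorem LocLie.T_one : L.T (fun _ => 1) 0 :=
  ⟨rfl, continuousAt_const, hasDerivAt_const _ _⟩

omit [IsTopologicalGroup G] in
theorem LocLie.T_unique {γ : ℝ → G} {X Y : E} (h : L.T γ X) (h' : L.T γ Y) : X = Y :=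
  h.2.2.unique h'.2.2

theorem LocLie.T_mul {γ δ : ℝ → G} {X Y : E} (h : L.T γ X) (h' : L.T δ Y) :
    L.T (fun t => γ t * δ t) (X + Y) := by
  obtain ⟨h0, hc, hd⟩ := h
  obtain ⟨h0', hc', hd'⟩ := h'
  refine ⟨by simp [h0, h0'], hc.mul hc', ?_⟩
  obtain ⟨M, hM, hMe⟩ := L.mul_deriv
  have hp : HasDerivAt (fun t => (L.e (γ t), L.e (δ t))) (X, Y) 0 := hd.prodMk hd'
  have hM2 : HasFDerivAt (fun p : E × E => L.e (L.e.symm p.1 * L.e.symm p.2)) M
      ((fun t => (L.e (γ t), L.e (δ t))) 0) := by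
    have : (fun t => (L.e (γ t), L.e (δ t))) 0 = ((0:E), (0:E)) := by
      simp only [L.e_zero h0, L.e_zero h0']
    rw [this]; exact hM
  have h1 := HasFDerivAt.comp_hasDerivAt (0:ℝ) hM2 hp
  rw [hMe] at h1
  refine h1.congr_of_eventuallyEq ?_
  filter_upwards [L.ev_symm h0 hc, L.ev_symm h0' hc'] with t h2 h3
  simp only [Function.comp, h2, h3]

theorem LocLie.T_inv {γ : ℝ → G} {X : E} (h : L.T γ X) : L.T (fun t => (γ t)⁻¹) (-X) := by
  have hd0 : DifferentiableAt ℝ (fun x : E => L.e (L.e.symm x)⁻¹) 0 := L.inv.differentiableAt (by simp)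
  set A := fderiv ℝ (fun x : E => L.e (L.e.symm x)⁻¹) 0 with hA
  have hT : L.T (fun t => (γ t)⁻¹) (A X) := by
    obtain ⟨h0, hc, hd⟩ := h
    refine ⟨by simp [h0], hc.inv, ?_⟩
    have hA2 : HasFDerivAt (fun x : E => L.e (L.e.symm x)⁻¹) A ((fun t => L.e (γ t)) 0) := by
      have : (fun t => L.e (γ t)) 0 = (0:E) := L.e_zero h0
      rw [this]; exact hd0.hasFDerivAt
    have h1 := HasFDerivAt.comp_hasDerivAt (0:ℝ) hA2 hd
    refine h1.congr_of_eventuallyEq ?_
    filter_upwards [L.ev_symm h0 hc] with t h2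
    simp only [Function.comp, h2]
  have h2 := L.T_mul h hT
  simp only [mul_inv_cancel] at h2
  have h3 := L.T_unique h2 L.T_one
  have h4 : A X = -X := (neg_eq_of_add_eq_zero_right h3).symm
  rwa [h4] at hT

omit [IsTopologicalGroup G] in
theorem LocLie.T_comp {γ : ℝ → G} {X : E} {u : ℝ → ℝ} {a : ℝ} (h : L.T γ X) (h0 : u 0 = 0)
    (hu : HasDerivAt u a 0) : L.T (fun t => γ (u t)) (a • X) := by
  obtain ⟨h1, hc, hd⟩ := h
  refine ⟨by simp only [h0, h1], ?_, ?_⟩
  · have hc' : ContinuousAt γ (u 0) := by rw [h0]; exact hc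
    exact ContinuousAt.comp hc' hu.continuousAt
  · have hd' : HasDerivAt (fun t => L.e (γ t)) X (u 0) := by rw [h0]; exact hd
    exact HasDerivAt.scomp (0:ℝ) hd' hu

theorem LocLie.T_conj (g : G) {γ : ℝ → G} {X : E} (h : L.T γ X) :
    L.T (fun t => g * γ t * g⁻¹) (L.Ad g X) := by
  obtain ⟨h0, hc, hd⟩ := h
  refine ⟨by simp [h0], (continuousAt_const.mul hc).mul continuousAt_const, ?_⟩
  have hA2 : HasFDerivAt (fun x : E => L.e (g * L.e.symm x * g⁻¹)) (L.Ad g) ((fun t => L.e (γ t)) 0) := by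
    have : (fun t => L.e (γ t)) 0 = (0:E) := L.e_zero h0
    rw [this]; exact (L.conj g).hasFDerivAt
  have h1 := HasFDerivAt.comp_hasDerivAt (0:ℝ) hA2 hd
  refine h1.congr_of_eventuallyEq ?_
  filter_upwards [L.ev_symm h0 hc] with t h2
  simp only [Function.comp, h2]

end Pool.Agent.TH91.LG
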