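import Pool.Agent.H438R2.RZ.P3
import Pool.Agent.TH278.Defs
set_option autoImplicit false

/-! # Orthogonality for arcs of two circles with different radii -/

namespace Pool.Agent.TH817.J614

open MeasureTheory Set Complex
open scoped ENNReal RealInnerProductSpace
open Pool.Agent.H438R2.RZ (e Good ft Pl Bump mA mC Arc Win sl SL Bk gA TR pl_planch)
open Pool.Agent.H438R2.RZ.P3aux
open Pool.Agent.TH278

open Classical in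
theorem main_orth2 {ι κ : Type*} (S : Finset ι) (T : Finset κ) (U : ι → ℝ × ℝ → ℂ)
    (V : κ → ℝ × ℝ → ℂ) (hU : ∀ a, Good (U a)) (hV : ∀ b, Good (V b)) (N : ℕ)
    (hN : ∀ ζ : ℝ × ℝ, ((S ×ˢ T).filter (fun p : ι × κ => ∃ P P' : ℝ × ℝ,
      U p.1 P ≠ 0 ∧ V p.2 P' ≠ 0 ∧ P + P' = ζ)).card ≤ N) :
    ∫⁻ z, ‖∑ a ∈ S, Fi (U a) z‖ₑ ^ 2 * ‖∑ b ∈ T, Fi (V b) z‖ₑ ^ 2 ≤
      N * ∫⁻ z, (∑ a ∈ S, ‖Fi (U a) z‖ₑ ^ 2) * (∑ b ∈ T, ‖Fi (V b) z‖ₑ ^ 2) := by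
  set W : ℝ × ℝ → ℂ := fun ζ => ∑ p ∈ S ×ˢ T, cv (U p.1) (V p.2) ζ with hW
  have hcg : ∀ p : ι × κ, Good (cv (U p.1) (V p.2)) := fun p => good_cv (hU _) (hV _)
  have hWg : Good W := good_sum _ _ (fun p _ => hcg p)
  have h1 : ∀ z, Fi W z = (∑ a ∈ S, Fi (U a) z) * (∑ b ∈ T, Fi (V b) z) := by
    intro z
    rw [hW, Fi_sum _ _ (fun p _ => good_integrable (hcg p)), Finset.sum_mul_sum,
      Finset.sum_product]
    exact Finset.sum_congr rfl fun a _ => Finset.sum_congr rfl fun b _ => Fi_mul (hU a) (hV b) z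
  have h2 : ∀ z, ‖∑ a ∈ S, Fi (U a) z‖ₑ ^ 2 * ‖∑ b ∈ T, Fi (V b) z‖ₑ ^ 2 = ‖Fi W z‖ₑ ^ 2 := by
    intro z
    rw [h1, enorm_mul, mul_pow]
  have h3 : ∀ ζ, ‖W ζ‖ₑ ^ 2 ≤ N * ∑ p ∈ S ×ˢ T, ‖cv (U p.1) (V p.2) ζ‖ₑ ^ 2 := by
    intro ζ
    have h4 : ‖W ζ‖ ^ 2 ≤ N * ∑ p ∈ S ×ˢ T, ‖cv (U p.1) (V p.2) ζ‖ ^ 2 := by
      set R := (S ×ˢ T).filter (fun p : ι × κ => ∃ P P' : ℝ × ℝ,
        U p.1 P ≠ 0 ∧ V p.2 P' ≠ 0 ∧ P + P' = ζ) with hR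
      have h5 : W ζ = ∑ p ∈ R, cv (U p.1) (V p.2) ζ := by
        rw [hW, hR, Finset.sum_filter_of_ne]
        intro p _ hp
        exact cv_ne hp
      have h6 : ‖W ζ‖ ≤ ∑ p ∈ R, ‖cv (U p.1) (V p.2) ζ‖ := by
        rw [h5]; exact norm_sum_le _ _
      calc ‖W ζ‖ ^ 2 ≤ (∑ p ∈ R, ‖cv (U p.1) (V p.2) ζ‖) ^ 2 :=
            pow_le_pow_left₀ (norm_nonneg _) h6 2
        _ ≤ R.card * ∑ p ∈ R, ‖cv (U p.1) (V p.2) ζ‖ ^ 2 := sq_sum_le_card_mul_sum_sq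
        _ ≤ N * ∑ p ∈ S ×ˢ T, ‖cv (U p.1) (V p.2) ζ‖ ^ 2 := by
            refine mul_le_mul (by exact_mod_cast hN ζ) ?_ ?_ (by positivity)
            · exact Finset.sum_le_sum_of_subset_of_nonneg (Finset.filter_subset _ _)
                (fun p _ _ => by positivity)
            · exact Finset.sum_nonneg fun p _ => by positivity
    rw [enorm_sq]
    refine (ENNReal.ofReal_le_ofReal h4).trans ?_
    rw [ENNReal.ofReal_mul (by positivity), ENNReal.ofReal_natCast,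
      ENNReal.ofReal_sum_of_nonneg (fun p _ => by positivity)]
    refine mul_le_mul_right (Finset.sum_le_sum fun p _ => ?_) _
    rw [enorm_sq]
  calc ∫⁻ z, ‖∑ a ∈ S, Fi (U a) z‖ₑ ^ 2 * ‖∑ b ∈ T, Fi (V b) z‖ₑ ^ 2
      = ∫⁻ z, ‖Fi W z‖ₑ ^ 2 := lintegral_congr h2
    _ = ∫⁻ ζ, ‖W ζ‖ₑ ^ 2 := pl_planch W hWg
    _ ≤ ∫⁻ ζ, N * ∑ p ∈ S ×ˢ T, ‖cv (U p.1) (V p.2) ζ‖ₑ ^ 2 := lintegral_mono h3
    _ = N * ∑ p ∈ S ×ˢ T, ∫⁻ ζ, ‖cv (U p.1) (V p.2) ζ‖ₑ ^ 2 := by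
        rw [lintegral_const_mul', lintegral_finsetSum]
        · intro p _
          exact (hcg p).1.enorm.pow_const 2
        · exact ENNReal.natCast_ne_top N
    _ = N * ∑ p ∈ S ×ˢ T, ∫⁻ z, ‖Fi (U p.1) z‖ₑ ^ 2 * ‖Fi (V p.2) z‖ₑ ^ 2 := by
        congr 1
        refine Finset.sum_congr rfl fun p _ => ?_
        rw [← pl_planch _ (hcg p)]
        refine lintegral_congr fun z => ?_
        have := Fi_mul (hU p.1) (hV p.2) z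
        unfold Fi at this
        rw [this, enorm_mul, mul_pow]
        rfl
    _ = N * ∫⁻ z, (∑ a ∈ S, ‖Fi (U a) z‖ₑ ^ 2) * (∑ b ∈ T, ‖Fi (V b) z‖ₑ ^ 2) := by
        congr 1
        rw [← lintegral_finsetSum]
        · refine lintegral_congr fun z => ?_
          rw [Finset.sum_mul_sum, Finset.sum_product]
        · intro p _
          exact ((measurable_Fi (hU p.1)).enorm.pow_const 2).mul
            ((measurable_Fi (hV p.2)).enorm.pow_const 2)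

/-- the caps of radius `r` times a Fourier transform are good -/
theorem good_mCr {ψ α β η : ℝ → ℝ} (hψ : Bump ψ) (hab : Arc α β) (hη : Win η) {L r : ℝ}
    (hL : 0 < L) (hr : 0 < r) (hr1 : r ≤ 1) (a : ℤ) {g : ℝ × ℝ → ℂ} (hg : Good g) :
    Good (fun ξ => mCr ψ α β η L r a ξ * ft g ξ) := by
  have hLr : 0 < L * r := mul_pos hL hr
  have hc0 : Continuous (mC ψ α β η (L * r) a) := by
    unfold mC mA
    have h1 := hψ.1.continuous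
    have h2 := hab.1.continuous
    have h3 := hab.2.1.continuous
    have h4 := hη.1.continuous
    fun_prop
  have hc : Continuous (mCr ψ α β η L r a) := by
    unfold mCr
    exact hc0.comp (by fun_prop)
  have hsupp0 : ∀ ξ, mC ψ α β η (L * r) a ξ ≠ 0 → |ξ.1| ≤ 1 ∧ |ξ.2| ≤ 1 := by
    intro ξ h
    obtain ⟨_, _, _, h4⟩ := mC_ne h
    obtain ⟨h5, _⟩ := psi_ball hψ hLr h4
    constructor
    · rw [← sq_le_one_iff_abs_le_one]; nlinarith [sq_nonneg ξ.2]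
    · rw [← sq_le_one_iff_abs_le_one]; nlinarith [sq_nonneg ξ.1]
  have hsupp : ∀ ξ, mCr ψ α β η L r a ξ ≠ 0 → |ξ.1| ≤ 1 ∧ |ξ.2| ≤ 1 := by
    intro ξ h
    obtain ⟨h1, h2⟩ := hsupp0 _ h
    simp only [abs_div, abs_of_pos hr] at h1 h2
    rw [div_le_one hr] at h1 h2
    exact ⟨h1.trans hr1, h2.trans hr1⟩
  obtain ⟨M, hM⟩ := (isCompact_Icc (a := ((-1 : ℝ), (-1 : ℝ))) (b := ((1 : ℝ), (1 : ℝ)))
    ).exists_bound_of_continuousOn (f := mCr ψ α β η L r a) hc.continuousOn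
  have hM' : ∀ ξ, ‖mCr ψ α β η L r a ξ‖ ≤ max M 0 := by
    intro ξ
    by_cases h : mCr ψ α β η L r a ξ = 0
    · rw [h, norm_zero]; exact le_max_right _ _
    · obtain ⟨h1, h2⟩ := hsupp ξ h
      rw [abs_le] at h1 h2
      refine (hM ξ ?_).trans (le_max_left _ _)
      exact ⟨⟨h1.1, h2.1⟩, ⟨h1.2, h2.2⟩⟩
  refine ⟨hc.measurable.mul (ft_measurable hg), ⟨max M 0 * ∫ z, ‖g z‖, fun ξ => ?_⟩, 1,
    fun ξ h => hsupp ξ (left_ne_zero_of_mul h)⟩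
  rw [norm_mul]
  exact mul_le_mul (hM' ξ) (ft_bound g ξ) (norm_nonneg _) (le_max_right _ _)

/-- the geometric information at a point of a cap of radius `r` -/
theorem mCr_ne {ψ α β η : ℝ → ℝ} (hψ : Bump ψ) (hab : Arc α β) (hη : Win η) {L r : ℝ}
    (hL : 0 < L) (hr : 0 < r) (a : ℤ) {ξ : ℝ × ℝ} (h : mCr ψ α β η L r a ξ ≠ 0) :
    |L * ξ.1 - a| ≤ 1 ∧ |ξ.1| ≤ 4 / 5 * r ∧ 1 / 10 * r ≤ ξ.2 ∧
      |r ^ 2 - (ξ.1 ^ 2 + ξ.2 ^ 2)| ≤ 2 / L ^ 2 := by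
  have hLr : 0 < L * r := mul_pos hL hr
  obtain ⟨h1, h2, h3, h4⟩ := mC_ne h
  simp only at h1 h2 h3 h4
  obtain ⟨h5, h6⟩ := psi_ball (ξ := (ξ.1 / r, ξ.2 / r)) hψ hLr h4
  simp only at h5 h6
  obtain ⟨h7, h8⟩ := hab.2.2 _ _ h2 h3 h5
  have hne : r ≠ 0 := hr.ne'
  refine ⟨?_, ?_, ?_, ?_⟩
  · have := hη.2 _ h1
    have h9 : L * r * (ξ.1 / r) - a = L * ξ.1 - a := by field_simp
    rwa [h9] at this
  · rw [abs_div, abs_of_pos hr, div_le_iff₀ hr] at h7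
    exact h7
  · rwa [le_div_iff₀ hr] at h8
  · have h9 : r ^ 2 - (ξ.1 ^ 2 + ξ.2 ^ 2) = r ^ 2 * (1 - ((ξ.1 / r) ^ 2 + (ξ.2 / r) ^ 2)) := by
      field_simp
    rw [h9, abs_mul, abs_of_pos (by positivity : 0 < r ^ 2)]
    calc r ^ 2 * |1 - ((ξ.1 / r) ^ 2 + (ξ.2 / r) ^ 2)| ≤ r ^ 2 * (2 / (L * r) ^ 2) :=
          mul_le_mul_of_nonneg_left h6 (by positivity)
      _ = 2 / L ^ 2 := by field_simp

theorem pl_sum {ψ α β η : ℝ → ℝ} (hψ : Bump ψ) (hab : Arc α β) (hη : Win η)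
    (hsum : ∀ x : ℝ, HasSum (fun a : ℤ => η (x - a)) 1) {L r : ℝ} (hL : 20 ≤ L)
    (hr : 1 / 2 ≤ r) (hr1 : r ≤ 1) {g : ℝ × ℝ → ℂ} (hg : Good g) (z : ℝ × ℝ) :
    Pl (mAr ψ α β L r) g z =
      ∑ a ∈ SL (L * r), Fi (fun ξ => mCr ψ α β η L r a ξ * ft g ξ) z := by
  have hL0 : 0 < L := by linarith
  have hr0 : 0 < r := by linarith
  have hLr : 10 ≤ L * r := by nlinarith
  rw [← Fi_sum (SL (L * r)) (fun a ξ => mCr ψ α β η L r a ξ * ft g ξ)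
    (fun a _ => good_integrable (good_mCr hψ hab hη hL0 hr0 hr1 a hg)) z]
  unfold Pl Fi
  refine integral_congr_ae (Filter.Eventually.of_forall fun ξ => ?_)
  simp only
  unfold mAr mCr
  rw [mA_sum hψ hab hη hsum hLr, Finset.sum_mul]

open Classical in
theorem orth2_of (N : ℕ) (hN : Overlap2 N) (ψ α β η : ℝ → ℝ) (hψ : Bump ψ) (hab : Arc α β)
    (hη : Win η) (hsum : ∀ x : ℝ, HasSum (fun a : ℤ => η (x - a)) 1) :
    ∃ C : ℝ, 0 < C ∧ Orth2 ψ α β η C := by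
  refine ⟨(N : ℝ) + 1, by positivity, fun L hL r s hr hr1 hs hs1 g h hg hh => ?_⟩
  have hL0 : 0 < L := by linarith
  have hr0 : 0 < r := by linarith
  have hs0 : 0 < s := by linarith
  set U : ℤ → ℝ × ℝ → ℂ := fun a ξ => mCr ψ α β η L r a ξ * ft g ξ with hU
  set V : ℤ → ℝ × ℝ → ℂ := fun a ξ => mCr ψ α β η L s a ξ * ft h ξ with hV
  have hUg : ∀ a, Good (U a) := fun a => good_mCr hψ hab hη hL0 hr0 hr1 a hg
  have hVg : ∀ a, Good (V a) := fun a => good_mCr hψ hab hη hL0 hs0 hs1 a hh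
  have h1 : ∀ z, Pl (mAr ψ α β L r) g z = ∑ a ∈ SL (L * r), Fi (U a) z :=
    fun z => pl_sum hψ hab hη hsum hL hr hr1 hg z
  have h2 : ∀ z, Pl (mAr ψ α β L s) h z = ∑ a ∈ SL (L * s), Fi (V a) z :=
    fun z => pl_sum hψ hab hη hsum hL hs hs1 hh z
  have h3 := main_orth2 (SL (L * r)) (SL (L * s)) U V hUg hVg N (fun ζ => by
    obtain ⟨hfin, hcard⟩ := hN L hL r s hr hr1 hs hs1 ζ
    refine le_trans ?_ hcard
    rw [← Set.ncard_coe_finset]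
    refine Set.ncard_le_ncard ?_ hfin
    intro p hp
    rw [Finset.mem_coe, Finset.mem_filter] at hp
    obtain ⟨_, P, P', h4, h5, h6⟩ := hp
    obtain ⟨a1, a2, a3, a4⟩ := mCr_ne hψ hab hη hL0 hr0 p.1 (left_ne_zero_of_mul h4)
    obtain ⟨b1, b2, b3, b4⟩ := mCr_ne hψ hab hη hL0 hs0 p.2 (left_ne_zero_of_mul h5)
    refine ⟨P, P', a1, b1, a2, b2, a3, b3, a4, b4, ?_, ?_⟩
    · rw [← h6]; rfl
    · rw [← h6]; rfl)
  calc ∫⁻ z, ‖Pl (mAr ψ α β L r) g z‖ₑ ^ 2 * ‖Pl (mAr ψ α β L s) h z‖ₑ ^ 2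
      = ∫⁻ z, ‖∑ a ∈ SL (L * r), Fi (U a) z‖ₑ ^ 2 * ‖∑ b ∈ SL (L * s), Fi (V b) z‖ₑ ^ 2 :=
        lintegral_congr fun z => by rw [h1, h2]
    _ ≤ N * ∫⁻ z, (∑ a ∈ SL (L * r), ‖Fi (U a) z‖ₑ ^ 2) *
          (∑ b ∈ SL (L * s), ‖Fi (V b) z‖ₑ ^ 2) := h3
    _ ≤ ENNReal.ofReal ((N : ℝ) + 1) *
          ∫⁻ z, (∑ a ∈ SL (L * r), ‖Pl (mCr ψ α β η L r a) g z‖ₑ ^ 2) *
            (∑ b ∈ SL (L * s), ‖Pl (mCr ψ α β η L s b) h z‖ₑ ^ 2) := by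
        refine mul_le_mul' ?_ (le_of_eq rfl)
        rw [← ENNReal.ofReal_natCast]
        exact ENNReal.ofReal_le_ofReal (by linarith)

end Pool.Agent.TH817.J614
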