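import Pool.Agent.TH547.Arc.Env
import Pool.Agent.TH286.J762
import Pool.Agent.TH286.J768

set_option autoImplicit false

/-! Job 872: face permutation after insertion of an arc into a paired word. -/

namespace Pool.Agent.TH817.J872

open Pool.Agent.TH547.Arc
open Finset Equiv

theorem end_notMem {X : PW} {b : ℕ} (hb : b ∉ X.ord) (e : Bool) : en b e ∉ X.x :=
  fun h => hb ((PW.mem_ord' e).2 h)

theorem fp_fix {θ : Perm Sy} {X : PW} {b : ℕ} {e e' : Bool} (hb : b ∉ X.ord)
    (h : θ (en b e) = en b e') : fp θ X.x (en b e) = en b e' := by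
  unfold fp
  rw [Perm.mul_apply, h]
  exact List.formPerm_apply_of_notMem (end_notMem hb e')

section
variable {θ : Perm Sy} {Dd : Finset Sy} {c q : Sy} {b : ℕ} {X : PW}

theorem mem_new (hc : c ∈ X.x) (hq : q ∈ X.x) (hcq : c = q ∨ [c, q].Sublist X.x)
    (hb : b ∉ X.ord) (s : Sy) : s ∈ (insP c q b X).x ↔ s ∈ X.x ∨ s = en b false ∨ s = en b true := by
  rw [insP_x hc hq hcq hb]
  unfold ins2
  rw [insB_mem, insB_mem, insB_mem]
  tauto

theorem fp_new (hc : c ∈ X.x) (hq : q ∈ X.x) (hcq : c = q ∨ [c, q].Sublist X.x)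
    (hb : b ∉ X.ord) : fp θ (insP c q b X).x =
      swap (en b true) q * (swap (en b false) c * fp θ X.x) := by
  rw [insP_x hc hq hcq hb]
  exact Pool.Agent.TH286.J762.fp_ins2 θ X.x X.nd c q b hc hq (end_notMem hb false)
    (end_notMem hb true)

theorem set_new (hD : ∀ s ∈ Dd, s ∈ X.x) (hc : c ∈ X.x) (hq : q ∈ X.x)
    (hcq : c = q ∨ [c, q].Sublist X.x) (hb : b ∉ X.ord) :
    (insP c q b X).x.toFinset \ Dd =
      insert (en b false) (insert (en b true) (X.x.toFinset \ Dd)) := by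
  have hd : ∀ e, en b e ∉ Dd := fun e h => end_notMem hb e (hD _ h)
  ext s
  simp only [mem_sdiff, List.mem_toFinset, mem_insert]
  rw [mem_new hc hq hcq hb]
  constructor
  · rintro ⟨h | h | h, h2⟩
    · exact Or.inr (Or.inr ⟨h, h2⟩)
    · exact Or.inl h
    · exact Or.inr (Or.inl h)
  · rintro (h | h | h)
    · exact ⟨Or.inr (Or.inl h), h ▸ hd false⟩
    · exact ⟨Or.inr (Or.inr h), h ▸ hd true⟩
    · exact ⟨Or.inl h.1, h.2⟩

theorem memA {s : Sy} (hs : s ∈ X.x) (hsD : s ∉ Dd) : s ∈ X.x.toFinset \ Dd := by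
  rw [mem_sdiff, List.mem_toFinset]
  exact ⟨hs, hsD⟩

end

section
variable {θ : Perm Sy} {Dd : Finset Sy} {c q : Sy} {b : ℕ} {X : PW}
  (hinv : ∀ s ∈ X.x, s ∉ Dd → fp θ X.x s ∈ X.x ∧ fp θ X.x s ∉ Dd)
  (hD : ∀ s ∈ Dd, s ∈ X.x)
  (h0 : θ (en b false) = en b true) (h1 : θ (en b true) = en b false)
  (hc : c ∈ X.x) (hcD : c ∉ Dd) (hq : q ∈ X.x) (hqD : q ∉ Dd)
  (hcq : c = q ∨ [c, q].Sublist X.x) (hb : b ∉ X.ord)

include hinv in
theorem invA : ∀ s ∈ X.x.toFinset \ Dd, fp θ X.x s ∈ X.x.toFinset \ Dd := by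
  intro s hs
  rw [mem_sdiff, List.mem_toFinset] at hs ⊢
  exact hinv s hs.1 hs.2

include hb in
theorem b0A : en b false ∉ X.x.toFinset \ Dd := by
  rw [mem_sdiff, List.mem_toFinset]
  exact fun h => end_notMem hb false h.1

include hb in
theorem b1A : en b true ∉ X.x.toFinset \ Dd := by
  rw [mem_sdiff, List.mem_toFinset]
  exact fun h => end_notMem hb true h.1

theorem b01 : en b false ≠ en b true := by simp

include hinv hD h0 h1 hc hcD hq hqD hcq hb

theorem insP_inv : ∀ s ∈ (insP c q b X).x, s ∉ Dd →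
    fp θ (insP c q b X).x s ∈ (insP c q b X).x ∧ fp θ (insP c q b X).x s ∉ Dd := by
  intro s hs hsD
  have key := Pool.Agent.TH286.J768.dbl_inv (fp θ X.x) (X.x.toFinset \ Dd) (invA hinv) b01
    (b0A hb) (b1A hb) (fp_fix hb h0) (fp_fix hb h1) (memA hc hcD) (memA hq hqD) s
    (by rw [← set_new hD hc hq hcq hb, mem_sdiff, List.mem_toFinset]; exact ⟨hs, hsD⟩)
  rw [← set_new hD hc hq hcq hb, ← fp_new hc hq hcq hb, mem_sdiff, List.mem_toFinset] at key
  exact key

theorem insP_fp_dead : ∀ s ∈ Dd, fp θ X.x s ∈ Dd → fp θ (insP c q b X).x s = fp θ X.x s := by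
  intro s _ h
  rw [fp_new hc hq hcq hb, Perm.mul_apply, Perm.mul_apply]
  have e0 : fp θ X.x s ≠ en b false := fun e => end_notMem hb false (e ▸ hD _ h)
  have e1 : fp θ X.x s ≠ en b true := fun e => end_notMem hb true (e ▸ hD _ h)
  have e2 : fp θ X.x s ≠ c := fun e => hcD (e ▸ h)
  have e3 : fp θ X.x s ≠ q := fun e => hqD (e ▸ h)
  rw [swap_apply_of_ne_of_ne e0 e2, swap_apply_of_ne_of_ne e1 e3]

theorem insP_nf_merge (h : ¬ (fp θ X.x).SameCycle c q) :
    nf θ Dd (insP c q b X).x + 1 = nf θ Dd X.x := by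
  unfold nf
  rw [set_new hD hc hq hcq hb, fp_new hc hq hcq hb]
  exact Pool.Agent.TH286.J768.dbl_merge (fp θ X.x) (X.x.toFinset \ Dd) (invA hinv) b01
    (b0A hb) (b1A hb) (fp_fix hb h0) (fp_fix hb h1) (memA hc hcD) (memA hq hqD) h

theorem insP_nf_split (h : (fp θ X.x).SameCycle c q) :
    nf θ Dd (insP c q b X).x = nf θ Dd X.x + 1 := by
  unfold nf
  rw [set_new hD hc hq hcq hb, fp_new hc hq hcq hb]
  exact Pool.Agent.TH286.J768.dbl_split (fp θ X.x) (X.x.toFinset \ Dd) (invA hinv) b01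
    (b0A hb) (b1A hb) (fp_fix hb h0) (fp_fix hb h1) (memA hc hcD) (memA hq hqD) h

theorem insP_sc_merge (h : ¬ (fp θ X.x).SameCycle c q) {s t : Sy} (hs : s ∈ X.x) (hsD : s ∉ Dd)
    (ht : t ∈ X.x) (htD : t ∉ Dd) : (fp θ (insP c q b X).x).SameCycle s t ↔
      (fp θ X.x).SameCycle s t ∨ (((fp θ X.x).SameCycle c s ∨ (fp θ X.x).SameCycle q s) ∧
        ((fp θ X.x).SameCycle c t ∨ (fp θ X.x).SameCycle q t)) := by
  rw [fp_new hc hq hcq hb]
  exact Pool.Agent.TH286.J768.dbl_sc_merge (fp θ X.x) (X.x.toFinset \ Dd) (invA hinv) b01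
    (b0A hb) (b1A hb) (fp_fix hb h0) (fp_fix hb h1) (memA hc hcD) (memA hq hqD) h (memA hs hsD)
    (memA ht htD)

theorem insP_sc_split (h : (fp θ X.x).SameCycle c q) {s t : Sy} (hs : s ∈ X.x) (hsD : s ∉ Dd)
    (ht : t ∈ X.x) (htD : t ∉ Dd) (hst : (fp θ (insP c q b X).x).SameCycle s t) :
    (fp θ X.x).SameCycle s t := by
  rw [fp_new hc hq hcq hb] at hst
  exact Pool.Agent.TH286.J768.dbl_sc_split (fp θ X.x) (X.x.toFinset \ Dd) (invA hinv) b01
    (b0A hb) (b1A hb) (fp_fix hb h0) (fp_fix hb h1) (memA hc hcD) (memA hq hqD) h (memA hs hsD)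
    (memA ht htD) hst

theorem insP_sc_far {s t : Sy} (hs : s ∈ X.x) (hsD : s ∉ Dd) (ht : t ∈ X.x) (htD : t ∉ Dd)
    (h1' : ¬ (fp θ X.x).SameCycle c s) (h2' : ¬ (fp θ X.x).SameCycle q s) :
    (fp θ (insP c q b X).x).SameCycle s t ↔ (fp θ X.x).SameCycle s t := by
  rw [fp_new hc hq hcq hb]
  exact Pool.Agent.TH286.J768.dbl_sc_far (fp θ X.x) (X.x.toFinset \ Dd) (invA hinv) b01
    (b0A hb) (b1A hb) (fp_fix hb h0) (fp_fix hb h1) (memA hc hcD) (memA hq hqD) (memA hs hsD)
    (memA ht htD) h1' h2'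

theorem insP_sc_far_new {s : Sy} (hs : s ∈ X.x) (hsD : s ∉ Dd)
    (h1' : ¬ (fp θ X.x).SameCycle c s) (h2' : ¬ (fp θ X.x).SameCycle q s) :
    ¬ (fp θ (insP c q b X).x).SameCycle s (en b false) ∧
      ¬ (fp θ (insP c q b X).x).SameCycle s (en b true) := by
  rw [fp_new hc hq hcq hb]
  exact Pool.Agent.TH286.J768.dbl_far (fp θ X.x) (X.x.toFinset \ Dd) (invA hinv) b01
    (b0A hb) (b1A hb) (fp_fix hb h0) (fp_fix hb h1) (memA hc hcD) (memA hq hqD) (memA hs hsD)
    h1' h2'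

theorem insP_sc_ends_merge (h : ¬ (fp θ X.x).SameCycle c q) :
    (fp θ (insP c q b X).x).SameCycle (en b false) (en b true) ∧
      (fp θ (insP c q b X).x).SameCycle (en b false) c := by
  rw [fp_new hc hq hcq hb]
  exact Pool.Agent.TH286.J768.dbl_b0 (fp θ X.x) (X.x.toFinset \ Dd) (invA hinv) b01
    (b0A hb) (b1A hb) (fp_fix hb h0) (fp_fix hb h1) (memA hc hcD) (memA hq hqD) h

theorem insP_sc_ends_split (h : (fp θ X.x).SameCycle c q) :
    ¬ (fp θ (insP c q b X).x).SameCycle (en b false) (en b true) := by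
  rw [fp_new hc hq hcq hb]
  exact Pool.Agent.TH286.J768.dbl_b01 (fp θ X.x) (X.x.toFinset \ Dd) (invA hinv) b01
    (b0A hb) (b1A hb) (fp_fix hb h0) (fp_fix hb h1) (memA hc hcD) (memA hq hqD) h

theorem insP_sc_b0q : (fp θ (insP c q b X).x).SameCycle (en b false) q := by
  rw [fp_new hc hq hcq hb]
  exact Pool.Agent.TH286.J768.dbl_b0q (fp θ X.x) (X.x.toFinset \ Dd) (invA hinv) b01
    (b0A hb) (b1A hb) (fp_fix hb h0) (fp_fix hb h1) (memA hc hcD) (memA hq hqD)

theorem insP_sc_b1c (h : c ≠ q) : (fp θ (insP c q b X).x).SameCycle (en b true) c := by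
  rw [fp_new hc hq hcq hb]
  exact Pool.Agent.TH286.J768.dbl_b1c (fp θ X.x) (X.x.toFinset \ Dd) (invA hinv) b01
    (b0A hb) (b1A hb) (fp_fix hb h0) (fp_fix hb h1) (memA hc hcD) (memA hq hqD) h
end

theorem dropWhile_append_cons {p l : List Sy} {s : Sy} (hs : s ∉ p) :
    (p ++ s :: l).dropWhile (fun t => decide (t ≠ s)) = s :: l := by
  induction p with
  | nil => simp
  | cons u p ih =>
    have hu : u ≠ s := fun e => hs (by simp [e])
    rw [List.cons_append, List.dropWhile_cons_of_pos (by simpa using hu)]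
    exact ih fun e => hs (List.mem_cons_of_mem _ e)

/-- a symbol not in `μ` has the owner of the next symbol -/
theorem own_next {μ p l : List Sy} {s t : Sy} (hnd : (p ++ s :: t :: l).Nodup) (hs : s ∉ μ) :
    own μ (p ++ s :: t :: l) s = own μ (p ++ s :: t :: l) t := by
  have h1 := List.nodup_append.1 hnd
  have hsp : s ∉ p := fun e => h1.2.2 s e s (by simp) rfl
  have htp : t ∉ p := fun e => h1.2.2 t e t (by simp) rfl
  have hst : s ≠ t := by
    intro e
    have := (List.nodup_cons.1 h1.2.1).1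
    exact this (by simp [e])
  unfold own
  rw [dropWhile_append_cons hsp]
  have e2 : p ++ s :: t :: l = (p ++ [s]) ++ t :: l := by simp
  have hnt : t ∉ p ++ [s] := by
    rw [List.mem_append, List.mem_singleton]
    rintro (e | e)
    · exact htp e
    · exact hst e.symm
  rw [e2, dropWhile_append_cons hnt, List.find?_cons_of_neg (by simpa using hs)]

theorem split_of_mem {x : List Sy} (hx : x.Nodup) {s : Sy} (hs : s ∈ x) :
    ∃ l1 l2, x = l1 ++ s :: l2 ∧ s ∉ l1 ∧ s ∉ l2 := by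
  obtain ⟨l1, l2, rfl⟩ := List.append_of_mem hs
  refine ⟨l1, l2, rfl, ?_, ?_⟩
  · intro e
    exact (List.nodup_append.1 hx).2.2 s e s (by simp) rfl
  · exact (List.nodup_cons.1 (List.nodup_append.1 hx).2.1).1

/-- every paired word ending with a marker is obtained by insertion of any of its arcs -/
theorem exists_insP (X : PW) {a : ℕ} (ha : a ∈ X.ord) (hl : ∃ (l : List Sy) (n : ℕ), X.x = l ++ [mr n]) :
    ∃ u ∈ (X.dl a).x, ∃ r ∈ (X.dl a).x, (u = r ∨ [u, r].Sublist (X.dl a).x) ∧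
      X = insP u r a (X.dl a) ∧
      (∀ (μ : List Sy), en a false ∉ μ → (∃ (l : List Sy) (n : ℕ), X.x = l ++ [mr n] ∧ mr n ∈ μ) →
        en a true ∉ μ → own μ X.x (en a false) = own μ X.x u ∧ own μ X.x (en a true) = own μ X.x r) := by
  obtain ⟨l, n, hln⟩ := hl
  obtain ⟨u, hu, r, hr, hur, hX⟩ := Pool.Agent.TH286.J762.exists_ins2 X a ha
    ⟨l, mr n, hln, offA_mr a n⟩
  have han : a ∉ (X.dl a).ord := by
    rw [PW.ord_dl, X.ord_nodup.mem_erase_iff]
    exact fun h => h.1 rfl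
  have h0 : en a false ∉ (X.dl a).x := end_notMem han false
  have h1 : en a true ∉ (X.dl a).x := end_notMem han true
  refine ⟨u, hu, r, hr, hur, ?_, ?_⟩
  · apply PW.ext
    rw [insP_x hu hr hur han]
    exact hX
  · intro μ hμ0 _ hμ1
    have hnd := X.nd
    have hYnd := (X.dl a).nd
    rw [hX] at hnd ⊢
    generalize (X.dl a).x = Y at *
    unfold ins2 at hnd ⊢
    -- the second end
    have hZ0 : (insB u (en a false) Y).Nodup := insB_nd _ _ hYnd h0
    have hrZ : r ∈ insB u (en a false) Y := (insB_mem _ _ _ _).2 (Or.inl hr)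
    have key1 : own μ (insB r (en a true) (insB u (en a false) Y)) (en a true) =
        own μ (insB r (en a true) (insB u (en a false) Y)) r := by
      obtain ⟨z1, z2, hz, hz1, hz2⟩ := split_of_mem hZ0 hrZ
      rw [hz, insB_split _ hz1 hz2] at hnd ⊢
      exact own_next hnd hμ1
    refine ⟨?_, key1⟩
    obtain ⟨l1, l2, hY, hl1, hl2⟩ := split_of_mem hYnd hu
    by_cases hur' : u = r
    · subst hur'
      rw [← key1]
      have e2 : insB u (en a false) Y = (l1 ++ [en a false]) ++ u :: l2 := by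
        rw [hY, insB_split _ hl1 hl2]; simp
      have hn3 : u ∉ l1 ++ [en a false] := by
        rw [List.mem_append, List.mem_singleton]
        rintro (e | e)
        · exact hl1 e
        · exact h0 (e ▸ hu)
      rw [e2, insB_split _ hn3 hl2] at hnd ⊢
      have e3 : l1 ++ [en a false] ++ en a true :: u :: l2 =
          l1 ++ en a false :: en a true :: u :: l2 := by simp
      rw [e3] at hnd ⊢
      exact own_next hnd hμ0
    · have hne : en a false ≠ r := by
        intro e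
        rw [e] at h0
        exact h0 hr
      have e2 : insB r (en a true) (insB u (en a false) Y) =
          insB r (en a true) l1 ++ en a false :: u :: insB r (en a true) l2 := by
        rw [hY, insB_split _ hl1 hl2, insB_append, insB_cons_ne _ _ hne,
          insB_cons_ne _ _ hur']
      rw [e2] at hnd ⊢
      exact own_next hnd hμ0

end Pool.Agent.TH817.J872
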