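import Pool.Agent.TH144.AE.Var
import Pool.Agent.TH350.J243

set_option autoImplicit false

/-! Job AE-3: the cone over the Fermat quartic is connected (special case of
`Pool.Agent.TH350.J243.connected_cone`). -/

namespace Pool.Agent.TH144.AE

theorem cone_connected : IsConnected Cone := by
  obtain ⟨ζ, hζ⟩ := IsAlgClosed.exists_pow_nat_eq (-1 : ℂ) (n := 4) (by norm_num)
  have hζ0 : ζ ≠ 0 := by
    rintro rfl
    norm_num at hζ
  have h := Pool.Agent.TH350.J243.connected_cone (A := fun _ => 0) (G := fun _ => 0)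
    continuous_const continuous_const (d := 1) (by simp) (by simp)
    ⟨fun _ => 1, ζ, by
      intro h
      have := congrFun h 0
      simp at this, hζ, by simp⟩
  have hc : Continuous fun p : (Fin 3 → ℂ) × (Fin 3 → ℂ) =>
      (![ζ * p.1 2, p.1 0, p.1 1] : Fin 3 → ℂ) := by
    refine continuous_pi fun i => ?_
    fin_cases i
    · change Continuous fun p : (Fin 3 → ℂ) × (Fin 3 → ℂ) => ζ * p.1 2
      fun_prop
    · change Continuous fun p : (Fin 3 → ℂ) × (Fin 3 → ℂ) => p.1 0
      fun_prop
    · change Continuous fun p : (Fin 3 → ℂ) × (Fin 3 → ℂ) => p.1 1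
      fun_prop
  have h2 := h.image _ hc.continuousOn
  convert h2 using 1
  ext b
  constructor
  · rintro ⟨hb, hb4⟩
    refine ⟨(![b 1, b 2, ζ⁻¹ * b 0], fun _ => 1), ⟨?_, ?_, ?_, ?_⟩, ?_⟩
    · intro h0
      apply hb
      have e0 : b 1 = 0 := congrFun h0 0
      have e1 : b 2 = 0 := congrFun h0 1
      have e2 : ζ⁻¹ * b 0 = 0 := congrFun h0 2
      have e3 : b 0 = 0 := (mul_eq_zero.1 e2).resolve_left (inv_ne_zero hζ0)
      funext i
      fin_cases i
      · exact e3
      · exact e0
      · exact e1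
    · intro h0
      have := congrFun h0 0
      simp at this
    · change b 1 ^ 4 + b 2 ^ 4 + (ζ⁻¹ * b 0) ^ 4 = 0
      have e : (ζ⁻¹) ^ 4 = -1 := by rw [inv_pow, hζ]; norm_num
      rw [mul_pow, e, hb4]
      ring
    · simp
    · funext i
      fin_cases i
      · change ζ * (ζ⁻¹ * b 0) = b 0
        rw [← mul_assoc, mul_inv_cancel₀ hζ0, one_mul]
      · rfl
      · rfl
  · rintro ⟨⟨x, y⟩, ⟨hx, -, hx4, -⟩, rfl⟩
    simp only at hx hx4
    refine ⟨?_, ?_⟩
    · intro h0
      apply hx
      have e0 : ζ * x 2 = 0 := congrFun h0 0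
      have e1 : x 0 = 0 := congrFun h0 1
      have e2 : x 1 = 0 := congrFun h0 2
      have e3 : x 2 = 0 := (mul_eq_zero.1 e0).resolve_left hζ0
      funext i
      fin_cases i
      · exact e1
      · exact e2
      · exact e3
    · change (ζ * x 2) ^ 4 = x 0 ^ 4 + x 1 ^ 4
      rw [mul_pow, hζ]
      linear_combination -hx4

end Pool.Agent.TH144.AE
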