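import Pool.Agent.TH171.EN.Defs

/-!
# Degree bound for representations, Capelli non-vanishing, multilinearity
-/

set_option autoImplicit false

namespace Pool.Agent.TH817.J607

open Matrix
open Pool.Agent.TH171.EN

/-- a product of pairs of matrix units whose entry does not vanish follows a path -/
theorem prod_entry {L : Type} [Field L] {s : ℕ} : ∀ (m : ℕ) (P Q q r : Fin m → Fin s)
    (a b : Fin s),
    ((List.ofFn fun i => (single (P i) (Q i) (1 : L) * single (q i) (r i) (1 : L))).prod) a b ≠ 0 →
    (∀ i, Q i = q i) ∧ (∀ i : Fin m, i.val = 0 → P i = a) ∧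
      (∀ i j : Fin m, j.val = i.val + 1 → P j = r i) := by
  intro m
  induction m with
  | zero =>
    intro P Q q r a b _
    exact ⟨fun i => i.elim0, fun i => i.elim0, fun i => i.elim0⟩
  | succ m ih =>
    intro P Q q r a b h
    rw [List.ofFn_succ, List.prod_cons] at h
    by_cases hQ : Q 0 = q 0
    · rw [hQ, single_mul_single_same, mul_one] at h
      by_cases hP : P 0 = a
      · subst hP
        rw [single_mul_apply_same, one_mul] at h
        obtain ⟨h1, h2, h3⟩ := ih (fun i => P i.succ) (fun i => Q i.succ) (fun i => q i.succ)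
          (fun i => r i.succ) (r 0) b h
        refine ⟨?_, ?_, ?_⟩
        · intro i
          refine Fin.cases hQ (fun i => h1 i) i
        · intro i hi
          have : i = 0 := Fin.ext hi
          rw [this]
        · intro i j hij
          refine Fin.cases (fun hij => ?_) (fun i hij => ?_) i hij
          · have hj : j = (⟨0, by have := j.isLt; simp at hij; omega⟩ : Fin m).succ := by
              apply Fin.ext
              simpa using hij
            rw [hj]
            exact h2 _ rfl
          · have hj : j = (⟨i.val + 1, by have := j.isLt; simp at hij; omega⟩ : Fin m).succ := by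
              apply Fin.ext
              simpa using hij
            rw [hj]
            exact h3 i _ rfl
      · exfalso
        apply h
        rw [single_mul_apply_of_ne]
        exact fun h => hP h.symm
    · exfalso
      apply h
      rw [single_mul_single_of_ne _ _ _ _ hQ, zero_mul]
      rfl

/-- along a path the product of the matrix units is a matrix unit -/
theorem prod_path {L : Type} [Field L] {s : ℕ} : ∀ (m : ℕ) (P q r : Fin (m + 1) → Fin s),
    (∀ i j : Fin (m + 1), j.val = i.val + 1 → P j = r i) →
    (List.ofFn fun i => (single (P i) (q i) (1 : L) * single (q i) (r i) (1 : L))).prod =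
      single (P 0) (r (Fin.last m)) 1 := by
  intro m
  induction m with
  | zero =>
    intro P q r _
    rw [List.ofFn_succ, List.prod_cons, List.ofFn_zero, List.prod_nil, mul_one,
      single_mul_single_same, mul_one]
    rfl
  | succ m ih =>
    intro P q r h
    rw [List.ofFn_succ, List.prod_cons, single_mul_single_same, mul_one]
    rw [ih (fun i => P i.succ) (fun i => q i.succ) (fun i => r i.succ) (by
      intro i j hij
      exact h i.succ j.succ (by simp [hij]))]
    have h1 : P (0 : Fin (m + 1)).succ = r 0 := h 0 _ rfl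
    rw [h1, single_mul_single_same, mul_one]
    rfl

/-- a multilinear identity extends from a spanning set -/
theorem ident_span {R : Type} [Ring R] {d : ℕ} (c : Equiv.Perm (Fin d) → ℤ)
    (hid : Ident R c) {L : Type} [Field L] {s : ℕ} (ρ : R →+* Matrix (Fin s) (Fin s) L)
    (hρ : Submodule.span L (Set.range ρ) = ⊤) (x : Fin d → Matrix (Fin s) (Fin s) L) :
    ∑ σ : Equiv.Perm (Fin d), (c σ) • (List.ofFn (fun i => x (σ i))).prod = 0 := by
  classical
  let F : MultilinearMap L (fun _ : Fin d => Matrix (Fin s) (Fin s) L)
      (Matrix (Fin s) (Fin s) L) :=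
    ∑ σ : Equiv.Perm (Fin d), (c σ) •
      (MultilinearMap.mkPiAlgebraFin L d (Matrix (Fin s) (Fin s) L)).domDomCongr σ
  have hF : ∀ x, F x = ∑ σ : Equiv.Perm (Fin d), (c σ) • (List.ofFn (fun i => x (σ i))).prod := by
    intro x
    simp only [F, _root_.sum_apply, _root_.smul_apply,
      MultilinearMap.domDomCongr_apply, MultilinearMap.mkPiAlgebraFin_apply]
  have hF0 : F = 0 := by
    refine Module.Basis.ext_multilinear (fun _ => Module.Basis.ofSpan hρ.ge) ?_
    intro v
    have h1 : ∀ i, ∃ y : R, ρ y = Module.Basis.ofSpan hρ.ge (v i) := fun i =>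
      Module.Basis.ofSpan_subset hρ.ge ⟨v i, rfl⟩
    choose y hy using h1
    rw [hF]
    simp only [← hy]
    have h2 := congrArg ρ (hid y)
    rw [map_sum, map_zero] at h2
    rw [_root_.zero_apply, ← h2]
    refine Finset.sum_congr rfl fun σ _ => ?_
    rw [map_mul, map_intCast, map_list_prod, List.map_ofFn, zsmul_eq_mul]
    rfl
  rw [← hF, hF0, _root_.zero_apply]

theorem irrep_degree_le {R : Type} [Ring R] {d : ℕ} (c : Equiv.Perm (Fin d) → ℤ) (hc : c 1 = 1)
    (hid : Ident R c) {L : Type} [Field L] {s : ℕ} (ρ : R →+* Matrix (Fin s) (Fin s) L)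
    (hρ : Submodule.span L (Set.range ρ) = ⊤) : s ≤ d := by
  classical
  by_contra hsd
  push Not at hsd
  have h0 := ident_span c hid ρ hρ
    (fun i => single ⟨i.val, by omega⟩ ⟨i.val + 1, by omega⟩ (1 : L))
  cases d with
  | zero =>
    have hs : 0 < s := hsd
    have h1 := congrFun (congrFun h0 ⟨0, hs⟩) ⟨0, hs⟩
    have h2 : (Finset.univ : Finset (Equiv.Perm (Fin 0))) = {1} := by
      ext σ
      simp [Subsingleton.elim σ 1]
    rw [h2, Finset.sum_singleton, hc, one_smul, List.ofFn_zero, List.prod_nil] at h1
    simp at h1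
  | succ d =>
    have key : ∀ σ : Equiv.Perm (Fin (d + 1)),
        (List.ofFn (fun i => single (⟨(σ i).val, by omega⟩ : Fin s) ⟨(σ i).val + 1, by omega⟩
          (1 : L))).prod =
        (List.ofFn (fun i => single (⟨(σ i).val, by omega⟩ : Fin s)
          (⟨(σ i).val + 1, by omega⟩ : Fin s) (1 : L) *
          single (⟨(σ i).val + 1, by omega⟩ : Fin s) (⟨(σ i).val + 1, by omega⟩ : Fin s)
          (1 : L))).prod := by
      intro σ
      simp only [single_mul_single_same, mul_one]
    have h1 := congrFun (congrFun h0 ⟨0, by omega⟩) ⟨d + 1, by omega⟩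
    rw [Matrix.sum_apply] at h1
    rw [Finset.sum_eq_single (1 : Equiv.Perm (Fin (d + 1)))] at h1
    · rw [hc, one_smul] at h1
      have h2 := key 1
      simp only [Equiv.Perm.one_apply] at h2 h1
      rw [h2, prod_path d (fun i => (⟨i.val, by omega⟩ : Fin s))
        (fun i => (⟨i.val + 1, by omega⟩ : Fin s)) (fun i => (⟨i.val + 1, by omega⟩ : Fin s))
        (by
          intro i j hij
          apply Fin.ext
          exact hij)] at h1
      simp at h1
    · intro σ _ hσ
      by_contra hne
      apply hσ
      have h2 : ((List.ofFn (fun i => single (⟨(σ i).val, by omega⟩ : Fin s)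
          (⟨(σ i).val + 1, by omega⟩ : Fin s) (1 : L) *
          single (⟨(σ i).val + 1, by omega⟩ : Fin s) (⟨(σ i).val + 1, by omega⟩ : Fin s)
          (1 : L))).prod) ⟨0, by omega⟩ ⟨d + 1, by omega⟩ ≠ 0 := by
        rw [← key σ]
        intro h3
        apply hne
        rw [Matrix.smul_apply, h3, smul_zero]
      obtain ⟨_, h3, h4⟩ := prod_entry (d + 1) _ _ _ _ _ _ h2
      have h5 : ∀ n : ℕ, ∀ hn : n < d + 1, (σ ⟨n, hn⟩).val = n := by
        intro n
        induction n with
        | zero =>
          intro hn
          have := h3 ⟨0, hn⟩ rfl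
          exact congrArg Fin.val this
        | succ n ih =>
          intro hn
          have := h4 ⟨n, by omega⟩ ⟨n + 1, hn⟩ rfl
          have h6 := congrArg Fin.val this
          simp only at h6
          rw [h6, ih (by omega)]
      ext i
      rw [Equiv.Perm.one_apply]
      exact h5 i.val i.isLt
    · intro h
      exact absurd (Finset.mem_univ _) h

theorem cap_ne_zero {L : Type} [Field L] (s : ℕ) (hs : 0 < s) :
    ∃ (z : Fin (s ^ 2) → Matrix (Fin s) (Fin s) L)
      (y : Fin (s ^ 2 + 1) → Matrix (Fin s) (Fin s) L), cap z y ≠ 0 := by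
  classical
  obtain ⟨m, hm⟩ : ∃ m, s ^ 2 = m + 1 := ⟨s ^ 2 - 1, by
    have : 0 < s ^ 2 := by positivity
    omega⟩
  have φ : Fin (s ^ 2) ≃ Fin s × Fin s := (finCongr (sq s)).trans finProdFinEquiv.symm
  rw [hm] at φ ⊢
  let p : Fin (m + 1) → Fin s := fun i => (φ i).1
  let q : Fin (m + 1) → Fin s := fun i => (φ i).2
  let r : Fin (m + 1) → Fin s := fun i => if h : i.val + 1 < m + 1 then p ⟨i.val + 1, h⟩ else q i
  refine ⟨fun i => single (p i) (q i) 1,
    Fin.cons (single (p 0) (p 0) 1) (fun i => single (q i) (r i) 1), ?_⟩
  intro h0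
  have h1 := congrFun (congrFun h0 (p 0)) (r (Fin.last m))
  unfold cap at h1
  rw [Matrix.sum_apply] at h1
  simp only [Fin.cons_zero, Fin.cons_succ] at h1
  rw [Finset.sum_eq_single (1 : Equiv.Perm (Fin (m + 1)))] at h1
  · simp only [Equiv.Perm.one_apply, Equiv.Perm.sign_one, Units.val_one, one_smul] at h1
    rw [prod_path m p q r (by
      intro i j hij
      have hlt : i.val + 1 < m + 1 := by have := j.isLt; omega
      simp only [r, hlt, dif_pos]
      congr 1
      exact Fin.ext hij)] at h1
    rw [single_mul_single_same] at h1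
    simp at h1
  · intro σ _ hσ
    by_contra hne
    apply hσ
    have h2 : ((List.ofFn fun i => single (p (σ i)) (q (σ i)) (1 : L) *
        single (q i) (r i) (1 : L)).prod) (p 0) (r (Fin.last m)) ≠ 0 := by
      intro h3
      apply hne
      rw [Matrix.smul_apply, single_mul_apply_same, h3, mul_zero, smul_zero]
    obtain ⟨h3, h4, h5⟩ := prod_entry (m + 1) _ _ _ _ _ _ h2
    have h6 : ∀ i, p (σ i) = p i := by
      intro i
      by_cases hi : i.val = 0
      · have h7 := h4 i hi
        rw [h7]
        congr 1
        exact Fin.ext hi.symm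
      · have hlt : (i.val - 1) + 1 < m + 1 := by have := i.isLt; omega
        have h7 := h5 ⟨i.val - 1, by omega⟩ i (by simp only; omega)
        simp only [r, hlt, dif_pos] at h7
        rw [h7]
        congr 1
        apply Fin.ext
        simp only
        omega
    ext i
    rw [Equiv.Perm.one_apply]
    congr 1
    apply φ.injective
    exact Prod.ext (h6 i) (h3 i)
  · intro h
    exact absurd (Finset.mem_univ _) h

/-- a multilinear map (over the integers) with values in a subgroup on generators has values in
the subgroup on the generated subgroups -/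
theorem multilin_closure {A B ι : Type} [AddCommGroup A] [AddCommGroup B] [Fintype ι]
    [DecidableEq ι] (F : MultilinearMap ℤ (fun _ : ι => A) B) (G : AddSubgroup B)
    (X : ι → Set A) (h : ∀ v : ι → A, (∀ i, v i ∈ X i) → F v ∈ G) :
    ∀ v : ι → A, (∀ i, v i ∈ AddSubgroup.closure (X i)) → F v ∈ G := by
  have key : ∀ S : Finset ι, ∀ v : ι → A, (∀ i ∈ S, v i ∈ AddSubgroup.closure (X i)) →
      (∀ i ∉ S, v i ∈ X i) → F v ∈ G := by
    intro S
    induction S using Finset.induction_on with
    | empty => exact fun v _ hv => h v (fun i => hv i (Finset.notMem_empty i))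
    | insert j S hj ih =>
      intro v h1 h2
      have h3 : ∀ a ∈ AddSubgroup.closure (X j), F (Function.update v j a) ∈ G := by
        intro a ha
        induction ha using AddSubgroup.closure_induction with
        | mem x hx =>
          apply ih
          · intro i hi
            have hij : i ≠ j := fun h => hj (h ▸ hi)
            rw [Function.update_of_ne hij]
            exact h1 i (Finset.mem_insert_of_mem hi)
          · intro i hi
            by_cases hij : i = j
            · subst hij
              rw [Function.update_self]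
              exact hx
            · rw [Function.update_of_ne hij]
              exact h2 i (by simp [hij, hi])
        | zero =>
          rw [MultilinearMap.map_update_zero]
          exact zero_mem _
        | add x y _ _ hx hy =>
          rw [MultilinearMap.map_update_add]
          exact add_mem hx hy
        | neg x _ hx =>
          rw [MultilinearMap.map_update_neg]
          exact neg_mem hx
      have h4 := h3 (v j) (h1 j (Finset.mem_insert_self j S))
      rwa [Function.update_eq_self] at h4
  intro v hv
  exact key Finset.univ v (fun i _ => hv i) (fun i hi => absurd (Finset.mem_univ i) hi)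

/-- the Capelli expression as a multilinear map in the first variables -/
theorem cap_lin_z {A : Type} [Ring A] {k : ℕ} (y : Fin (k + 1) → A) :
    ∃ F : MultilinearMap ℤ (fun _ : Fin k => A) A, ∀ z, F z = cap z y := by
  refine ⟨∑ σ : Equiv.Perm (Fin k), (Equiv.Perm.sign σ : ℤ) •
    ((LinearMap.mulLeft ℤ (y 0)).compMultilinearMap
      ((MultilinearMap.mkPiAlgebraFin ℤ k A).compLinearMap
        (fun i => LinearMap.mulRight ℤ (y i.succ)))).domDomCongr σ, fun z => ?_⟩
  simp only [_root_.sum_apply, _root_.smul_apply, MultilinearMap.domDomCongr_apply,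
    LinearMap.compMultilinearMap_apply, MultilinearMap.compLinearMap_apply,
    MultilinearMap.mkPiAlgebraFin_apply, LinearMap.mulLeft_apply, LinearMap.mulRight_apply]
  rfl

/-- the Capelli expression as a multilinear map in the second variables -/
theorem cap_lin_y {A : Type} [Ring A] {k : ℕ} (z : Fin k → A) :
    ∃ F : MultilinearMap ℤ (fun _ : Fin (k + 1) => A) A, ∀ y, F y = cap z y := by
  refine ⟨∑ σ : Equiv.Perm (Fin k), (Equiv.Perm.sign σ : ℤ) •
    ((MultilinearMap.mkPiAlgebraFin ℤ (k + 1) A).compLinearMap
        (Fin.cons LinearMap.id (fun i => LinearMap.mulLeft ℤ (z (σ i))))), fun y => ?_⟩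
  simp only [_root_.sum_apply, _root_.smul_apply, MultilinearMap.compLinearMap_apply,
    MultilinearMap.mkPiAlgebraFin_apply, List.ofFn_succ, Fin.cons_zero, Fin.cons_succ,
    LinearMap.id_apply, LinearMap.mulLeft_apply, List.prod_cons]
  rfl

theorem cap_mem_closure {A : Type} [Ring A] {k : ℕ} (G : AddSubgroup A)
    (X : Fin k → Set A) (Y : Fin (k + 1) → Set A)
    (h : ∀ z y, (∀ i, z i ∈ X i) → (∀ i, y i ∈ Y i) → cap z y ∈ G)
    (z : Fin k → A) (y : Fin (k + 1) → A) (hz : ∀ i, z i ∈ AddSubgroup.closure (X i))
    (hy : ∀ i, y i ∈ AddSubgroup.closure (Y i)) : cap z y ∈ G := by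
  classical
  obtain ⟨F, hF⟩ := cap_lin_y z
  rw [← hF]
  refine multilin_closure F G Y ?_ y hy
  intro y' hy'
  rw [hF]
  obtain ⟨F', hF'⟩ := cap_lin_z y'
  rw [← hF']
  refine multilin_closure F' G X ?_ z hz
  intro z' hz'
  rw [hF']
  exact h z' y' hz' hy'

end Pool.Agent.TH817.J607
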