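import Pool.Agent.H433R3.Sep13
import Pool.Agent.H433R3.Sep14

set_option autoImplicit false
set_option linter.unusedSectionVars false
set_option linter.unusedVariables false

open MeasureTheory
open scoped ENNReal NNReal
open Pool.Agent.H433R3.Sep

namespace Pool.Agent.TH817.J599

/-- splitting of a Carleson family into halving families -/
theorem carlSplit {α : Type*} [MeasurableSpace α] (vol : Measure α) (Λ : ℕ) (hΛ : 0 < Λ)
    (S : Finset (Set α)) (hS : SLam S)
    (hcarl : ∀ Q ∈ S, ∀ G ⊆ S, (∀ A ∈ G, A ⊆ Q) → ∑ A ∈ G, vol A ≤ Λ * vol Q) :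
    ∃ Sr : ℕ → Finset (Set α), (∀ r, Sr r ⊆ S) ∧
      (∀ r, ∀ Q ∈ Sr r, 256 * vol (⋃ A ∈ {A ∈ (Sr r : Set (Set α)) | A ⊂ Q}, A) ≤ vol Q) ∧
      ∀ F : Set α → ℝ≥0∞, ∑ Q ∈ S, F Q = ∑ r ∈ Finset.range (256 * Λ), ∑ Q ∈ Sr r, F Q := by
  classical
  set N := 256 * Λ with hN
  have hN0 : 0 < N := by omega
  set gen : Set α → ℕ := fun Q => (S.filter (fun A => Q ⊂ A)).card with hgen
  set Sr : ℕ → Finset (Set α) := fun r => S.filter (fun Q => gen Q % N = r) with hSr
  have hSrS : ∀ r, Sr r ⊆ S := fun r => Finset.filter_subset _ _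
  refine ⟨Sr, hSrS, ?_, ?_⟩
  · intro r Q hQ
    have hQS := hSrS r hQ
    have hQr : gen Q % N = r := (Finset.mem_filter.1 hQ).2
    set U := ⋃ A ∈ {A ∈ (Sr r : Set (Set α)) | A ⊂ Q}, A with hU
    have hUm : MeasurableSet U := by
      apply Set.Finite.measurableSet_biUnion
      · exact (Sr r).finite_toSet.subset (fun A hA => hA.1)
      · intro A hA
        exact hS.1 A (hSrS r hA.1)
    have hcount : ∀ y ∈ U, (N : ℝ≥0∞) ≤ ∑ B ∈ S with B ⊆ Q, B.indicator (fun _ => (1:ℝ≥0∞)) y := by
      intro y hy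
      obtain ⟨A, hA, hyA⟩ := Set.mem_iUnion₂.1 hy
      have hAS := hSrS r hA.1
      have hAr : gen A % N = r := (Finset.mem_filter.1 hA.1).2
      have hAQ : A ⊂ Q := hA.2
      have h1 : gen Q < gen A := by
        apply Finset.card_lt_card
        rw [Finset.ssubset_iff_of_subset]
        · exact ⟨Q, Finset.mem_filter.2 ⟨hQS, hAQ⟩, fun hc => (Finset.mem_filter.1 hc).2.2 subset_rfl⟩
        · intro B hB
          have hB' := Finset.mem_filter.1 hB
          exact Finset.mem_filter.2 ⟨hB'.1, hAQ.trans hB'.2⟩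
      have h2 : gen Q + N ≤ gen A := by
        have e1 := Nat.div_add_mod (gen Q) N
        have e2 := Nat.div_add_mod (gen A) N
        rw [hQr] at e1
        rw [hAr] at e2
        have e3 : gen Q / N < gen A / N := by
          by_contra hcon
          push Not at hcon
          have := Nat.mul_le_mul_left N hcon
          omega
        have := Nat.mul_le_mul_left N (Nat.succ_le_of_lt e3)
        rw [Nat.mul_succ] at this
        omega
      have h3 : N ≤ (S.filter (fun B => A ⊂ B ∧ B ⊆ Q)).card := by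
        have h4 : S.filter (fun B => A ⊂ B) ⊆ (S.filter (fun B => A ⊂ B ∧ B ⊆ Q)) ∪
            (S.filter (fun B => Q ⊂ B)) := by
          intro B hB
          have hB' := Finset.mem_filter.1 hB
          rw [Finset.mem_union, Finset.mem_filter, Finset.mem_filter]
          rcases hS.comp hB'.1 hQS (hB'.2.1 hyA) (hAQ.1 hyA) with h | h
          · exact Or.inl ⟨hB'.1, hB'.2, h⟩
          · exact Or.inr ⟨hB'.1, h⟩
        have h5 := Finset.card_le_card h4
        have h6 := Finset.card_union_le (S.filter (fun B => A ⊂ B ∧ B ⊆ Q))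
          (S.filter (fun B => Q ⊂ B))
        simp only [hgen] at h2
        omega
      have h5 : (((S.filter (fun B => A ⊂ B ∧ B ⊆ Q)).card : ℕ) : ℝ≥0∞) ≤
          ∑ B ∈ S with B ⊆ Q, B.indicator (fun _ => (1:ℝ≥0∞)) y := by
        have h6 : (((S.filter (fun B => A ⊂ B ∧ B ⊆ Q)).card : ℕ) : ℝ≥0∞) =
            ∑ B ∈ S with A ⊂ B ∧ B ⊆ Q, B.indicator (fun _ => (1:ℝ≥0∞)) y := by
          rw [Finset.card_eq_sum_ones]
          push_cast
          apply Finset.sum_congr rfl
          intro B hB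
          have hB' := Finset.mem_filter.1 hB
          rw [Set.indicator_of_mem (hB'.2.1.1 hyA)]
        rw [h6]
        apply Finset.sum_le_sum_of_subset_of_nonneg
        · intro B hB
          have hB' := Finset.mem_filter.1 hB
          exact Finset.mem_filter.2 ⟨hB'.1, hB'.2.2⟩
        · intro _ _ _; exact bot_le
      refine le_trans ?_ h5
      exact_mod_cast h3
    have h1 : (N : ℝ≥0∞) * vol U ≤ Λ * vol Q := by
      calc (N : ℝ≥0∞) * vol U = ∫⁻ y in U, (N : ℝ≥0∞) ∂vol := by
            rw [lintegral_const, Measure.restrict_apply MeasurableSet.univ, Set.univ_inter]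
        _ ≤ ∫⁻ y in U, ∑ B ∈ S with B ⊆ Q, B.indicator (fun _ => (1:ℝ≥0∞)) y ∂vol :=
            setLIntegral_mono' hUm hcount
        _ ≤ ∫⁻ y, ∑ B ∈ S with B ⊆ Q, B.indicator (fun _ => (1:ℝ≥0∞)) y ∂vol :=
            setLIntegral_le_lintegral _ _
        _ = ∑ B ∈ S with B ⊆ Q, vol B := by
            rw [lintegral_finsetSum]
            · apply Finset.sum_congr rfl
              intro B hB
              rw [lintegral_indicator (hS.1 B (Finset.mem_filter.1 hB).1), lintegral_const,
                Measure.restrict_apply MeasurableSet.univ, Set.univ_inter, one_mul]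
            · intro B hB
              exact measurable_const.indicator (hS.1 B (Finset.mem_filter.1 hB).1)
        _ ≤ Λ * vol Q := hcarl Q hQS _ (Finset.filter_subset _ _)
            (fun A hA => (Finset.mem_filter.1 hA).2)
    have h2 : (Λ : ℝ≥0∞) * (256 * vol U) ≤ Λ * vol Q := by
      refine le_trans (le_of_eq ?_) h1
      rw [hN]; push_cast; ring
    exact (ENNReal.mul_le_mul_iff_right (by exact_mod_cast hΛ.ne') (by simp)).1 h2
  · intro F
    rw [← Finset.sum_fiberwise_of_maps_to (s := S) (t := Finset.range N) (g := fun Q => gen Q % N)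
      (fun Q _ => Finset.mem_range.2 (Nat.mod_lt _ hN0))]

theorem sparseSplit {d : ℕ} (hd : 0 < d) (a : ℝ) (ha : 1 ≤ a) : ∃ (N : ℕ) (C : ℝ≥0),
    ∀ (t₀ : Fin d → Bool) (F : Finset (Idx d)) (E : Idx d → Set (Fin d → ℝ)),
      (∀ I ∈ F, MeasurableSet (E I)) → (∀ I ∈ F, E I ⊆ gq t₀ I) →
      (∀ I ∈ F, volume (gq t₀ I) ≤ 2 * volume (E I)) →
      (∀ I ∈ F, ∀ J ∈ F, I ≠ J → Disjoint (E I) (E J)) →
    ∃ (tt : Fin N → (Fin d → Bool)) (SS : Fin N → Finset (Idx d)),
      (∀ j, ∀ I ∈ SS j, 2 * volume (⋃ J ∈ {J ∈ (SS j : Set (Idx d)) |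
        gq (tt j) J ⊂ gq (tt j) I}, gq (tt j) J) ≤ volume (gq (tt j) I)) ∧
      ∀ (g : (Fin d → ℝ) → ℝ≥0∞), Measurable g → ∀ x,
        ∑ I ∈ F, (gq t₀ I).indicator (fun _ => (∫⁻ z in dil a t₀ I, g z) / volume (dil a t₀ I)) x ≤
        C * ∑ j, ∑ I ∈ SS j, (gq (tt j) I).indicator
          (fun _ => (∫⁻ z in gq (tt j) I, g z) / volume (gq (tt j) I)) x := by
  classical
  obtain ⟨s, hs⟩ := pow_unbounded_of_one_lt (3 * a) (by norm_num : (1:ℝ) < 2)
  set M₀ : ℕ := 2 ^ (s * d + 1) with hM₀
  have hM₀pos : 0 < M₀ := by positivity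
  set q : ℕ := 2 ^ (s * d) with hq
  refine ⟨Fintype.card ((Fin d → Bool) × Fin (256 * M₀)), q * M₀, ?_⟩
  intro t₀ F E hEm hEsub hEv hEdis
  -- parents
  have hpar : ∀ I : Idx d, ∃ (t : Fin d → Bool) (n : Fin d → ℤ),
      dil a t₀ I ⊆ gq t (I.1 + s, n) := by
    intro I
    have h2 : (0:ℝ) < 2 ^ I.1 := by positivity
    apply third_pi _ _ _ (by positivity)
    rw [zpow_add₀ (by norm_num), zpow_natCast]
    nlinarith
  choose tt nn hpar using hpar
  set J : Idx d → Idx d := fun I => (I.1 + s, nn I) with hJ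
  have hJvol : ∀ I, volume (gq (tt I) (J I)) = q * volume (gq t₀ I) := by
    intro I
    rw [gq_vol, gq_vol]
    simp only [hJ]
    rw [zpow_add₀ (by norm_num), ENNReal.ofReal_mul (by positivity), mul_pow, mul_comm]
    congr 1
    rw [zpow_natCast, ENNReal.ofReal_pow (by norm_num), hq, ← pow_mul]
    push_cast
    norm_num
  have hsub : ∀ I, gq t₀ I ⊆ gq (tt I) (J I) := fun I => (gq_sub_dil ha t₀ I).trans (hpar I)
  set Ft : (Fin d → Bool) → Finset (Idx d) := fun t => F.filter (fun I => tt I = t) with hFt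
  have hFtF : ∀ t, Ft t ⊆ F := fun t => Finset.filter_subset _ _
  set St : (Fin d → Bool) → Finset (Set (Fin d → ℝ)) :=
    fun t => (Ft t).image (fun I => gq t (J I)) with hSt
  have hSgq : ∀ t, ∀ A ∈ St t, ∃ I ∈ Ft t, gq t (J I) = A := fun t A hA => Finset.mem_image.1 hA
  -- cardinality of fibers
  have hcard : ∀ t, ∀ A ∈ St t, ((Ft t).filter (fun I => gq t (J I) = A)).card ≤ M₀ := by
    intro t A hA
    obtain ⟨I₀, hI₀, hA₀⟩ := Finset.mem_image.1 hA
    set G := (Ft t).filter (fun I => gq t (J I) = A) with hG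
    have hGF : ∀ I ∈ G, I ∈ F ∧ tt I = t ∧ gq t (J I) = A := by
      intro I hI
      have h3 := Finset.mem_filter.1 hI
      have h4 := Finset.mem_filter.1 h3.1
      exact ⟨h4.1, h4.2, h3.2⟩
    have h1 : ∑ I ∈ G, volume (E I) ≤ volume A := by
      rw [← measure_biUnion_finset (fun I hI J hJ hIJ => hEdis I (hGF I hI).1 J (hGF J hJ).1 hIJ)
        (fun I hI => hEm I (hGF I hI).1)]
      apply measure_mono
      apply Set.iUnion₂_subset
      intro I hI
      obtain ⟨h3, h4, h5⟩ := hGF I hI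
      rw [← h5, ← h4]
      exact (hEsub I h3).trans (hsub I)
    have h2 : ∀ I ∈ G, volume A ≤ M₀ * volume (E I) := by
      intro I hI
      obtain ⟨h3, h4, h5⟩ := hGF I hI
      rw [← h5, ← h4, hJvol]
      calc (q : ℝ≥0∞) * volume (gq t₀ I) ≤ q * (2 * volume (E I)) := mul_le_mul' le_rfl (hEv I h3)
        _ = M₀ * volume (E I) := by
            rw [hM₀, hq]; push_cast; ring
    have h3 : (G.card : ℝ≥0∞) * volume A ≤ M₀ * volume A := by
      calc (G.card : ℝ≥0∞) * volume A = ∑ I ∈ G, volume A := by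
            rw [Finset.sum_const, nsmul_eq_mul]
        _ ≤ ∑ I ∈ G, M₀ * volume (E I) := Finset.sum_le_sum h2
        _ = M₀ * ∑ I ∈ G, volume (E I) := by rw [Finset.mul_sum]
        _ ≤ _ := mul_le_mul' le_rfl h1
    have hAv : 0 < volume A ∧ volume A < ∞ := by rw [← hA₀]; exact gq_vol_pos _ _
    have h4 := (ENNReal.mul_le_mul_iff_left hAv.1.ne' hAv.2.ne).1 h3
    exact_mod_cast h4
  -- the families are laminar and Carleson
  have hlam : ∀ t, SLam (St t) := by
    intro t
    refine ⟨?_, ?_, ?_⟩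
    · intro A hA
      obtain ⟨I, _, rfl⟩ := hSgq t A hA
      exact gq_meas _ _
    · intro A hA
      obtain ⟨I, _, rfl⟩ := hSgq t A hA
      exact gq_nonempty _ _
    · intro A hA B hB
      obtain ⟨I, _, rfl⟩ := hSgq t A hA
      obtain ⟨I', _, rfl⟩ := hSgq t B hB
      exact gq_lam _ _ _
  have hcarl : ∀ t, ∀ Q ∈ St t, ∀ G ⊆ St t, (∀ A ∈ G, A ⊆ Q) →
      ∑ A ∈ G, volume A ≤ M₀ * volume Q := by
    intro t Q hQ G hG hGQ
    set G' := (Ft t).filter (fun I => gq t (J I) ∈ G) with hG'
    have h1 : G = G'.image (fun I => gq t (J I)) := by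
      ext A
      rw [Finset.mem_image]
      constructor
      · intro hA
        obtain ⟨I, hI, hIA⟩ := hSgq t A (hG hA)
        exact ⟨I, Finset.mem_filter.2 ⟨hI, by rw [hIA]; exact hA⟩, hIA⟩
      · rintro ⟨I, hI, rfl⟩
        exact (Finset.mem_filter.1 hI).2
    have h2 : ∑ A ∈ G, volume A ≤ ∑ I ∈ G', volume (gq t (J I)) := by
      rw [Finset.sum_comp (fun A => volume A) (fun I => gq t (J I)), ← h1]
      apply Finset.sum_le_sum
      intro A hA
      rw [nsmul_eq_mul]
      have h3 : 1 ≤ (G'.filter (fun I => gq t (J I) = A)).card := by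
        rw [h1] at hA
        obtain ⟨I, hI, hIA⟩ := Finset.mem_image.1 hA
        exact Finset.card_pos.2 ⟨I, Finset.mem_filter.2 ⟨hI, hIA⟩⟩
      calc volume A = 1 * volume A := by rw [one_mul]
        _ ≤ _ := mul_le_mul' (by exact_mod_cast h3) le_rfl
    have hG'F : ∀ I ∈ G', I ∈ F ∧ tt I = t ∧ gq t (J I) ∈ G := by
      intro I hI
      have h3 := Finset.mem_filter.1 hI
      have h4 := Finset.mem_filter.1 h3.1
      exact ⟨h4.1, h4.2, h3.2⟩
    calc ∑ A ∈ G, volume A ≤ ∑ I ∈ G', volume (gq t (J I)) := h2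
      _ ≤ ∑ I ∈ G', M₀ * volume (E I) := by
          apply Finset.sum_le_sum
          intro I hI
          obtain ⟨h3, h4, h5⟩ := hG'F I hI
          rw [← h4, hJvol]
          calc (q : ℝ≥0∞) * volume (gq t₀ I) ≤ q * (2 * volume (E I)) :=
                mul_le_mul' le_rfl (hEv I h3)
            _ = M₀ * volume (E I) := by
                rw [hM₀, hq]; push_cast; ring
      _ = M₀ * ∑ I ∈ G', volume (E I) := by rw [Finset.mul_sum]
      _ ≤ M₀ * volume Q := by
          apply mul_le_mul' le_rfl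
          rw [← measure_biUnion_finset (fun I hI J hJ hIJ =>
            hEdis I (hG'F I hI).1 J (hG'F J hJ).1 hIJ) (fun I hI => hEm I (hG'F I hI).1)]
          apply measure_mono
          apply Set.iUnion₂_subset
          intro I hI
          obtain ⟨h3, h4, h5⟩ := hG'F I hI
          refine ((hEsub I h3).trans (hsub I)).trans ?_
          rw [h4]
          exact hGQ _ h5
  have hsplit := fun t => carlSplit volume M₀ hM₀pos (St t) (hlam t) (hcarl t)
  choose Sr hSrS hSrh hSrsum using hsplit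
  -- index families
  set SI : (Fin d → Bool) → Finset (Idx d) := fun t => (Ft t).image J with hSI
  set SSt : (Fin d → Bool) → ℕ → Finset (Idx d) :=
    fun t r => (SI t).filter (fun I => gq t I ∈ Sr t r) with hSSt
  have himg : ∀ t r, Sr t r = (SSt t r).image (gq t) := by
    intro t r
    ext A
    rw [Finset.mem_image]
    constructor
    · intro hA
      obtain ⟨I, hI, hIA⟩ := hSgq t A (hSrS t r hA)
      exact ⟨J I, Finset.mem_filter.2 ⟨Finset.mem_image_of_mem J hI, by rw [hIA]; exact hA⟩, hIA⟩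
    · rintro ⟨I, hI, rfl⟩
      exact (Finset.mem_filter.1 hI).2
  set e := Fintype.equivFin ((Fin d → Bool) × Fin (256 * M₀)) with he
  refine ⟨fun j => (e.symm j).1, fun j => SSt (e.symm j).1 (e.symm j).2, ?_, ?_⟩
  · intro j I hI
    set t := (e.symm j).1 with ht
    set r := ((e.symm j).2 : ℕ) with hr
    have h1 : gq t I ∈ Sr t r := (Finset.mem_filter.1 hI).2
    refine le_trans ?_ (hSrh t r _ h1)
    refine mul_le_mul' (by norm_num) (measure_mono ?_)
    intro x hx
    obtain ⟨K, hK, hxK⟩ := Set.mem_iUnion₂.1 hx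
    exact Set.mem_iUnion₂.2 ⟨gq t K, ⟨(Finset.mem_filter.1 (Finset.mem_coe.1 hK.1)).2, hK.2⟩, hxK⟩
  · intro g hg y
    -- pointwise bound of a single term
    have hterm : ∀ I, (gq t₀ I).indicator (fun _ => (∫⁻ z in dil a t₀ I, g z) /
          volume (dil a t₀ I)) y ≤ q * ai g volume (gq (tt I) (J I)) y := by
      intro I
      by_cases hy : y ∈ gq t₀ I
      · rw [Set.indicator_of_mem hy]
        unfold ai
        rw [Set.indicator_of_mem (hsub I hy)]
        have e1 : volume (gq t₀ I) ≤ volume (dil a t₀ I) := measure_mono (gq_sub_dil ha t₀ I)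
        have hqpos : (q : ℝ≥0∞) ≠ 0 := by
          have : q ≠ 0 := by positivity
          exact_mod_cast this
        calc (∫⁻ z in dil a t₀ I, g z) / volume (dil a t₀ I)
            ≤ (∫⁻ z in gq (tt I) (J I), g z) / volume (gq t₀ I) :=
              ENNReal.div_le_div (lintegral_mono_set (hpar I)) e1
          _ = q * ((∫⁻ z in gq (tt I) (J I), g z) / volume (gq (tt I) (J I))) := by
              rw [hJvol, ← mul_div_assoc, ENNReal.mul_div_mul_left _ _ hqpos (by simp)]
      · rw [Set.indicator_of_notMem hy]; exact bot_le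
    have hpt : ∑ I ∈ F, (gq t₀ I).indicator (fun _ => (∫⁻ z in dil a t₀ I, g z) /
          volume (dil a t₀ I)) y ≤ (q * M₀) * ∑ t : Fin d → Bool, ∑ A ∈ St t, ai g volume A y := by
      calc ∑ I ∈ F, (gq t₀ I).indicator (fun _ => (∫⁻ z in dil a t₀ I, g z) /
          volume (dil a t₀ I)) y ≤ ∑ I ∈ F, q * ai g volume (gq (tt I) (J I)) y :=
            Finset.sum_le_sum (fun I _ => hterm I)
        _ = q * ∑ t : Fin d → Bool, ∑ I ∈ Ft t, ai g volume (gq t (J I)) y := by
            rw [← Finset.mul_sum]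
            congr 1
            rw [← Finset.sum_fiberwise_of_maps_to (s := F) (t := Finset.univ) (g := tt)
              (fun _ _ => Finset.mem_univ _)]
            apply Finset.sum_congr rfl
            intro t _
            apply Finset.sum_congr rfl
            intro I hI
            rw [(Finset.mem_filter.1 hI).2]
        _ ≤ q * ∑ t : Fin d → Bool, M₀ * ∑ A ∈ St t, ai g volume A y := by
            apply mul_le_mul' le_rfl
            apply Finset.sum_le_sum
            intro t _
            rw [Finset.sum_comp (fun A => ai g volume A y) (fun I => gq t (J I)), Finset.mul_sum]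
            apply Finset.sum_le_sum
            intro A hA
            rw [nsmul_eq_mul]
            apply mul_le_mul' _ le_rfl
            exact_mod_cast hcard t A hA
        _ = _ := by rw [← Finset.mul_sum]; ring
    refine hpt.trans (le_of_eq ?_)
    push_cast
    congr 1
    have h1 : ∀ t, ∑ A ∈ St t, ai g volume A y =
        ∑ r : Fin (256 * M₀), ∑ I ∈ SSt t r, ai g volume (gq t I) y := by
      intro t
      rw [hSrsum t (fun A => ai g volume A y), Finset.sum_range]
      apply Finset.sum_congr rfl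
      intro r _
      rw [himg t r, Finset.sum_image]
      · intro I _ K _ hIK
        exact gq_inj hd t hIK
    simp only [h1]
    rw [← Fintype.sum_prod_type' (f := fun (t : Fin d → Bool) (r : Fin (256 * M₀)) =>
      ∑ I ∈ SSt t r, ai g volume (gq t I) y)]
    rw [← Equiv.sum_comp e.symm]
    rfl

end Pool.Agent.TH817.J599
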