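import Pool.Agent.TH547.Arc.Enc
import Pool.Agent.TH286.J834
import Pool.Agent.TH817.J872

set_option autoImplicit false

/-! Job 985: enclosing a puncture by a loop. -/

namespace Pool.Agent.TH817.J985

open Pool.Agent.TH547.Arc
open Finset Equiv
open Pool.Agent.TH286.J834 (rw_ext mem_dl dl_R dl_χ_pos dl_χ_neg dl_S_pos dl_S_neg χM_pos χM_neg
  M_false dl_not_mem)

/-! ### words -/

section words

variable {X : PW} {m0 : Sy} {b : ℕ}

theorem insP_dl_self (hm : m0 ∈ X.x) (hb : b ∉ X.ord) : (insP m0 m0 b X).dl b = X := by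
  apply PW.ext
  show ((insP m0 m0 b X).x).filter (offA b) = X.x
  rw [insP_x hm hm (Or.inl rfl) hb]
  unfold ins2
  rw [insB_filter_neg _ _ (by simp [offA]), insB_filter_neg _ _ (by simp [offA])]
  have := congrArg PW.x (PW.dl_not_mem X b hb)
  exact this

theorem insP_dl (hm : m0 ∈ X.x) (hb : b ∉ X.ord) {a : ℕ} (hab : a ≠ b)
    (ham : offA a m0 = true) : (insP m0 m0 b X).dl a = insP m0 m0 b (X.dl a) := by
  apply PW.ext
  have hm' : m0 ∈ (X.dl a).x := mem_dl.2 ⟨hm, ham⟩
  have hb' : b ∉ (X.dl a).ord := by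
    rw [PW.ord_dl]
    exact fun h => hb (List.mem_of_mem_erase h)
  show ((insP m0 m0 b X).x).filter (offA a) = _
  rw [insP_x hm hm (Or.inl rfl) hb, insP_x hm' hm' (Or.inl rfl) hb']
  unfold ins2
  have h0 : ∀ e, offA a (en b e) = true := fun e => (offA_en a b e).2 hab.symm
  rw [insB_filter_pos _ _ ham (h0 true), insB_filter_pos _ _ ham (h0 false)]
  rfl

theorem insP_rn (hm : m0 ∈ X.x) (hb : b ∉ X.ord) {π : Perm ℕ} (hπ : rnS π m0 = m0) :
    (insP m0 m0 b X).rn π = insP m0 m0 (π b) (X.rn π) := by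
  apply PW.ext
  have hm' : m0 ∈ (X.rn π).x := List.mem_map.2 ⟨m0, hm, hπ⟩
  have hb' : π b ∉ (X.rn π).ord := by
    rw [PW.ord_rn, List.mem_map]
    rintro ⟨c, hc, h⟩
    rw [π.injective h] at hc
    exact hb hc
  show ((insP m0 m0 b X).x).map (rnS π) = _
  rw [insP_x hm hm (Or.inl rfl) hb, insP_x hm' hm' (Or.inl rfl) hb']
  unfold ins2
  rw [insB_map _ (rnS π).injective, insB_map _ (rnS π).injective, hπ]
  rfl

theorem insB_last (t s : Sy) (l : List Sy) (u : Sy) : ∃ l', insB t s (l ++ [u]) = l' ++ [u] := by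
  rw [insB_append]
  by_cases h : u = t
  · subst h
    refine ⟨insB u s l ++ [s], ?_⟩
    rw [insB_cons_self]
    simp [insB]
  · refine ⟨insB t s l, ?_⟩
    rw [insB_cons_ne _ _ h]
    simp [insB]

end words

/-! ### cycles -/

section cycles

variable {α : Type} [DecidableEq α]

omit [DecidableEq α] in
theorem mem_im' {β : Type} {inst : DecidableEq β} {s : Finset α} {f : α → β} {b : β} :
    b ∈ @Finset.image α β inst f s ↔ ∃ a ∈ s, f a = b := Finset.mem_image

omit [DecidableEq α] in
theorem mem_fl' {p : α → Prop} {inst : DecidablePred p} {s : Finset α} {a : α} :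
    a ∈ @Finset.filter α p inst s ↔ a ∈ s ∧ p a := Finset.mem_filter

theorem ncy_eq' (σ : Perm α) (B : Finset α) [DecidableRel σ.SameCycle] :
    ncy σ B = (B.image (fun s => B.filter (fun t => σ.SameCycle s t))).card := by
  unfold ncy
  congr 1
  ext X
  rw [mem_im', mem_im']
  constructor
  · rintro ⟨s, hs, rfl⟩
    exact ⟨s, hs, by ext t; rw [mem_fl', mem_fl']⟩
  · rintro ⟨s, hs, rfl⟩
    exact ⟨s, hs, by ext t; rw [mem_fl', mem_fl']⟩

open Classical in
theorem ncy_congr {σ τ : Perm α} {A : Finset α}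
    (h : ∀ s ∈ A, ∀ t ∈ A, σ.SameCycle s t ↔ τ.SameCycle s t) : ncy σ A = ncy τ A := by
  rw [ncy_eq' σ A, ncy_eq' τ A]
  congr 1
  apply Finset.image_congr
  intro s hs
  apply Finset.filter_congr
  intro t ht
  exact h s hs t ht

theorem sc_fixed {σ : Perm α} {b t : α} (hb : σ b = b) (h : σ.SameCycle b t) : t = b := by
  obtain ⟨n, rfl⟩ := h
  exact Perm.zpow_apply_eq_self_of_apply_eq_self hb n

open Classical in
theorem ncy_insert_fixed {σ : Perm α} {b : α} {C : Finset α} (hb : σ b = b) (hC : b ∉ C) :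
    ncy σ (insert b C) = ncy σ C + 1 := by
  rw [ncy_eq' σ (insert b C), ncy_eq' σ C, Finset.image_insert]
  have h1 : (insert b C).filter (fun t => σ.SameCycle b t) = {b} := by
    ext t
    simp only [Finset.mem_filter, Finset.mem_insert, Finset.mem_singleton]
    constructor
    · rintro ⟨_, h⟩
      exact sc_fixed hb h
    · rintro rfl
      exact ⟨Or.inl rfl, Perm.SameCycle.refl _ _⟩
  have h2 : C.image (fun s => (insert b C).filter (fun t => σ.SameCycle s t)) =
      C.image (fun s => C.filter (fun t => σ.SameCycle s t)) := by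
    apply Finset.image_congr
    intro s hs
    have hsC : s ∈ C := hs
    simp only
    rw [Finset.filter_insert, if_neg]
    intro h
    have := sc_fixed hb h.symm
    rw [this] at hsC
    exact hC hsC
  rw [h1, h2, Finset.card_insert_of_notMem]
  intro h
  obtain ⟨s, _, hs⟩ := Finset.mem_image.1 h
  have : b ∈ C.filter (fun t => σ.SameCycle s t) := by rw [hs]; exact Finset.mem_singleton_self b
  exact hC (Finset.mem_filter.1 this).1

end cycles

section
variable {θ : Perm Sy} {X : RW} {m0 : Sy} {j b : ℕ} (hm : m0 ∈ X.w.x) (hb : b ∉ X.w.ord)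

include hb in
theorem x_ne {s : Sy} (hs : s ∈ X.w.x) (e : Bool) : s ≠ en b e := by
  rintro rfl
  exact hb ((PW.mem_ord' e).2 hs)

include hm hb

theorem enc_w : (enc m0 j b X).w = insP m0 m0 b X.w := by
  unfold enc
  rw [dif_pos ⟨hm, hb⟩]

theorem enc_R (s t : Sy) : (enc m0 j b X).R s t ↔ (s = en b true ∧ t = en b true) ∨
    (s ≠ en b true ∧ t ≠ en b true ∧ X.R (gE m0 b s) (gE m0 b t)) := by
  unfold enc
  rw [dif_pos ⟨hm, hb⟩]

open Classical in
theorem enc_χ (s : Sy) : (enc m0 j b X).χ s = if s = en b true then 1 else X.χ (gE m0 b s) := by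
  unfold enc
  rw [dif_pos ⟨hm, hb⟩]

open Classical in
theorem enc_S (s : Sy) : (enc m0 j b X).S s = if s = en b true then {j} else
        if X.R m0 (gE m0 b s) then X.S (gE m0 b s) \ {j} else X.S (gE m0 b s) := by
  unfold enc
  rw [dif_pos ⟨hm, hb⟩]

theorem mem_w (s : Sy) : s ∈ (enc m0 j b X).w.x ↔ s ∈ X.w.x ∨ s = en b false ∨ s = en b true := by
  rw [enc_w hm hb, insP_mem' hm hm (Or.inl rfl) hb]

omit hm hb in
theorem gE_of_ne {s : Sy} (h : s ≠ en b false) : gE m0 b s = s := by
  unfold gE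
  rw [if_neg h]

omit hm hb in
theorem gE_b0 : gE m0 b (en b false) = m0 := by
  unfold gE
  rw [if_pos rfl]

omit hm in
theorem gE_x {s : Sy} (hs : s ∈ X.w.x) : gE m0 b s = s := gE_of_ne (x_ne hb hs false)

theorem gE_m0 : gE m0 b m0 = m0 := gE_of_ne (x_ne hb hm false)

theorem R_old {s t : Sy} (hs : s ∈ X.w.x) (ht : t ∈ X.w.x) :
    (enc m0 j b X).R s t ↔ X.R s t := by
  rw [enc_R hm hb, gE_x hb hs, gE_x hb ht]
  have h1 := x_ne hb hs true
  have h2 := x_ne hb ht true
  tauto

theorem R_g {s t : Sy} (hs : s ≠ en b true) (ht : t ≠ en b true) :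
    (enc m0 j b X).R s t ↔ X.R (gE m0 b s) (gE m0 b t) := by
  rw [enc_R hm hb]
  tauto

theorem R_b1 {s : Sy} (hs : s ≠ en b true) :
    ¬ (enc m0 j b X).R s (en b true) := by
  rw [enc_R hm hb]
  tauto

theorem R_b1' {s : Sy} (hs : s ≠ en b true) :
    ¬ (enc m0 j b X).R (en b true) s := by
  rw [enc_R hm hb]
  tauto

theorem S_b1 : (enc m0 j b X).S (en b true) = {j} := by
  classical
  rw [enc_S hm hb, if_pos rfl]

theorem χ_b1 : (enc m0 j b X).χ (en b true) = 1 := by
  classical
  rw [enc_χ hm hb, if_pos rfl]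

theorem χ_g {s : Sy} (hs : s ≠ en b true) : (enc m0 j b X).χ s = X.χ (gE m0 b s) := by
  classical
  rw [enc_χ hm hb, if_neg hs]

theorem S_g_pos {s : Sy} (hs : s ≠ en b true) (h : X.R m0 (gE m0 b s)) :
    (enc m0 j b X).S s = X.S (gE m0 b s) \ {j} := by
  classical
  rw [enc_S hm hb, if_neg hs, if_pos h]

theorem S_g_neg {s : Sy} (hs : s ≠ en b true) (h : ¬ X.R m0 (gE m0 b s)) :
    (enc m0 j b X).S s = X.S (gE m0 b s) := by
  classical
  rw [enc_S hm hb, if_neg hs, if_neg h]

theorem enc_nm : RWS.nm (enc m0 j b X) = insert b (RWS.nm X) := by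
  ext a
  have e : ∀ Z : RW, a ∈ RWS.nm Z ↔ a ∈ Z.w.ord := fun Z => Sys.mem_nm (S := RWS) (X := Z)
  rw [Finset.mem_insert, e, e, PW.mem_ord, PW.mem_ord, mem_w hm hb]
  constructor
  · rintro (h | h | h)
    · exact Or.inr h
    · left; simpa using h
    · simp at h
  · rintro (h | h)
    · right; left; rw [h]
    · exact Or.inl h

theorem enc_S_m0 : (enc m0 j b X).S m0 = X.S m0 \ {j} := by
  have h := S_g_pos (j := j) hm hb (x_ne hb hm true) (by rw [gE_m0 hm hb]; exact X.rfl' _ hm)
  rw [gE_m0 hm hb] at h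
  exact h

theorem S_b0 : (enc m0 j b X).S (en b false) = X.S m0 \ {j} := by
  have h := S_g_pos (s := en b false) (j := j) hm hb (by simp)
    (by rw [gE_b0]; exact X.rfl' _ hm)
  rw [gE_b0] at h
  exact h

theorem M_b {s : Sy} (hs : s ∈ X.w.x) : (enc m0 j b X).M b s ↔ X.R s m0 := by
  have h1 := x_ne hb hs true
  unfold RW.M
  rw [R_g hm hb h1 (by simp), gE_x hb hs, gE_b0]
  have := R_b1 (j := j) hm hb h1
  tauto

theorem enc_dl_self (hj : j ∈ X.S m0) : (enc m0 j b X).dl b = X := by
  have hw : (enc m0 j b X).w.dl b = X.w := by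
    rw [enc_w hm hb]
    exact insP_dl_self hm hb
  have hbb : ¬ (enc m0 j b X).R (en b false) (en b true) := R_b1 hm hb (by simp)
  refine rw_ext hw (fun s t => ?_) (fun s => ?_) (fun s => ?_)
  · rw [dl_R, hw]
    constructor
    · rintro ⟨hs, ht, h | ⟨h, h'⟩⟩
      · exact (R_old hm hb hs ht).1 h
      · rw [M_b hm hb hs] at h
        rw [M_b hm hb ht] at h'
        exact X.trans' _ _ _ h (X.symm' _ _ h')
    · intro h
      have hs := X.mem' _ _ h
      have ht := X.mem' _ _ (X.symm' _ _ h)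
      exact ⟨hs, ht, Or.inl ((R_old hm hb hs ht).2 h)⟩
  · by_cases hs : s ∈ X.w.x
    · have hs' : s ∈ ((enc m0 j b X).w.dl b).x := by rwa [hw]
      have h1 := x_ne hb hs true
      by_cases hM : (enc m0 j b X).M b s
      · rw [dl_χ_pos _ _ hs' hM, χM_neg _ _ hbb, χ_b1 hm hb, χ_g hm hb (by simp), gE_b0]
        rw [M_b hm hb hs] at hM
        rw [X.χ_eq _ _ hM]
        ring
      · rw [dl_χ_neg _ _ hs' hM, χ_g hm hb h1, gE_x hb hs]
    · rw [((enc m0 j b X).dl b).χ_off s (by
        show s ∉ ((enc m0 j b X).w.dl b).x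
        rwa [hw]), X.χ_off s hs]
  · by_cases hs : s ∈ X.w.x
    · have hs' : s ∈ ((enc m0 j b X).w.dl b).x := by rwa [hw]
      have h1 := x_ne hb hs true
      by_cases hM : (enc m0 j b X).M b s
      · rw [dl_S_pos _ _ hs' hM, S_b1 hm hb, S_b0 hm hb]
        rw [M_b hm hb hs] at hM
        rw [X.S_eq _ _ hM]
        ext i
        simp only [Finset.mem_union, Finset.mem_sdiff, Finset.mem_singleton]
        constructor
        · rintro (h | h)
          · exact h.1
          · rw [h]; exact hj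
        · intro h
          by_cases hi : i = j
          · exact Or.inr hi
          · exact Or.inl ⟨h, hi⟩
      · rw [dl_S_neg _ _ hs' hM]
        rw [M_b hm hb hs] at hM
        have h2 : ¬ X.R m0 (gE m0 b s) := by
          rw [gE_x hb hs]
          exact fun h => hM (X.symm' _ _ h)
        rw [S_g_neg hm hb h1 h2, gE_x hb hs]
    · rw [((enc m0 j b X).dl b).S_off s (by
        show s ∉ ((enc m0 j b X).w.dl b).x
        rwa [hw]), X.S_off s hs]

theorem enc_dl (hG : RW.Good θ X) (hj : j ∈ X.S m0) {a : ℕ} (hab : a ≠ b)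
    (ham : offA a m0 = true) : (enc m0 j b X).dl a = enc m0 j b (X.dl a) := by
  by_cases ha : a ∈ X.w.ord
  swap
  · rw [dl_not_mem X a ha, dl_not_mem]
    intro h
    rw [PW.mem_ord, mem_w hm hb] at h
    rcases h with h | h | h
    · exact ha (PW.mem_ord.2 h)
    · simp only [Sy.en.injEq, and_true] at h
      exact hab h
    · simp at h
  have hm' : m0 ∈ (X.dl a).w.x := mem_dl.2 ⟨hm, ham⟩
  have hb' : b ∉ (X.dl a).w.ord := by
    show b ∉ (X.w.dl a).ord
    rw [PW.ord_dl]
    exact fun h => hb (List.mem_of_mem_erase h)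
  have hw : (enc m0 j b X).w.dl a = (enc m0 j b (X.dl a)).w := by
    rw [enc_w hm hb, enc_w hm' hb']
    exact insP_dl hm hb hab ham
  have hax : ∀ e, en a e ∈ X.w.x := fun e => (PW.mem_ord' e).1 ha
  have hane : ∀ e e', en a e ≠ en b e' := by
    intro e e' h
    simp only [Sy.en.injEq] at h
    exact hab h.1
  have hga : ∀ e, gE m0 b (en a e) = en a e := fun e => gE_of_ne (hane e false)
  -- adjacency to a
  have hM : ∀ s, s ≠ en b true → ((enc m0 j b X).M a s ↔ X.M a (gE m0 b s)) := by
    intro s hs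
    unfold RW.M
    rw [R_g hm hb hs (hane _ _), R_g hm hb hs (hane _ _), hga, hga]
  have hM1 : ¬ (enc m0 j b X).M a (en b true) := by
    unfold RW.M
    rintro (h | h)
    · exact R_b1' hm hb (hane _ _) h
    · exact R_b1' hm hb (hane _ _) h
  -- membership
  have hmem : ∀ s, s ∈ ((enc m0 j b X).w.dl a).x → s ≠ en b true → gE m0 b s ∈ (X.w.dl a).x := by
    intro s hs hs1
    rw [mem_dl, mem_w hm hb] at hs
    obtain ⟨h | h | h, h2⟩ := hs
    · rw [gE_x hb h]; exact mem_dl.2 ⟨h, h2⟩
    · rw [h, gE_b0]; exact hm'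
    · exact absurd h hs1
  have hmem' : ∀ s, gE m0 b s ∈ (X.w.dl a).x → s ∈ ((enc m0 j b X).w.dl a).x := by
    intro s hs
    rw [mem_dl, mem_w hm hb]
    by_cases h : s = en b false
    · rw [h]
      exact ⟨Or.inr (Or.inl rfl), (offA_en a b false).2 hab.symm⟩
    · rw [gE_of_ne h, mem_dl] at hs
      exact ⟨Or.inl hs.1, hs.2⟩
  have hχM : (enc m0 j b X).χM a = X.χM a := by
    by_cases h : X.R (en a false) (en a true)
    · rw [χM_pos X a h, χM_pos _ a ((R_old hm hb (hax _) (hax _)).2 h), χ_g hm hb (hane _ _), hga]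
    · rw [χM_neg X a h, χM_neg _ a (fun h' => h ((R_old hm hb (hax _) (hax _)).1 h')),
        χ_g hm hb (hane _ _), χ_g hm hb (hane _ _), hga, hga]
  have hb1mem : en b true ∈ ((enc m0 j b X).w.dl a).x := by
    rw [mem_dl, mem_w hm hb]
    exact ⟨Or.inr (Or.inr rfl), (offA_en a b true).2 hab.symm⟩
  refine rw_ext hw (fun s t => ?_) (fun s => ?_) (fun s => ?_)
  · rw [dl_R, enc_R hm' hb', dl_R]
    by_cases hs : s = en b true
    · by_cases ht : t = en b true
      · rw [hs, ht]
        constructor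
        · intro _; exact Or.inl ⟨rfl, rfl⟩
        · intro _
          exact ⟨hb1mem, hb1mem, Or.inl ((enc_R hm hb _ _).2 (Or.inl ⟨rfl, rfl⟩))⟩
      · rw [hs]
        constructor
        · rintro ⟨_, _, h | h⟩
          · exact absurd h (R_b1' hm hb ht)
          · exact absurd h.1 hM1
        · rintro (h | h)
          · exact absurd h.2 ht
          · exact absurd rfl h.1
    · by_cases ht : t = en b true
      · rw [ht]
        constructor
        · rintro ⟨_, _, h | h⟩
          · exact absurd h (R_b1 hm hb hs)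
          · exact absurd h.2 hM1
        · rintro (h | h)
          · exact absurd h.1 hs
          · exact absurd rfl h.2.1
      · rw [R_g hm hb hs ht, hM s hs, hM t ht]
        constructor
        · rintro ⟨h1, h2, h3⟩
          exact Or.inr ⟨hs, ht, hmem s h1 hs, hmem t h2 ht, h3⟩
        · rintro (h | ⟨_, _, h1, h2, h3⟩)
          · exact absurd h.1 hs
          · exact ⟨hmem' s h1, hmem' t h2, h3⟩
  · by_cases hs : s ∈ ((enc m0 j b X).w.dl a).x
    · by_cases hs1 : s = en b true
      · rw [hs1, dl_χ_neg _ _ hb1mem hM1, χ_b1 hm hb, χ_b1 hm' hb']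
      · have hg := hmem s hs hs1
        rw [χ_g hm' hb' hs1]
        by_cases h : X.M a (gE m0 b s)
        · rw [dl_χ_pos _ _ hs ((hM s hs1).2 h), dl_χ_pos _ _ hg h, hχM]
        · rw [dl_χ_neg _ _ hs (fun h' => h ((hM s hs1).1 h')), dl_χ_neg _ _ hg h, χ_g hm hb hs1]
    · rw [((enc m0 j b X).dl a).χ_off s hs, (enc m0 j b (X.dl a)).χ_off s (by rwa [← hw])]
  · by_cases hs : s ∈ ((enc m0 j b X).w.dl a).x
    · by_cases hs1 : s = en b true
      · rw [hs1, dl_S_neg _ _ hb1mem hM1, S_b1 hm hb, S_b1 hm' hb']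
      · have hg := hmem s hs hs1
        have hgx : gE m0 b s ∈ X.w.x := (mem_dl.1 hg).1
        have hRa : ∀ e, X.R m0 (en a e) → X.M a m0 := by
          intro e h
          unfold RW.M
          cases e
          · exact Or.inl h
          · exact Or.inr h
        by_cases h : X.M a (gE m0 b s)
        · rw [dl_S_pos _ _ hs ((hM s hs1).2 h)]
          by_cases hM0 : X.M a m0
          · have hR : (X.dl a).R m0 (gE m0 b s) := (dl_R X a _ _).2 ⟨hm', hg, Or.inr ⟨hM0, h⟩⟩
            rw [S_g_pos hm' hb' hs1 hR, dl_S_pos _ _ hg h]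
            have hSe : ∀ e, (enc m0 j b X).S (en a e) = X.S (en a e) \ {j} := by
              intro e
              by_cases h5 : X.R m0 (gE m0 b (en a e))
              · rw [S_g_pos hm hb (hane _ _) h5, hga]
              · rw [S_g_neg hm hb (hane _ _) h5, hga]
                rw [hga] at h5
                symm
                apply Finset.sdiff_eq_self_of_disjoint
                rw [Finset.disjoint_singleton_right]
                intro hje
                exact h5 (hG.2.2.1 m0 hm (en a e) (hax e) ⟨j, Finset.mem_inter.2 ⟨hj, hje⟩⟩)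
            rw [hSe, hSe, Finset.union_sdiff_distrib]
          · have hR : ¬ (X.dl a).R m0 (gE m0 b s) := by
              rw [dl_R]
              rintro ⟨_, _, h6 | h6⟩
              · exact hM0 ((RW.M_congr h6).2 h)
              · exact hM0 h6.1
            rw [S_g_neg hm' hb' hs1 hR, dl_S_pos _ _ hg h]
            have hSe : ∀ e, (enc m0 j b X).S (en a e) = X.S (en a e) := by
              intro e
              rw [S_g_neg hm hb (hane _ _) (by rw [hga]; exact fun h7 => hM0 (hRa e h7)), hga]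
            rw [hSe, hSe]
        · rw [dl_S_neg _ _ hs (fun h' => h ((hM s hs1).1 h'))]
          by_cases h5 : X.R m0 (gE m0 b s)
          · have hR : (X.dl a).R m0 (gE m0 b s) := (dl_R X a _ _).2 ⟨hm', hg, Or.inl h5⟩
            rw [S_g_pos hm' hb' hs1 hR, dl_S_neg _ _ hg h, S_g_pos hm hb hs1 h5]
          · have hR : ¬ (X.dl a).R m0 (gE m0 b s) := by
              rw [dl_R]
              rintro ⟨_, _, h6 | h6⟩
              · exact h5 h6
              · exact h h6.2
            rw [S_g_neg hm' hb' hs1 hR, dl_S_neg _ _ hg h, S_g_neg hm hb hs1 h5]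
    · rw [((enc m0 j b X).dl a).S_off s hs, (enc m0 j b (X.dl a)).S_off s (by rwa [← hw])]

theorem enc_rn {π : Perm ℕ} (hπ : rnS π m0 = m0) :
    (enc m0 j b X).rn π = enc m0 j (π b) (X.rn π) := by
  have hm' : m0 ∈ (X.rn π).w.x := List.mem_map.2 ⟨m0, hm, hπ⟩
  have hb' : π b ∉ (X.rn π).w.ord := by
    show π b ∉ (X.w.rn π).ord
    rw [PW.ord_rn, List.mem_map]
    rintro ⟨c, hc, h⟩
    rw [π.injective h] at hc
    exact hb hc
  have hw : (enc m0 j b X).w.rn π = (enc m0 j (π b) (X.rn π)).w := by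
    rw [enc_w hm hb, enc_w hm' hb']
    exact insP_rn hm hb hπ
  have hb1 : ∀ (s : Sy) (e : Bool), (rnS π).symm s = en b e ↔ s = en (π b) e := by
    intro s e
    rw [Equiv.symm_apply_eq, rnS_en]
  have hm0 : (rnS π).symm m0 = m0 := by
    rw [Equiv.symm_apply_eq, hπ]
  have hg : ∀ s, (rnS π).symm (gE m0 (π b) s) = gE m0 b ((rnS π).symm s) := by
    intro s
    unfold gE
    by_cases h : s = en (π b) false
    · rw [if_pos h, if_pos ((hb1 s false).2 h), hm0]
    · rw [if_neg h, if_neg (fun h' => h ((hb1 s false).1 h'))]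
  refine rw_ext hw (fun s t => ?_) (fun s => ?_) (fun s => ?_)
  · show (enc m0 j b X).R ((rnS π).symm s) ((rnS π).symm t) ↔ _
    rw [enc_R hm hb, enc_R hm' hb', hb1, hb1]
    show _ ↔ _ ∨ (_ ∧ _ ∧ X.R ((rnS π).symm (gE m0 (π b) s)) ((rnS π).symm (gE m0 (π b) t)))
    rw [hg, hg]
    have e1 : (rnS π).symm s ≠ en b true ↔ s ≠ en (π b) true := not_congr (hb1 s true)
    have e2 : (rnS π).symm t ≠ en b true ↔ t ≠ en (π b) true := not_congr (hb1 t true)
    rw [e1, e2]
  · show (enc m0 j b X).χ ((rnS π).symm s) = _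
    by_cases h : s = en (π b) true
    · rw [(hb1 s true).2 h, h, χ_b1 hm hb, χ_b1 hm' hb']
    · rw [χ_g hm hb (fun h' => h ((hb1 s true).1 h')), χ_g hm' hb' h]
      show _ = X.χ ((rnS π).symm (gE m0 (π b) s))
      rw [hg]
  · show (enc m0 j b X).S ((rnS π).symm s) = _
    by_cases h : s = en (π b) true
    · rw [(hb1 s true).2 h, h, S_b1 hm hb, S_b1 hm' hb']
    · have h' : (rnS π).symm s ≠ en b true := fun h' => h ((hb1 s true).1 h')
      by_cases h5 : X.R m0 (gE m0 b ((rnS π).symm s))
      · have h6 : (X.rn π).R m0 (gE m0 (π b) s) := by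
          show X.R ((rnS π).symm m0) ((rnS π).symm (gE m0 (π b) s))
          rw [hm0, hg]
          exact h5
        rw [S_g_pos hm hb h' h5, S_g_pos hm' hb' h h6]
        show _ = X.S ((rnS π).symm (gE m0 (π b) s)) \ {j}
        rw [hg]
      · have h6 : ¬ (X.rn π).R m0 (gE m0 (π b) s) := by
          show ¬ X.R ((rnS π).symm m0) ((rnS π).symm (gE m0 (π b) s))
          rw [hm0, hg]
          exact h5
        rw [S_g_neg hm hb h' h5, S_g_neg hm' hb' h h6]
        show _ = X.S ((rnS π).symm (gE m0 (π b) s))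
        rw [hg]

theorem enc_Good (hG : RW.Good θ X) (hj : j ∈ X.S m0)
    (hθ : ∀ s ∈ X.w.x, θ s ∈ X.w.x)
    (hf : θ (en b false) = en b true ∧ θ (en b true) = en b false) :
    RW.Good θ (enc m0 j b X) := by
  classical
  obtain ⟨hG1, hG2, hG3, l0, n0, hl0⟩ := hG
  set φ := fp θ X.w.x with hφ
  have hfp : fp θ (enc m0 j b X).w.x = swap (en b true) m0 * (swap (en b false) m0 * φ) := by
    rw [enc_w hm hb]
    exact J872.fp_new hm hm (Or.inl rfl) hb
  have hφ0 : φ (en b false) = en b true := J872.fp_fix hb hf.1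
  have hφ1 : φ (en b true) = en b false := J872.fp_fix hb hf.2
  have hφx : ∀ s ∈ X.w.x, φ s ∈ X.w.x := fun s hs => X.mem' _ _ (X.symm' _ _ (hG1 s hs))
  set φ' := swap (en b true) m0 * (swap (en b false) m0 * φ) with hφ'
  have n0m : en b false ≠ m0 := fun h => x_ne hb hm false h.symm
  have n1m : en b true ≠ m0 := fun h => x_ne hb hm true h.symm
  have n01 : en b false ≠ en b true := by simp
  have e1 : φ' (en b true) = en b true := by
    rw [hφ', Perm.mul_apply, Perm.mul_apply, hφ1, swap_apply_left, swap_apply_right]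
  have e0 : φ' (en b false) = m0 := by
    rw [hφ', Perm.mul_apply, Perm.mul_apply, hφ0, swap_apply_of_ne_of_ne n01.symm n1m,
      swap_apply_left]
  have es : ∀ s ∈ X.w.x, (φ s = m0 ∧ φ' s = en b false) ∨ (φ s ≠ m0 ∧ φ' s = φ s) := by
    intro s hs
    by_cases h : φ s = m0
    · left
      refine ⟨h, ?_⟩
      rw [hφ', Perm.mul_apply, Perm.mul_apply, h, swap_apply_right,
        swap_apply_of_ne_of_ne n01 n0m]
    · right
      refine ⟨h, ?_⟩
      have h2 := hφx s hs
      rw [hφ', Perm.mul_apply, Perm.mul_apply, swap_apply_of_ne_of_ne (x_ne hb h2 false) h,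
        swap_apply_of_ne_of_ne (x_ne hb h2 true) h]
  refine ⟨?_, ?_, ?_, ?_⟩
  · intro s hs
    rw [hfp]
    rw [mem_w hm hb] at hs
    rcases hs with hs | hs | hs
    · have hs1 := x_ne hb hs true
      rcases es s hs with ⟨h1, h2⟩ | ⟨_, h2⟩
      · rw [h2, R_g hm hb hs1 n01, gE_x hb hs, gE_b0, ← h1]
        exact hG1 s hs
      · rw [h2, R_old hm hb hs (hφx s hs)]
        exact hG1 s hs
    · rw [hs, e0, R_g hm hb n01 (fun h => n1m h.symm), gE_b0, gE_m0 hm hb]
      exact X.rfl' _ hm
    · rw [hs, e1]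
      exact (enc_R hm hb _ _).2 (Or.inl ⟨rfl, rfl⟩)
  · intro s hs
    rw [hfp]
    by_cases hs1 : s = en b true
    · refine ⟨0, ?_⟩
      have hcls : (enc m0 j b X).cls s = insert (en b true) ∅ := by
        ext t
        unfold RW.cls
        simp only [Finset.mem_filter, List.mem_toFinset, Finset.mem_insert, Finset.notMem_empty,
          or_false]
        rw [hs1]
        constructor
        · rintro ⟨_, h⟩
          by_contra ht
          exact R_b1' hm hb ht h
        · rintro rfl
          exact ⟨(mem_w hm hb _).2 (Or.inr (Or.inr rfl)),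
            (enc_R hm hb _ _).2 (Or.inl ⟨rfl, rfl⟩)⟩
      rw [hcls, ncy_insert_fixed e1 (Finset.notMem_empty _), hs1, χ_b1 hm hb]
      have : ncy φ' (∅ : Finset Sy) = 0 := by
        rw [ncy_eq']; simp
      rw [this]
      norm_num
    · have hgx : gE m0 b s ∈ X.w.x := by
        rw [mem_w hm hb] at hs
        rcases hs with h | h | h
        · rw [gE_x hb h]; exact h
        · rw [h, gE_b0]; exact hm
        · exact absurd h hs1
      obtain ⟨h, hh⟩ := hG2 _ hgx
      refine ⟨h, ?_⟩
      rw [χ_g hm hb hs1, ← hh]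
      congr 2
      set A := X.cls (gE m0 b s) with hA
      have memA : ∀ t, t ∈ A ↔ X.R (gE m0 b s) t := by
        intro t
        rw [hA]
        unfold RW.cls
        rw [Finset.mem_filter, List.mem_toFinset]
        exact ⟨fun h => h.2, fun h => ⟨X.mem' _ _ (X.symm' _ _ h), h⟩⟩
      have hAx : ∀ t ∈ A, t ∈ X.w.x := fun t ht =>
        X.mem' _ _ (X.symm' _ _ ((memA t).1 ht))
      have hAinv : ∀ t ∈ A, φ t ∈ A := by
        intro t ht
        rw [memA] at ht ⊢
        exact X.trans' _ _ _ ht (hG1 t (X.mem' _ _ (X.symm' _ _ ht)))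
      have b0A : en b false ∉ A := fun h => x_ne hb (hAx _ h) false rfl
      have b1A : en b true ∉ A := fun h => x_ne hb (hAx _ h) true rfl
      by_cases hR : X.R (gE m0 b s) m0
      · have hmA : m0 ∈ A := (memA _).2 hR
        have hcls : (enc m0 j b X).cls s = insert (en b false) A := by
          ext t
          unfold RW.cls
          rw [Finset.mem_filter, List.mem_toFinset, Finset.mem_insert, memA, mem_w hm hb]
          constructor
          · rintro ⟨h1 | h1 | h1, h2⟩
            · right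
              rwa [R_g hm hb hs1 (x_ne hb h1 true), gE_x hb h1] at h2
            · exact Or.inl h1
            · rw [h1] at h2
              exact absurd h2 (R_b1 hm hb hs1)
          · rintro (h1 | h1)
            · refine ⟨Or.inr (Or.inl h1), ?_⟩
              rw [h1, R_g hm hb hs1 n01, gE_b0]
              exact hR
            · have h3 := X.mem' _ _ (X.symm' _ _ h1)
              refine ⟨Or.inl h3, ?_⟩
              rw [R_g hm hb hs1 (x_ne hb h3 true), gE_x hb h3]
              exact h1
        rw [hcls]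
        have k1 := Pool.Agent.TH286.J768.dbl_split φ A hAinv n01 b0A b1A hφ0 hφ1 hmA hmA
          (Perm.SameCycle.refl _ _)
        rw [Finset.insert_comm, ← hφ', ncy_insert_fixed e1 (by
          rw [Finset.mem_insert]
          rintro (h | h)
          · exact n01 h.symm
          · exact b1A h)] at k1
        omega
      · have hmA : m0 ∉ A := fun h => hR ((memA _).1 h)
        have hcls : (enc m0 j b X).cls s = A := by
          ext t
          unfold RW.cls
          rw [Finset.mem_filter, List.mem_toFinset, memA, mem_w hm hb]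
          constructor
          · rintro ⟨h1 | h1 | h1, h2⟩
            · rwa [R_g hm hb hs1 (x_ne hb h1 true), gE_x hb h1] at h2
            · rw [h1, R_g hm hb hs1 n01, gE_b0] at h2
              exact absurd h2 hR
            · rw [h1] at h2
              exact absurd h2 (R_b1 hm hb hs1)
          · intro h1
            have h3 := X.mem' _ _ (X.symm' _ _ h1)
            refine ⟨Or.inl h3, ?_⟩
            rw [R_g hm hb hs1 (x_ne hb h3 true), gE_x hb h3]
            exact h1
        rw [hcls]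
        apply ncy_congr
        intro u hu v hv
        have hmu : ¬ φ.SameCycle m0 u := by
          intro h
          exact hmA (Pool.Agent.TH286.J761.sc_mem φ A hAinv hu h.symm)
        have hXinv : ∀ t ∈ X.w.x.toFinset, φ t ∈ X.w.x.toFinset := by
          intro t ht
          rw [List.mem_toFinset] at ht ⊢
          exact hφx t ht
        exact Pool.Agent.TH286.J768.dbl_sc_far φ X.w.x.toFinset hXinv n01
          (by rw [List.mem_toFinset]; exact fun h => x_ne hb h false rfl)
          (by rw [List.mem_toFinset]; exact fun h => x_ne hb h true rfl) hφ0 hφ1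
          (List.mem_toFinset.2 hm) (List.mem_toFinset.2 hm) (List.mem_toFinset.2 (hAx u hu))
          (List.mem_toFinset.2 (hAx v hv)) hmu hmu
  · -- punctures
    have hsub : ∀ t, t ≠ en b true → (enc m0 j b X).S t ⊆ X.S (gE m0 b t) := by
      intro t ht
      by_cases h : X.R m0 (gE m0 b t)
      · rw [S_g_pos hm hb ht h]; exact Finset.sdiff_subset
      · rw [S_g_neg hm hb ht h]
    have hgx : ∀ t, t ∈ (enc m0 j b X).w.x → t ≠ en b true → gE m0 b t ∈ X.w.x := by
      intro t ht ht1
      rw [mem_w hm hb] at ht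
      rcases ht with h | h | h
      · rw [gE_x hb h]; exact h
      · rw [h, gE_b0]; exact hm
      · exact absurd h ht1
    have hjn : ∀ t, t ∈ (enc m0 j b X).w.x → t ≠ en b true → j ∉ (enc m0 j b X).S t := by
      intro t ht ht1 hjt
      by_cases h : X.R m0 (gE m0 b t)
      · rw [S_g_pos hm hb ht1 h] at hjt
        simp at hjt
      · rw [S_g_neg hm hb ht1 h] at hjt
        exact h (hG3 m0 hm _ (hgx t ht ht1) ⟨j, Finset.mem_inter.2 ⟨hj, hjt⟩⟩)
    intro s hs t ht hst
    by_cases hs1 : s = en b true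
    · by_cases ht1 : t = en b true
      · exact (enc_R hm hb _ _).2 (Or.inl ⟨hs1, ht1⟩)
      · exfalso
        obtain ⟨i, hi⟩ := hst
        rw [Finset.mem_inter, hs1, S_b1 hm hb, Finset.mem_singleton] at hi
        rw [hi.1] at hi
        exact hjn t ht ht1 hi.2
    · by_cases ht1 : t = en b true
      · exfalso
        obtain ⟨i, hi⟩ := hst
        rw [Finset.mem_inter, ht1, S_b1 hm hb, Finset.mem_singleton] at hi
        rw [hi.2] at hi
        exact hjn s hs hs1 hi.1
      · rw [R_g hm hb hs1 ht1]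
        obtain ⟨i, hi⟩ := hst
        rw [Finset.mem_inter] at hi
        exact hG3 _ (hgx s hs hs1) _ (hgx t ht ht1)
          ⟨i, Finset.mem_inter.2 ⟨hsub s hs1 hi.1, hsub t ht1 hi.2⟩⟩
  · rw [enc_w hm hb, insP_x hm hm (Or.inl rfl) hb, hl0]
    unfold ins2
    obtain ⟨l1, h1⟩ := insB_last m0 (en b false) l0 (mr n0)
    rw [h1]
    obtain ⟨l2, h2⟩ := insB_last m0 (en b true) l1 (mr n0)
    exact ⟨l2, n0, h2⟩

theorem S_m0_ne (hj : 2 ≤ (X.S m0).card) : (X.S m0 \ {j}).Nonempty := by
  rw [← Finset.card_pos]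
  have h1 : (X.S m0).card - ({j} : Finset ℕ).card ≤ (X.S m0 \ {j}).card :=
    Finset.le_card_sdiff _ _
  rw [Finset.card_singleton] at h1
  omega

theorem enc_Loop_b (hj : 2 ≤ (X.S m0).card) : (enc m0 j b X).Loop b := by
  right
  refine ⟨?_, ?_⟩
  · rw [S_b0 hm hb]
    exact S_m0_ne hm hb hj
  · rw [S_b1 hm hb]
    exact Finset.singleton_nonempty j

theorem enc_Loop {a : ℕ} (ha : a ∈ X.w.ord) (h : X.Loop a) (hj : 2 ≤ (X.S m0).card) :
    (enc m0 j b X).Loop a := by
  have hab : a ≠ b := by
    rintro rfl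
    exact hb ha
  have hax : ∀ e, en a e ∈ X.w.x := fun e => (PW.mem_ord' e).1 ha
  rcases h with h | ⟨h0, h1⟩
  · exact Or.inl ((R_old hm hb (hax _) (hax _)).2 h)
  · have key : ∀ e, (X.S (en a e)).Nonempty → ((enc m0 j b X).S (en a e)).Nonempty := by
      intro e he
      have hne : en a e ≠ en b true := x_ne hb (hax e) true
      by_cases hR : X.R m0 (gE m0 b (en a e))
      · rw [S_g_pos hm hb hne hR, ← X.S_eq _ _ hR]
        exact S_m0_ne hm hb hj
      · rw [S_g_neg hm hb hne hR, gE_x hb (hax e)]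
        exact he
    exact Or.inr ⟨key _ h0, key _ h1⟩

end

end Pool.Agent.TH817.J985
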