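import Pool.Agent.TH985.WP.Defs2
set_option autoImplicit false
open MeasureTheory ProbabilityTheory Matrix
open scoped ENNReal
namespace Pool.Agent.TH817.WP
open Pool.Agent.TH985.WP

/-- the parametrization of the unordered pairs in `Option ι` -/
def phi {ι : Type} : (Sym2 ι ⊕ ι) ⊕ Unit → Sym2 (Option ι)
  | Sum.inl (Sum.inl e) => e.map some
  | Sum.inl (Sum.inr i) => s(some i, none)
  | Sum.inr _ => s(none, none)

theorem phi_bij {ι : Type} : Function.Bijective (phi (ι := ι)) := by
  constructor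
  · rintro ((e | i) | u) ((e' | i') | u') h <;> simp only [phi] at h
    · rw [Sym2.map.injective (Option.some_injective ι) h]
    · induction e using Sym2.ind
      simp at h
    · induction e using Sym2.ind
      simp at h
    · induction e' using Sym2.ind
      simp at h
    · simp at h
      rw [h]
    · simp at h
    · induction e' using Sym2.ind
      simp at h
    · simp at h
    · rfl
  · intro b
    induction b using Sym2.ind with
    | _ x y =>
      rcases x with _ | x <;> rcases y with _ | y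
      · exact ⟨Sum.inr (), rfl⟩
      · exact ⟨Sum.inl (Sum.inr y), Sym2.eq_swap⟩
      · exact ⟨Sum.inl (Sum.inr x), rfl⟩
      · exact ⟨Sum.inl (Sum.inl s(x, y)), rfl⟩

theorem prod_phi {ι : Type} [Fintype ι] [DecidableEq ι] (F : Sym2 (Option ι) → ℝ≥0∞) :
    ∏ b, F b = (∏ e : Sym2 ι, F (e.map some)) * (∏ i : ι, F s(some i, none)) * F s(none, none) := by
  rw [← Fintype.prod_bijective phi phi_bij (fun a => F (phi a)) F (fun _ => rfl), Fintype.prod_sum_type,
    Fintype.prod_sum_type]
  simp [phi]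

theorem border_some {ι : Type} (x : Sym2 ι → ℝ) (v : ι → ℝ) (y : ℝ) (e : Sym2 ι) :
    border x v y (e.map some) = x e := by
  induction e using Sym2.ind
  rfl

theorem border_mem {ι : Type} (S : Sym2 (Option ι) → Set ℝ) (x : Sym2 ι → ℝ) (v : ι → ℝ) (y : ℝ) :
    (∀ b, border x v y b ∈ S b) ↔ (∀ e : Sym2 ι, x e ∈ S (e.map some)) ∧ (∀ i, v i ∈ S s(some i, none)) ∧
      y ∈ S s(none, none) := by
  constructor
  · intro h
    refine ⟨fun e => ?_, fun i => h s(some i, none), h s(none, none)⟩
    have := h (e.map some)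
    rwa [border_some] at this
  · rintro ⟨h1, h2, h3⟩ b
    obtain ⟨a, rfl⟩ := phi_bij.2 b
    rcases a with (e | i) | u
    · show border x v y (e.map some) ∈ _
      rw [border_some]
      exact h1 e
    · exact h2 i
    · exact h3

theorem border_meas {ι : Type} : Measurable fun z : (Sym2 ι → ℝ) × ((ι → ℝ) × ℝ) => border z.1 z.2.1 z.2.2 := by
  rw [measurable_pi_iff]
  intro b
  obtain ⟨a, rfl⟩ := phi_bij.2 b
  rcases a with (e | i) | u
  · show Measurable fun z : (Sym2 ι → ℝ) × ((ι → ℝ) × ℝ) => border z.1 z.2.1 z.2.2 (e.map some)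
    simp_rw [border_some]
    fun_prop
  · show Measurable fun z : (Sym2 ι → ℝ) × ((ι → ℝ) × ℝ) => z.2.1 i
    fun_prop
  · show Measurable fun z : (Sym2 ι → ℝ) × ((ι → ℝ) × ℝ) => z.2.2
    fun_prop

theorem border_map {ι : Type} [Fintype ι] [DecidableEq ι] :
    Measure.map (fun z : (Sym2 ι → ℝ) × ((ι → ℝ) × ℝ) => border z.1 z.2.1 z.2.2) volume =
      (volume : Measure (Sym2 (Option ι) → ℝ)) := by
  rw [volume_pi]
  symm
  refine Measure.pi_eq fun S hS => ?_
  rw [Measure.map_apply border_meas (MeasurableSet.univ_pi hS)]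
  have h1 : (fun z : (Sym2 ι → ℝ) × ((ι → ℝ) × ℝ) => border z.1 z.2.1 z.2.2) ⁻¹' (Set.univ.pi S) =
      (Set.univ.pi fun e : Sym2 ι => S (e.map some)) ×ˢ
        ((Set.univ.pi fun i : ι => S s(some i, none)) ×ˢ S s(none, none)) := by
    ext ⟨x, v, y⟩
    simp only [Set.mem_preimage, Set.mem_univ_pi, Set.mem_prod]
    exact border_mem S x v y
  rw [h1, Measure.volume_eq_prod, Measure.prod_prod, Measure.volume_eq_prod, Measure.prod_prod, volume_pi_pi,
    volume_pi_pi, prod_phi]
  ring

theorem border_lintegral {ι : Type} [Fintype ι] [DecidableEq ι]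
    (f : (Sym2 (Option ι) → ℝ) → ℝ≥0∞) (hf : Measurable f) :
    ∫⁻ x, f x = ∫⁻ x : Sym2 ι → ℝ, ∫⁻ v : ι → ℝ, ∫⁻ y : ℝ, f (border x v y) := by
  have hfm : Measurable fun z : (Sym2 ι → ℝ) × ((ι → ℝ) × ℝ) => f (border z.1 z.2.1 z.2.2) := hf.comp border_meas
  rw [← border_map, lintegral_map hf border_meas, Measure.volume_eq_prod, lintegral_prod _ hfm.aemeasurable]
  refine lintegral_congr fun x => ?_
  rw [Measure.volume_eq_prod, lintegral_prod]
  exact (hfm.comp (measurable_const.prodMk measurable_id)).aemeasurable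

end Pool.Agent.TH817.WP
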