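import Pool.Agent.TH563.Z.Kx
import Pool.Agent.W249.AX.KLog
import Pool.Agent.W701.AX.Kxc
import Pool.Agent.W414.AX.Ext
import Pool.Agent.W637.AX.TC
import Pool.Agent.W67.AX.UX2
import Pool.Agent.W303.AX.UX1

/-!
# Job Z-KXC: the lower part of the kernel at complex points, to all orders
-/

set_option autoImplicit false

namespace Pool.Agent.TH563.Z

open Finset Filter Topology Metric
open Pool.Agent.W711.HT hiding XX
open Pool.Agent.W719.AX (UX Rl)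
open Pool.Agent.W249.AX (ex_log real_log bc_chain rc_open rc_convex Rp_diff)
open scoped Real

namespace KXC

/-! ### The coordinate `φ = i (η + t)` -/

/-- the coordinate `φ = i (η + t)` -/
noncomputable def phz (η : ℝ) (t : ℂ) : ℂ := (η + t) * Complex.I

/-- its inverse -/
noncomputable def tz (η : ℝ) (φ : ℂ) : ℂ := -(φ * Complex.I) - η

theorem phz_re (η : ℝ) (t : ℂ) : (phz η t).re = -t.im := by simp [phz]

theorem phz_im (η : ℝ) (t : ℂ) : (phz η t).im = η + t.re := by simp [phz]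

theorem phz_tz (η : ℝ) (φ : ℂ) : phz η (tz η φ) = φ := by
  simp only [phz, tz]
  linear_combination (-φ) * Complex.I_mul_I

theorem tz_re (η : ℝ) (φ : ℂ) : (tz η φ).re = φ.im - η := by simp [tz]

theorem tz_im (η : ℝ) (φ : ℂ) : (tz η φ).im = -φ.re := by simp [tz]

theorem phz_mem {η ρ τ : ℝ} {t : ℂ} (h : t ∈ Rc τ ρ) : phz η t ∈ Rz η ρ τ := by
  refine ⟨?_, ?_⟩
  · rw [phz_re, abs_neg]; exact h.2
  · rw [phz_im, add_sub_cancel_left]; exact h.1

theorem tz_mem {η ρ τ : ℝ} {φ : ℂ} (h : φ ∈ Rz η ρ τ) : tz η φ ∈ Rc τ ρ := by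
  refine ⟨?_, ?_⟩
  · rw [tz_re]; exact h.2
  · rw [tz_im, abs_neg]; exact h.1

theorem phz_diff (η : ℝ) : Differentiable ℂ (phz η) := by
  unfold phz
  fun_prop

theorem tz_diff (η : ℝ) : Differentiable ℂ (tz η) := by
  unfold tz
  fun_prop

theorem rz_open (η ρ τ : ℝ) : IsOpen (Rz η ρ τ) := by
  have h1 : IsOpen {z : ℂ | |z.re| < ρ} :=
    isOpen_lt (Complex.continuous_re.abs) continuous_const
  have h2 : IsOpen {z : ℂ | |z.im - η| < τ} :=
    isOpen_lt ((Complex.continuous_im.sub continuous_const).abs) continuous_const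
  exact h1.inter h2

/-! ### Reality -/

theorem im_zero_of_cos {w : ℂ} {q : ℝ} (h : Complex.cos w = q) (h1 : -1 < q) (h2 : q < 1) :
    w.im = 0 := by
  have e := Complex.cos_eq w
  rw [h] at e
  have hre : q = Real.cos w.re * Real.cosh w.im := by
    have := congrArg Complex.re e
    simpa [← Complex.ofReal_cos, ← Complex.ofReal_sin, ← Complex.ofReal_cosh,
      ← Complex.ofReal_sinh] using this
  have him : Real.sin w.re * Real.sinh w.im = 0 := by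
    have := congrArg Complex.im e
    have h3 : (0 : ℝ) = -(Real.sin w.re * Real.sinh w.im) := by
      simpa [← Complex.ofReal_cos, ← Complex.ofReal_sin, ← Complex.ofReal_cosh,
        ← Complex.ofReal_sinh] using this
    linarith
  rcases mul_eq_zero.mp him with h3 | h3
  · exfalso
    have h4 : Real.cos w.re ^ 2 = 1 := by
      have := Real.sin_sq_add_cos_sq w.re
      rw [h3] at this
      linarith
    have h5 : 1 ≤ Real.cosh w.im ^ 2 := by
      have := Real.one_le_cosh w.im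
      nlinarith
    have h6 : q ^ 2 = Real.cosh w.im ^ 2 := by
      rw [hre, mul_pow, h4, one_mul]
    nlinarith
  · exact Real.sinh_eq_zero.mp h3

/-- the value of `cos (2 π δ)` at real points -/
noncomputable def qv (C D : ℝ) : ℝ := (1 - C * D) / (2 + C + D)

theorem qv_bds {C D : ℝ} (hC : 0 < C) (hC1 : C ≤ 1) (hD : 1 ≤ D) :
    -1 < qv C D ∧ qv C D < 1 ∧ 0 < C + qv C D ∧ 0 < D + qv C D := by
  have hpos : 0 < 2 + C + D := by linarith
  unfold qv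
  refine ⟨?_, ?_, ?_, ?_⟩
  · rw [lt_div_iff₀ hpos]; nlinarith
  · rw [div_lt_iff₀ hpos]; nlinarith [mul_pos hC (by linarith : 0 < D)]
  · have : C + (1 - C * D) / (2 + C + D) = (1 + C) ^ 2 / (2 + C + D) := by
      field_simp
      ring
    rw [this]; positivity
  · have : D + (1 - C * D) / (2 + C + D) = (1 + D) ^ 2 / (2 + C + D) := by
      field_simp
      ring
    rw [this]; positivity

theorem rrF_real {δ C : ℝ} {z : ℂ} (h0 : 0 ≤ δ) (h1 : δ ≤ 1 / 2) (hz : Complex.cos z = (C : ℂ))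
    (hC : 0 ≤ C + Real.cos (2 * π * δ)) : (rrF (δ : ℂ) z).im = 0 := by
  have h : ∫ t in (0:ℝ)..1, Complex.log (2 * Complex.cos z + 2 * Complex.cos (2 * π * δ * t)) =
      ∫ t in (0:ℝ)..1, ((Real.log (2 * C + 2 * Real.cos (2 * π * δ * t)) : ℝ) : ℂ) := by
    apply intervalIntegral.integral_congr
    intro t ht
    rw [Set.uIcc_of_le (by norm_num)] at ht
    have ht0 := ht.1
    have ht1 := ht.2
    have hc2 : Real.cos (2 * π * δ) ≤ Real.cos (2 * π * δ * t) := by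
      have hx0 : 0 ≤ 2 * π * δ * t := by positivity
      have hx1 : 2 * π * δ * t ≤ 2 * π * δ := by
        have : 0 ≤ 2 * π * δ := by positivity
        nlinarith
      exact Real.cos_le_cos_of_nonneg_of_le_pi hx0 (by nlinarith [Real.pi_pos]) hx1
    show Complex.log _ =
      ((Real.log (2 * C + 2 * Real.cos (2 * π * δ * t)) : ℝ) : ℂ)
    rw [hz, Complex.ofReal_log (by linarith)]
    push_cast
    rfl
  rw [rrF, h, intervalIntegral.integral_ofReal, ← Complex.ofReal_mul, Complex.ofReal_im]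

theorem ssF_real {δ : ℝ} (h0 : 0 ≤ δ) (h1 : δ ≤ 1 / 2) : (ssF (δ : ℂ)).im = 0 := by
  have h : ∫ t in (0:ℝ)..1, Complex.log (2 * Complex.sin (π * δ * t)) =
      ∫ t in (0:ℝ)..1, ((Real.log (2 * Real.sin (π * δ * t)) : ℝ) : ℂ) := by
    apply intervalIntegral.integral_congr
    intro t ht
    rw [Set.uIcc_of_le (by norm_num)] at ht
    have ht0 := ht.1
    have ht1 := ht.2
    have hc2 : 0 ≤ Real.sin (π * δ * t) := by
      apply Real.sin_nonneg_of_nonneg_of_le_pi (by positivity)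
      have : δ * t ≤ 1 := by nlinarith
      nlinarith [Real.pi_pos]
    show Complex.log _ = ((Real.log (2 * Real.sin (π * δ * t)) : ℝ) : ℂ)
    rw [Complex.ofReal_log (by linarith)]
    push_cast
    rfl
  rw [ssF, h, intervalIntegral.integral_ofReal, ← Complex.ofReal_mul, Complex.ofReal_im]

theorem dz_mem {η : ℝ} (hη : 0 < η) : 0 ≤ dz η ∧ dz η ≤ 1 / 2 := by
  unfold dz
  have h1 := Real.arccos_nonneg ((1 - Real.cosh η) / (3 + Real.cosh η))
  have h2 := Real.arccos_le_pi ((1 - Real.cosh η) / (3 + Real.cosh η))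
  have := Real.pi_pos
  refine ⟨by positivity, ?_⟩
  rw [div_le_iff₀ (by positivity)]
  linarith

theorem cos_I (y : ℝ) : Complex.cos (y * Complex.I) = (Real.cosh y : ℂ) := by
  rw [Complex.cos_mul_I, Complex.ofReal_cosh]

theorem rz_I {η ρ τ y : ℝ} (hρ : 0 < ρ) (hy : |y - η| < τ) : (y * Complex.I : ℂ) ∈ Rz η ρ τ := by
  refine ⟨by simpa using hρ, by simpa using hy⟩

/-- `δ` is real at real points -/
theorem dl_real {η r c C : ℝ} {s dl : ℂ → ℂ → ℂ} (hη : 0 < η) (h : SDZ η r c C s dl) {a y : ℝ}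
    (ha : |a| < r) (hy : |y - η| < r) :
    (dl a (y * Complex.I)).im = 0 ∧ 0 ≤ (dl a (y * Complex.I)).re ∧
      (dl a (y * Complex.I)).re ≤ 1 / 2 ∧
      Real.cos (2 * π * (dl a (y * Complex.I)).re) = qv (Real.cos a) (Real.cosh y) := by
  have hr0 := h.hr.1
  have hr1 := h.hr.2.1
  -- the equation at real points
  have key : ∀ a y : ℝ, |a| < r → |y - η| < r → (dl a (y * Complex.I)).im = 0 ∧
      Real.cos (2 * π * (dl a (y * Complex.I)).re) = qv (Real.cos a) (Real.cosh y) ∧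
      -1 < qv (Real.cos a) (Real.cosh y) ∧ qv (Real.cos a) (Real.cosh y) < 1 := by
    intro a y ha hy
    have ha1 : (a : ℂ) ∈ Rc r r := ⟨by simpa using ha, by simpa using hr0⟩
    have hy1 : (y * Complex.I : ℂ) ∈ Rz η r r := rz_I hr0 hy
    have h1 := h.dcos _ ha1 _ hy1
    have hca : 0 < Real.cos a := by
      have := abs_lt.mp ha
      apply Real.cos_pos_of_mem_Ioo
      constructor <;> linarith [Real.pi_gt_three]
    obtain ⟨q1, q2, -, -⟩ := qv_bds hca (Real.cos_le_one a) (Real.one_le_cosh y)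
    have h2 : Complex.cos (2 * π * dl a (y * Complex.I)) =
        ((qv (Real.cos a) (Real.cosh y) : ℝ) : ℂ) := by
      rw [h1, cos_I, qv]
      push_cast
      rfl
    have h3 := im_zero_of_cos h2 q1 q2
    have h4 : (dl a (y * Complex.I)).im = 0 := by
      have : (2 * π * dl a (y * Complex.I) : ℂ).im = 2 * π * (dl a (y * Complex.I)).im := by
        simp
      rw [this] at h3
      have hp := Real.pi_pos
      rcases mul_eq_zero.mp h3 with h5 | h5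
      · exact absurd h5 (by positivity)
      · exact h5
    refine ⟨h4, ?_, q1, q2⟩
    have h5 : (2 * π * dl a (y * Complex.I) : ℂ) =
        ((2 * π * (dl a (y * Complex.I)).re : ℝ) : ℂ) := by
      apply Complex.ext <;> simp [h4]
    rw [h5, ← Complex.ofReal_cos] at h2
    exact_mod_cast h2
  -- connectedness
  set S : Set (ℝ × ℝ) := {x | |x.1| < r ∧ |x.2 - η| < r} with hS
  have hSe : S = Set.Ioo (-r) r ×ˢ Set.Ioo (η - r) (η + r) := by
    ext x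
    simp only [hS, Set.mem_setOf_eq, Set.mem_prod, Set.mem_Ioo, abs_lt]
    constructor
    · rintro ⟨⟨h1, h2⟩, h3, h4⟩
      exact ⟨⟨h1, h2⟩, by linarith, by linarith⟩
    · rintro ⟨⟨h1, h2⟩, h3, h4⟩
      exact ⟨⟨h1, h2⟩, by linarith, by linarith⟩
  have hSp : IsPreconnected S := by
    rw [hSe]
    exact (isPreconnected_Ioo).prod isPreconnected_Ioo
  have hcont : ContinuousOn (fun x : ℝ × ℝ => (dl (x.1 : ℂ) (x.2 * Complex.I)).re) S := by
    refine Complex.continuous_re.comp_continuousOn ?_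
    have h1 : ContinuousOn (fun p : ℂ × ℂ => dl p.1 p.2) (Rc r r ×ˢ Rz η r r) := h.dan.continuousOn
    refine h1.comp (f := fun x : ℝ × ℝ => ((x.1 : ℂ), (x.2 * Complex.I : ℂ))) ?_ ?_
    · apply Continuous.continuousOn
      fun_prop
    · intro x hx
      exact ⟨⟨by simpa using hx.1, by simpa using hr0⟩, rz_I hr0 hx.2⟩
  have h0S : ((0 : ℝ), η) ∈ S := by
    refine ⟨by simpa using hr0, by simpa using hr0⟩
  have haS : (a, y) ∈ S := ⟨ha, hy⟩
  have hbase : (dl ((0 : ℝ) : ℂ) (η * Complex.I)).re = dz η := by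
    rw [Complex.ofReal_zero, h.dbase, Complex.ofReal_re]
  obtain ⟨k1, k2, k3, k4⟩ := key a y ha hy
  have hdz := dz_mem hη
  refine ⟨k1, ?_, ?_, k2⟩
  · by_contra hneg
    push Not at hneg
    have hiv := hSp.intermediate_value haS h0S hcont
    have hm : (0 : ℝ) ∈ Set.Icc (dl (a : ℂ) (y * Complex.I)).re
        (dl ((0 : ℝ) : ℂ) (η * Complex.I)).re := by
      rw [hbase]
      exact ⟨hneg.le, hdz.1⟩
    obtain ⟨x, hx, hxv⟩ := hiv hm
    obtain ⟨-, l2, l3, l4⟩ := key x.1 x.2 hx.1 hx.2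
    simp only at hxv
    rw [hxv, mul_zero, Real.cos_zero] at l2
    linarith
  · by_contra hneg
    push Not at hneg
    have hiv := hSp.intermediate_value h0S haS hcont
    have hm : (1 / 2 : ℝ) ∈ Set.Icc (dl ((0 : ℝ) : ℂ) (η * Complex.I)).re
        (dl (a : ℂ) (y * Complex.I)).re := by
      rw [hbase]
      exact ⟨hdz.2, hneg.le⟩
    obtain ⟨x, hx, hxv⟩ := hiv hm
    obtain ⟨-, l2, l3, l4⟩ := key x.1 x.2 hx.1 hx.2
    simp only at hxv
    rw [hxv, show 2 * π * (1 / 2) = π by ring, Real.cos_pi] at l2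
    linarith

/-- `s` is real at real points -/
theorem s_real {η r c C : ℝ} {s dl : ℂ → ℂ → ℂ} (hη : 0 < η) (h : SDZ η r c C s dl) {a y : ℝ}
    (ha : |a| < r) (hy : |y - η| < r) : (s a (y * Complex.I)).im = 0 := by
  have hr0 := h.hr.1
  have hr1 := h.hr.2.1
  obtain ⟨h1, h2, h3, h4⟩ := dl_real hη h ha hy
  have ha1 : (a : ℂ) ∈ Rc r r := ⟨by simpa using ha, by simpa using hr0⟩
  have hy1 : (y * Complex.I : ℂ) ∈ Rz η r r := rz_I hr0 hy
  have hca : 0 < Real.cos a := by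
    have := abs_lt.mp ha
    apply Real.cos_pos_of_mem_Ioo
    constructor <;> linarith [Real.pi_gt_three]
  obtain ⟨-, -, q3, q4⟩ := qv_bds hca (Real.cos_le_one a) (Real.one_le_cosh y)
  rw [← h4] at q3 q4
  have h5 : dl a (y * Complex.I) = (((dl a (y * Complex.I)).re : ℝ) : ℂ) := by
    apply Complex.ext <;> simp [h1]
  rw [h.scrit _ ha1 _ hy1, h5]
  have e1 := rrF_real (z := (a : ℂ)) h2 h3 (C := Real.cos a) (by push_cast; rfl) q3.le
  have e2 := rrF_real (z := (y * Complex.I : ℂ)) h2 h3 (C := Real.cosh y) (cos_I y) q4.le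
  have e3 := ssF_real h2 h3
  simp [e1, e2, e3]

theorem kerL_eq (ε : ℝ) (N : ℕ) (a y : ℝ) : kerL ε N (a : ℂ) (y * Complex.I) =
    ((∑ d ∈ range (cut ε N),
      (∏ j ∈ range d, (2 * Real.cos a + 2 * Real.cos (phi N j))) *
      (∏ j ∈ range d, (2 * Real.cosh y + 2 * Real.cos (phi N j))) / (Sd N d) ^ 4 : ℝ) : ℂ) := by
  simp only [kerL, Rp, cos_I]
  push_cast
  rfl

theorem kerL_real (ε : ℝ) (N : ℕ) (a y : ℝ) : (kerL ε N (a : ℂ) (y * Complex.I)).im = 0 := by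
  rw [kerL_eq, Complex.ofReal_im]

theorem kerL_base_pos {ε : ℝ} (hε : 0 < ε) {N : ℕ} (hN : 0 < N) (η : ℝ) :
    0 < (kerL ε N ((0 : ℝ) : ℂ) (η * Complex.I)).re := by
  rw [kerL_eq, Complex.ofReal_re]
  have hN' : (0 : ℝ) < N := by exact_mod_cast hN
  have hcut : 0 < cut ε N := by
    unfold cut
    rw [Nat.ceil_pos]
    positivity
  apply Finset.sum_pos'
  · intro d _
    apply div_nonneg _ (by positivity)
    apply mul_nonneg
    · apply Finset.prod_nonneg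
      intro j _
      have := Real.neg_one_le_cos (phi N j)
      rw [Real.cos_zero]
      linarith
    · apply Finset.prod_nonneg
      intro j _
      have := Real.neg_one_le_cos (phi N j)
      have h2 := Real.one_le_cosh η
      linarith
  · exact ⟨0, by simpa using hcut, by simp [Sd]⟩

/-- the normalised kernel in the coordinates `(ψ, t)` -/
noncomputable def kt (ε : ℝ) (s : ℂ → ℂ → ℂ) (η : ℝ) (N : ℕ) (x : ℂ × ℂ) : ℂ :=
  kxz ε s N (x.1, phz η x.2)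

theorem phz_ofReal (η : ℝ) {t : ℂ} (ht : t.im = 0) :
    phz η t = ((η + t.re : ℝ) : ℂ) * Complex.I := by
  apply Complex.ext
  · rw [phz_re, ht]; simp
  · rw [phz_im]; simp

theorem kt_real {η ε r c C : ℝ} {s dl : ℂ → ℂ → ℂ} (hη : 0 < η) (h : SDZ η r c C s dl) (N : ℕ)
    {x : ℂ × ℂ} (h1 : |x.1.re| < r) (h2 : |x.2.re| < r) (h3 : x.1.im = 0) (h4 : x.2.im = 0) :
    (kt ε s η N x).im = 0 := by
  obtain ⟨p, q⟩ := x
  simp only at h1 h2 h3 h4
  have hp : p = ((p.re : ℝ) : ℂ) := by apply Complex.ext <;> simp [h3]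
  simp only [kt, kxz]
  rw [phz_ofReal η h4, hp]
  have e1 := s_real hη h h1 (y := η + q.re) (by rwa [add_sub_cancel_left])
  have e2 := kerL_real ε N p.re (η + q.re)
  have e3 : s (p.re : ℂ) (((η + q.re : ℝ) : ℂ) * Complex.I) =
      (((s (p.re : ℂ) (((η + q.re : ℝ) : ℂ) * Complex.I)).re : ℝ) : ℂ) := by
    apply Complex.ext <;> simp only [Complex.ofReal_re, Complex.ofReal_im, e1]
  have e4 : kerL ε N (p.re : ℂ) (((η + q.re : ℝ) : ℂ) * Complex.I) =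
      (((kerL ε N (p.re : ℂ) (((η + q.re : ℝ) : ℂ) * Complex.I)).re : ℝ) : ℂ) := by
    apply Complex.ext <;> simp only [Complex.ofReal_re, Complex.ofReal_im, e2]
  rw [e3, e4]
  generalize (s (p.re : ℂ) (((η + q.re : ℝ) : ℂ) * Complex.I)).re = S0
  generalize (kerL ε N (p.re : ℂ) (((η + q.re : ℝ) : ℂ) * Complex.I)).re = K0
  have e5 : Complex.exp (-((N : ℂ) * ((S0 : ℝ) : ℂ))) = ((Real.exp (-((N : ℝ) * S0)) : ℝ) : ℂ) := by
    push_cast
    rfl
  rw [e5, ← Complex.ofReal_mul, ← Complex.ofReal_mul, Complex.ofReal_im]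

theorem kt_zero_pos {η ε r c C : ℝ} {s dl : ℂ → ℂ → ℂ} (hε : 0 < ε) (h : SDZ η r c C s dl)
    {N : ℕ} (hN : 0 < N) : 0 < (kt ε s η N 0).re := by
  have e2 := kerL_real ε N 0 η
  have e6 := kerL_base_pos hε hN η
  simp only [kt, kxz, Prod.fst_zero, Prod.snd_zero]
  have e0 : phz η 0 = η * Complex.I := by simp [phz]
  have e4 : kerL ε N (0 : ℂ) (η * Complex.I) =
      (((kerL ε N ((0 : ℝ) : ℂ) (η * Complex.I)).re : ℝ) : ℂ) := by
    rw [Complex.ofReal_zero] at e2 ⊢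
    apply Complex.ext <;> simp only [Complex.ofReal_re, Complex.ofReal_im, e2]
  rw [e0, h.base, e4]
  have e5 : Complex.exp (-((N : ℂ) * ((AA η : ℝ) : ℂ))) =
      ((Real.exp (-((N : ℝ) * AA η)) : ℝ) : ℂ) := by
    push_cast
    rfl
  rw [e5, ← Complex.ofReal_mul, ← Complex.ofReal_mul, Complex.ofReal_re]
  have hN' : (0 : ℝ) < N := by exact_mod_cast hN
  have := Real.sqrt_pos.mpr hN'
  positivity

/-! ### Differentiability and modulus -/

theorem kt_diff {η ε r c C : ℝ} {s dl : ℂ → ℂ → ℂ} (h : SDZ η r c C s dl) (N : ℕ) :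
    DifferentiableOn ℂ (kt ε s η N) (Rc r r ×ˢ Rc r r) := by
  have h1 := h.san
  have h2 : Differentiable ℂ (fun x : ℂ × ℂ => kerL ε N x.1 (phz η x.2)) := by
    unfold kerL
    apply Differentiable.fun_sum
    intro d _
    have e1 : Differentiable ℂ (fun x : ℂ × ℂ => Rp N d x.1) := (Rp_diff N d).comp differentiable_fst
    have e2 : Differentiable ℂ (fun x : ℂ × ℂ => Rp N d (phz η x.2)) :=
      (Rp_diff N d).comp ((phz_diff η).comp differentiable_snd)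
    simp only [div_eq_mul_inv]
    exact (e1.mul e2).mul_const _
  have h4 : DifferentiableOn ℂ (fun x : ℂ × ℂ => s x.1 (phz η x.2)) (Rc r r ×ˢ Rc r r) := by
    refine h1.comp (f := fun x : ℂ × ℂ => (x.1, phz η x.2)) ?_ ?_
    · exact (differentiable_fst.prodMk ((phz_diff η).comp differentiable_snd)).differentiableOn
    · intro x hx
      exact ⟨hx.1, phz_mem hx.2⟩
  unfold kt kxz
  have h3 : DifferentiableOn ℂ (fun x : ℂ × ℂ => Complex.exp (-((N : ℂ) * s x.1 (phz η x.2))))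
      (Rc r r ×ˢ Rc r r) := (h4.const_mul _).neg.cexp
  exact (h3.const_mul _).mul h2.differentiableOn

theorem kxz_mod {ε : ℝ} {s : ℂ → ℂ → ℂ} {N : ℕ} (hN : 0 < N) {x : ℂ × ℂ}
    (h0 : kerL ε N x.1 x.2 ≠ 0)
    (h1 : |Real.log ‖kerL ε N x.1 x.2‖ - N * (s x.1 x.2).re| ≤ 1 * N) :
    kxz ε s N x ≠ 0 ∧ |Real.log ‖kxz ε s N x‖| ≤ 4 * N := by
  have hN' : (0 : ℝ) < N := by exact_mod_cast hN
  have hsq := Real.sqrt_pos.mpr hN'
  have hne : ((((Real.sqrt N) ^ 3 : ℝ)) : ℂ) ≠ 0 := by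
    rw [Complex.ofReal_ne_zero]; positivity
  refine ⟨mul_ne_zero (mul_ne_zero hne (Complex.exp_ne_zero _)) h0, ?_⟩
  have h2 : Real.log ‖kxz ε s N x‖ = 3 / 2 * Real.log N - N * (s x.1 x.2).re +
      Real.log ‖kerL ε N x.1 x.2‖ := by
    simp only [kxz]
    rw [norm_mul, norm_mul, Real.log_mul (mul_ne_zero (norm_ne_zero_iff.mpr hne)
      (norm_ne_zero_iff.mpr (Complex.exp_ne_zero _))) (norm_ne_zero_iff.mpr h0),
      Real.log_mul (norm_ne_zero_iff.mpr hne) (norm_ne_zero_iff.mpr (Complex.exp_ne_zero _)),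
      Complex.norm_real, Real.norm_eq_abs, abs_of_pos (by positivity), Real.log_pow,
      Real.log_sqrt hN'.le, Complex.norm_exp, Real.log_exp]
    have e1 : (-((N : ℂ) * s x.1 x.2)).re = -(N * (s x.1 x.2).re) := by simp
    rw [e1]
    push_cast
    ring
  have h3 : Real.log N ≤ N := (Real.log_le_sub_one_of_pos hN').trans (by linarith)
  have h4 : 0 ≤ Real.log N := Real.log_nonneg (by exact_mod_cast hN)
  have h5 := abs_le.mp h1
  rw [h2, abs_le]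
  constructor <;> linarith

theorem ball_rc2 {ρ τ ρ' τ' m : ℝ} (h1 : m ≤ ρ) (h2 : m ≤ τ) (h3 : m ≤ ρ') (h4 : m ≤ τ')
    {p : ℂ × ℂ} (hp : p ∈ Rc ρ τ ×ˢ Rc ρ' τ') :
    ball p (2 * m) ⊆ Rc (3 * ρ) (3 * τ) ×ˢ Rc (3 * ρ') (3 * τ') := by
  have key : ∀ z w : ℂ, ∀ ρ τ : ℝ, m ≤ ρ → m ≤ τ → z ∈ Rc ρ τ → dist w z < 2 * m →
      w ∈ Rc (3 * ρ) (3 * τ) := by
    intro z w ρ τ hρ hτ hz hw
    rw [dist_eq_norm] at hw
    have h1 := Complex.abs_re_le_norm (w - z)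
    have h2 := Complex.abs_im_le_norm (w - z)
    rw [Complex.sub_re] at h1
    rw [Complex.sub_im] at h2
    have h3 := hz.1
    have h4 := hz.2
    have h5 : |w.re| ≤ |w.re - z.re| + |z.re| := by
      have := abs_add_le (w.re - z.re) z.re
      rwa [sub_add_cancel] at this
    have h6 : |w.im| ≤ |w.im - z.im| + |z.im| := by
      have := abs_add_le (w.im - z.im) z.im
      rwa [sub_add_cancel] at this
    exact ⟨by linarith, by linarith⟩
  intro w hw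
  rw [mem_ball, Prod.dist_eq, max_lt_iff] at hw
  exact ⟨key _ _ _ _ h1 h2 hp.1 hw.1, key _ _ _ _ h3 h4 hp.2 hw.2⟩

/-- the logarithm of the normalised kernel -/
theorem klogz : ∀ (η ε ρ τ ρ' τ' κ c : ℝ) (s dl : ℂ → ℂ → ℂ), Adm η →
    KDZ η ε ρ τ ρ' τ' κ c s dl →
    ∃ (C₀ : ℝ) (L : ℕ → ℂ → ℂ → ℂ), ∀ᶠ N : ℕ in atTop,
      (∀ t ∈ Rc τ' ρ', DifferentiableOn ℂ (fun ψ => L N ψ t) (Rc ρ τ)) ∧
      (∀ ψ ∈ Rc ρ τ, DifferentiableOn ℂ (fun t => L N ψ t) (Rc τ' ρ')) ∧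
      ∀ ψ ∈ Rc ρ τ, ∀ t ∈ Rc τ' ρ', ‖L N ψ t‖ ≤ C₀ * N ∧
        Complex.exp (L N ψ t) = kt ε s η N (ψ, t) ∧
        (ψ.im = 0 → t.im = 0 → (L N ψ t).im = 0) := by
  intro η ε ρ τ ρ' τ' κ c s dl hA h
  have hη : 0 < η := hA.1
  have hρ := h.hρ.1
  have hτ := h.hτ.1
  have hτρ := h.hτ.2
  have hρ' := h.hρ'.1
  have hτ' := h.hτ'.1
  have hτρ' := h.hτ'.2.1
  obtain ⟨r, C, hS, hr1, hr2⟩ := h.sdz
  set m : ℝ := min τ τ' with hm
  have hm0 : 0 < m := lt_min hτ hτ'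
  have hm1 : m ≤ τ := min_le_left _ _
  have hm2 : m ≤ τ' := min_le_right _ _
  obtain ⟨n, hn⟩ := exists_nat_gt ((2 * ρ + 2 * ρ') / m)
  have hn0 : 0 < n := by
    have : (0 : ℝ) < n := lt_trans (by positivity) hn
    exact_mod_cast this
  set U : Set (ℂ × ℂ) := Rc (3 * ρ) (3 * τ) ×ˢ Rc (3 * τ') (3 * ρ') with hU
  set K : Set (ℂ × ℂ) := Rc ρ τ ×ˢ Rc τ' ρ' with hK
  have hUo : IsOpen U := (rc_open _ _).prod (rc_open _ _)
  have hUc : Convex ℝ U := (rc_convex _ _).prod (rc_convex _ _)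
  have hKc : Convex ℝ K := (rc_convex _ _).prod (rc_convex _ _)
  have hU0 : (0 : ℂ × ℂ) ∈ U := ⟨⟨by simpa using hρ, by simpa using hτ⟩,
    ⟨by simpa using hτ', by simpa using hρ'⟩⟩
  have hK0 : (0 : ℂ × ℂ) ∈ K := ⟨⟨by simpa using hρ, by simpa using hτ⟩,
    ⟨by simpa using hτ', by simpa using hρ'⟩⟩
  have hRcsub : ∀ z ∈ Rc ρ τ, z ∈ Rc (3 * ρ) (3 * τ) := by
    intro z hz
    exact ⟨by linarith [hz.1], by linarith [hz.2]⟩
  have hRcsub' : ∀ z ∈ Rc τ' ρ', z ∈ Rc (3 * τ') (3 * ρ') := by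
    intro z hz
    exact ⟨by linarith [hz.1], by linarith [hz.2]⟩
  have hKU : K ⊆ U := fun x hx => ⟨hRcsub _ hx.1, hRcsub' _ hx.2⟩
  have hUr : U ⊆ Rc r r ×ˢ Rc r r := by
    intro x hx
    exact ⟨⟨by linarith [hx.1.1], by linarith [hx.1.2]⟩, ⟨by linarith [hx.2.1], by linarith [hx.2.2]⟩⟩
  -- the logarithm for large N
  have hex : ∀ᶠ N : ℕ in atTop, ∃ L : ℂ × ℂ → ℂ, DifferentiableOn ℂ L U ∧
      (∀ x ∈ U, Complex.exp (L x) = kt ε s η N x) ∧ (L 0).im = 0 ∧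
      (∀ x ∈ U, |(L x).re| ≤ 4 * N) := by
    filter_upwards [h.mw 1 one_pos, eventually_gt_atTop 0] with N hmw hN
    have hne : ∀ x ∈ U, kt ε s η N x ≠ 0 ∧ |Real.log ‖kt ε s η N x‖| ≤ 4 * N := by
      intro x hx
      have := hmw x.1 hx.1 (phz η x.2) (phz_mem hx.2)
      exact kxz_mod (x := (x.1, phz η x.2)) hN this.1 this.2
    have hpos := kt_zero_pos h.hε.1 hS hN
    have hr0 := hS.hr.1
    have him0 : (kt ε s η N 0).im = 0 := kt_real hη hS N (by simpa using hr0)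
      (by simpa using hr0) (by simp) (by simp)
    have hl : Complex.exp ((Real.log (kt ε s η N 0).re : ℝ) : ℂ) = kt ε s η N 0 := by
      rw [← Complex.ofReal_exp, Real.exp_log hpos]
      apply Complex.ext <;> simp [him0]
    obtain ⟨L, hL1, hL2, hL3⟩ := ex_log hUo hUc ((kt_diff hS N).mono hUr)
      (fun x hx => (hne x hx).1) hU0 hl
    refine ⟨L, hL1, hL2, by rw [hL3]; exact Complex.ofReal_im _, ?_⟩
    intro x hx
    have h1 := (hne x hx).2
    rwa [← hL2 x hx, Complex.norm_exp, Real.log_exp] at h1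
  classical
  refine ⟨(6 * n + 1) * 4, fun N => if hN : ∃ L : ℂ × ℂ → ℂ, DifferentiableOn ℂ L U ∧
      (∀ x ∈ U, Complex.exp (L x) = kt ε s η N x) ∧ (L 0).im = 0 ∧
      (∀ x ∈ U, |(L x).re| ≤ 4 * N) then fun p q => hN.choose (p, q) else fun _ _ => 0, ?_⟩
  filter_upwards [hex, eventually_gt_atTop 0] with N hN hN0
  have hNp : (0 : ℝ) < N := by exact_mod_cast hN0
  simp only [dif_pos hN]
  obtain ⟨hL1, hL2, hL3, hL4⟩ := hN.choose_spec
  set L := hN.choose with hLdef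
  clear_value L
  refine ⟨?_, ?_, ?_⟩
  · intro q hq
    have e1 : DifferentiableOn ℂ (fun p : ℂ => (p, q)) (Rc ρ τ) := by fun_prop
    exact (hL1.comp e1 (fun p hp => ⟨hRcsub _ hp, hRcsub' _ hq⟩))
  · intro p hp
    have e1 : DifferentiableOn ℂ (fun q : ℂ => (p, q)) (Rc τ' ρ') := by fun_prop
    exact (hL1.comp e1 (fun q hq => ⟨hRcsub _ hp, hRcsub' _ hq⟩))
  · intro p hp q hq
    have hx : (p, q) ∈ K := ⟨hp, hq⟩
    refine ⟨?_, hL2 _ (hKU hx), ?_⟩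
    · have hnorm : ‖((p, q) : ℂ × ℂ)‖ ≤ n * m := by
        rw [div_lt_iff₀ hm0] at hn
        have k1 : ‖p‖ ≤ n * m := by
          have h1 := Complex.norm_le_abs_re_add_abs_im p
          have h2 := hp.1
          have h3 := hp.2
          linarith
        have k2 : ‖q‖ ≤ n * m := by
          have h1 := Complex.norm_le_abs_re_add_abs_im q
          have h2 := hq.1
          have h3 := hq.2
          linarith
        rw [Prod.norm_def]
        exact max_le k1 k2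
      have := bc_chain hKc hK0 hL1 (by positivity : (0 : ℝ) < 4 * N) hm0 hL4
        (fun p hp => ball_rc2 (hm1.trans hτρ) hm1 hm2 (hm2.trans hτρ') hp) hL3 hn0 hx hnorm
      linarith
    · intro h1 h2
      have hSc : Convex ℝ {x : ℂ × ℂ | x ∈ U ∧ x.1.im = 0 ∧ x.2.im = 0} := by
        intro x hx y hy a b ha hb hab
        refine ⟨hUc hx.1 hy.1 ha hb hab, ?_, ?_⟩
        · simp [hx.2.1, hy.2.1]
        · simp [hx.2.2, hy.2.2]
      have hxS : ((p, q) : ℂ × ℂ) ∈ {x : ℂ × ℂ | x ∈ U ∧ x.1.im = 0 ∧ x.2.im = 0} :=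
        ⟨hKU hx, h1, h2⟩
      have h0S : (0 : ℂ × ℂ) ∈ {x : ℂ × ℂ | x ∈ U ∧ x.1.im = 0 ∧ x.2.im = 0} :=
        ⟨hU0, by simp, by simp⟩
      refine real_log hSc.isPreconnected (hL1.continuousOn.mono (fun x hx => hx.1)) ?_ h0S hL3 hxS
      intro x hx
      rw [hL2 x hx.1]
      have := hUr hx.1
      exact kt_real hη hS N this.1.1 this.2.1 hx.2.1 hx.2.2

end KXC

open KXC in
theorem kxcz : S_KXRZ → S_KXCZ := by
  intro hR η ε ρ τ ρ' τ' κ c s dl hA hF hK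
  have hE : W719.AX.S_EXT := W414.AX.ext W637.AX.tc
  have hUL : W719.AX.S_UXLOG := W67.AX.uxlog W303.AX.uxbd W303.AX.uxmul
  have hUE : W719.AX.S_UXEXP := W67.AX.uxexp W303.AX.uxbd W303.AX.uxmul
  have hUA : W719.AX.S_UXAN := W303.AX.uxan
  obtain ⟨ρ₁, hρ₁, hρ₁ρ, hρ₁τ, a, c₁, hc₁, hux, hnz⟩ := hR η ε ρ τ ρ' τ' κ c s dl hA hF hK
  obtain ⟨C₀, L, hL⟩ := klogz η ε ρ τ ρ' τ' κ c s dl hA hK
  have hτ := hK.hτ.1
  have hρ' := hK.hρ'.1
  obtain ⟨ρa, τa, hρa, hρa1, hτa, hτa1, hExtA⟩ := hE ρ₁ τ hρ₁ hτ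
  obtain ⟨ρb, τb, hρb, hρb1, hτb, hτb1, hExtB⟩ := hE ρ₁ ρ' hρ₁ hρ'
  have hRl : ∀ z ∈ Rl ρ₁, z ∈ Rc ρ τ := by
    rintro z ⟨h1, h2⟩
    refine ⟨h1.trans_le hρ₁ρ, ?_⟩
    rw [h2, abs_zero]
    exact hτ
  have hRl' : ∀ z ∈ Rl ρ₁, z ∈ Rc τ' ρ' := by
    rintro z ⟨h1, h2⟩
    refine ⟨h1.trans_le hρ₁τ, ?_⟩
    rw [h2, abs_zero]
    exact hρ'
  have hRc1 : ∀ z ∈ Rc ρ₁ τ, z ∈ Rc ρ τ := fun z hz => ⟨hz.1.trans_le hρ₁ρ, hz.2⟩
  have hRc1' : ∀ z ∈ Rc ρ₁ ρ', z ∈ Rc τ' ρ' := fun z hz => ⟨hz.1.trans_le hρ₁τ, hz.2⟩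
  have hRca : ∀ z ∈ Rc ρa τa, z ∈ Rc ρ τ := fun z hz =>
    ⟨hz.1.trans_le (hρa1.trans hρ₁ρ), hz.2.trans_le hτa1⟩
  have hRcb : ∀ z ∈ Rc ρb τb, z ∈ Rc τ' ρ' := fun z hz =>
    ⟨hz.1.trans_le (hρb1.trans hρ₁τ), hz.2.trans_le hτb1⟩
  -- the expansion at real points in the coordinates `(ψ, t)`
  have hux' : UX (kt ε s η) (fun k x => a k (x.1, phz η x.2)) (Rl ρ₁ ×ˢ Rl ρ₁) := by
    refine W701.AX.UX.comp hux (fun x : ℂ × ℂ => (x.1, phz η x.2)) ?_
    intro x hx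
    refine ⟨hx.1, ?_, ?_⟩
    · show (phz η x.2).re = 0
      rw [phz_re, hx.2.2, neg_zero]
    · show |(phz η x.2).im - η| < ρ₁
      rw [phz_im, add_sub_cancel_left]
      exact hx.2.1
  have hnz' : ∀ x ∈ Rl ρ₁ ×ˢ Rl ρ₁, c₁ ≤ ‖(fun k (x : ℂ × ℂ) => a k (x.1, phz η x.2)) 0 x‖ := by
    intro x hx
    refine hnz (x.1, phz η x.2) ⟨hx.1, ?_, ?_⟩
    · show (phz η x.2).re = 0
      rw [phz_re, hx.2.2, neg_zero]
    · show |(phz η x.2).im - η| < ρ₁
      rw [phz_im, add_sub_cancel_left]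
      exact hx.2.1
  -- the logarithm at real points
  obtain ⟨B, hB⟩ := hUL (ℂ × ℂ) (kt ε s η) (fun N p => L N p.1 p.2) _ (Rl ρ₁ ×ˢ Rl ρ₁) c₁ hc₁
    hux' hnz'
    (hL.mono fun N hN p hp => by
      obtain ⟨_, h2, h3⟩ := hN.2.2 p.1 (hRl _ hp.1) p.2 (hRl' _ hp.2)
      exact ⟨h3 hp.1.2 hp.2.2, h2⟩)
  -- first variable
  obtain ⟨A1, hA1⟩ := hExtA ℂ (Rl ρ₁) (fun N z q => L N z q) B C₀
    (hL.mono fun N hN q hq =>
      ⟨(hN.1 q (hRl' _ hq)).mono hRc1, fun z hz => (hN.2.2 z (hRc1 _ hz) q (hRl' _ hq)).1⟩) hB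
  -- second variable
  have hA1' := W701.AX.UX.comp hA1 (fun x : ℂ × ℂ => (x.2, x.1)) (S' := Rl ρ₁ ×ˢ Rc ρa τa)
    (fun p hp => ⟨hp.2, hp.1⟩)
  obtain ⟨A2, hA2⟩ := hExtB ℂ (Rc ρa τa) (fun N z q => L N q z) (fun k x => A1 k (x.2, x.1)) C₀
    (hL.mono fun N hN q hq =>
      ⟨(hN.2.1 q (hRca _ hq)).mono hRc1', fun z hz => (hN.2.2 q (hRca _ hq) z (hRc1' _ hz)).1⟩)
    hA1'
  have hA3 := W701.AX.UX.comp hA2 (fun x : ℂ × ℂ => (x.2, x.1)) (S' := Rc ρa τa ×ˢ Rc ρb τb)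
    (fun p hp => ⟨hp.2, hp.1⟩)
  obtain ⟨D, hD1, hD2⟩ := hUE _ _ _ _ hA3
  have hKt : UX (kt ε s η) D (Rc ρa τa ×ˢ Rc ρb τb) := by
    refine W701.AX.UX.congr hD1 (hL.mono fun N hN p hp => ?_)
    exact (hN.2.2 p.1 (hRca _ hp.1) p.2 (hRcb _ hp.2)).2.1
  -- back to the coordinates `(ψ, φ)`
  have hKx : UX (kxz ε s) (fun k x => D k (x.1, tz η x.2)) (Rc ρa τa ×ˢ Rz η τb ρb) := by
    have h1 := W701.AX.UX.comp hKt (fun x : ℂ × ℂ => (x.1, tz η x.2))
      (S' := Rc ρa τa ×ˢ Rz η τb ρb) (fun x hx => ⟨hx.1, tz_mem hx.2⟩)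
    refine W701.AX.UX.congr h1 (Filter.Eventually.of_forall fun N p _ => ?_)
    simp only [kt, phz_tz]
  have hexp : ∀ᶠ N : ℕ in atTop, ∀ ψ ∈ Rc ρa τa, ∀ φ ∈ Rz η τb ρb,
      Complex.exp (L N ψ (tz η φ)) = kxz ε s N (ψ, φ) := by
    refine hL.mono fun N hN ψ hψ φ hφ => ?_
    have := (hN.2.2 ψ (hRca _ hψ) (tz η φ) (hRcb _ (tz_mem hφ))).2.1
    simpa only [kt, phz_tz] using this
  refine ⟨ρa, τa, τb, ρb, hρa1.trans hρ₁ρ, hτa1, hτb1, hρb1.trans hρ₁τ,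
    fun k x => D k (x.1, tz η x.2), hρa, hτa, hτb, hρb, hKx, ?_, ?_, ?_⟩
  · intro k φ hφ
    refine hUA (fun N ψ => kxz ε s N (ψ, φ)) (fun k ψ => D k (ψ, tz η φ)) (Rc ρa τa)
      (rc_open _ _) ?_ (W701.AX.UX.comp hKx (fun ψ => (ψ, φ)) fun ψ hψ => ⟨hψ, hφ⟩) k
    filter_upwards [hL, hexp] with N hN hx
    have h1 : DifferentiableOn ℂ (fun ψ => Complex.exp (L N ψ (tz η φ))) (Rc ρa τa) :=
      ((hN.1 _ (hRcb _ (tz_mem hφ))).mono hRca).cexp
    exact h1.congr fun ψ hψ => (hx ψ hψ φ hφ).symm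
  · intro k ψ hψ
    refine hUA (fun N φ => kxz ε s N (ψ, φ)) (fun k φ => D k (ψ, tz η φ)) (Rz η τb ρb)
      (rz_open _ _ _) ?_ (W701.AX.UX.comp hKx (fun φ => (ψ, φ)) fun φ hφ => ⟨hψ, hφ⟩) k
    filter_upwards [hL, hexp] with N hN hx
    have h0 : DifferentiableOn ℂ (fun φ => L N ψ (tz η φ)) (Rz η τb ρb) := by
      refine (hN.2.1 ψ (hRca _ hψ)).comp (f := tz η) (tz_diff η).differentiableOn ?_
      intro φ hφ
      exact hRcb _ (tz_mem hφ)
    have h1 : DifferentiableOn ℂ (fun φ => Complex.exp (L N ψ (tz η φ))) (Rz η τb ρb) := h0.cexp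
    exact h1.congr fun φ hφ => (hx ψ hψ φ hφ).symm
  · intro x _
    show D 0 (x.1, tz η x.2) ≠ 0
    rw [hD2]
    exact Complex.exp_ne_zero _

end Pool.Agent.TH563.Z
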