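import Pool.Agent.H601R2.PP

/-!
# The integer square root is computable in polynomial time
-/

set_option autoImplicit false

namespace Pool.Agent.TH694.M3

open Pool.Agent.NPC

/-- one step of the search for the square root -/
def sqStep (n : ℕ) (s : ℕ × ℕ) : ℕ × ℕ :=
  (if (s.1 + s.2) * (s.1 + s.2) ≤ n then s.1 + s.2 else s.1, (s.2 + 1) / 2)

theorem sqStep_inv (n m : ℕ) (s : ℕ × ℕ) (h1 : s.1 * s.1 ≤ n)
    (h2 : n < (s.1 + 2 * s.2) * (s.1 + 2 * s.2)) (h3 : s.2 ≤ 2 ^ (m + 1)) :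
    (sqStep n s).1 * (sqStep n s).1 ≤ n ∧
      n < ((sqStep n s).1 + 2 * (sqStep n s).2) * ((sqStep n s).1 + 2 * (sqStep n s).2) ∧
      (sqStep n s).2 ≤ 2 ^ m := by
  obtain ⟨r, d⟩ := s
  simp only at h1 h2 h3
  have h4 : d ≤ 2 * ((d + 1) / 2) := by omega
  have h5 : (d + 1) / 2 ≤ 2 ^ m := by
    rw [pow_succ] at h3
    omega
  unfold sqStep
  simp only
  split_ifs with h
  · refine ⟨h, ?_, h5⟩
    refine lt_of_lt_of_le h2 ?_
    apply Nat.mul_le_mul <;> omega
  · push Not at h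
    refine ⟨h1, ?_, h5⟩
    refine lt_of_lt_of_le h ?_
    apply Nat.mul_le_mul <;> omega

theorem sqStep_iter (n : ℕ) : ∀ k m : ℕ, n + 1 ≤ 2 ^ (m + k) →
    ((sqStep n)^[k] (0, n + 1)).1 * ((sqStep n)^[k] (0, n + 1)).1 ≤ n ∧
      n < (((sqStep n)^[k] (0, n + 1)).1 + 2 * ((sqStep n)^[k] (0, n + 1)).2) *
        (((sqStep n)^[k] (0, n + 1)).1 + 2 * ((sqStep n)^[k] (0, n + 1)).2) ∧
      ((sqStep n)^[k] (0, n + 1)).2 ≤ 2 ^ m := by
  intro k
  induction k with
  | zero =>
    intro m hm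
    refine ⟨by simp, ?_, by simpa using hm⟩
    simp only [Function.iterate_zero, id_eq]
    nlinarith
  | succ k ih =>
    intro m hm
    obtain ⟨h1, h2, h3⟩ := ih (m + 1) (by rw [show m + 1 + k = m + (k + 1) by ring]; exact hm)
    rw [Function.iterate_succ_apply']
    exact sqStep_inv n m _ h1 h2 h3

theorem sqStep_bound (n k : ℕ) : ((sqStep n)^[k] (0, n + 1)).1 ≤ n ∧
    ((sqStep n)^[k] (0, n + 1)).2 ≤ n + 1 := by
  induction k with
  | zero => simp
  | succ k ih =>
    rw [Function.iterate_succ_apply']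
    obtain ⟨h1, h2⟩ := ih
    generalize (sqStep n)^[k] (0, n + 1) = s at *
    unfold sqStep
    simp only
    constructor
    · split_ifs with h
      · exact le_trans (Nat.le_mul_self _) h
      · exact h1
    · omega

/-- The integer square root is computable in polynomial time. -/
theorem poly_sqrt {α : Type} [TEnc α] {n : α → ℕ} (hn : NPC.Poly n) :
    NPC.Poly (fun a => Nat.sqrt (n a)) := by
  obtain ⟨q, hq⟩ := (Poly.succ hn).sz_le
  have hstep : Poly (fun p : α × (ℕ × ℕ) => sqStep (n p.1) p.2) := by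
    unfold sqStep
    have hs1 : Poly (fun p : α × (ℕ × ℕ) => p.2.1) := Poly.fst (Poly.snd Poly.id)
    have hs2 : Poly (fun p : α × (ℕ × ℕ) => p.2.2) := Poly.snd (Poly.snd Poly.id)
    have hn1 : Poly (fun p : α × (ℕ × ℕ) => n p.1) := hn.comp (Poly.fst Poly.id)
    refine Poly.pair (Poly.ite (p := fun p : α × (ℕ × ℕ) =>
      (p.2.1 + p.2.2) * (p.2.1 + p.2.2) ≤ n p.1)
      (Poly.decide_le (Poly.mul (Poly.add hs1 hs2) (Poly.add hs1 hs2)) hn1)
      (Poly.add hs1 hs2) hs1) (Poly.div (Poly.succ hs2) (NPC.Poly.const _))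
  have h1 : Poly (fun a => (sqStep (n a))^[(n a).bits.length] (0, n a + 1)) := by
    refine Poly.iterLen (s := fun a => (0, n a + 1)) (F := fun a s => sqStep (n a) s)
      (Poly.natBits hn) (Poly.pair (NPC.Poly.const _) (Poly.succ hn)) hstep
      (Polynomial.C 4 * q + Polynomial.C 1) ?_
    intro a k _
    change sz ((sqStep (n a))^[k] (0, n a + 1)) ≤ _
    obtain ⟨h2, h3⟩ := sqStep_bound (n a) k
    have h4 := sz_nat_mono_le (h2.trans (Nat.le_succ _))
    have h5 := sz_nat_mono_le h3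
    have h6 : sz (n a + 1) ≤ q.eval (sz a) := hq a
    have h7 : sz ((sqStep (n a))^[k] (0, n a + 1)) = sz ((sqStep (n a))^[k] (0, n a + 1)).1 +
      sz ((sqStep (n a))^[k] (0, n a + 1)).2 + 1 := sz_pair _ _
    simp only [Polynomial.eval_add, Polynomial.eval_mul, Polynomial.eval_C]
    simp only [Nat.succ_eq_add_one] at h4
    omega
  have h2 : Poly (fun a => ((sqStep (n a))^[(n a).bits.length] (0, n a + 1)).1) := Poly.fst h1
  have h3 := Poly.ite (p := fun a => (((sqStep (n a))^[(n a).bits.length] (0, n a + 1)).1 + 1) *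
      (((sqStep (n a))^[(n a).bits.length] (0, n a + 1)).1 + 1) ≤ n a)
      (Poly.decide_le (Poly.mul (Poly.succ h2) (Poly.succ h2)) hn)
      (Poly.succ h2) h2
  refine h3.congr fun a => ?_
  have h4 : n a + 1 ≤ 2 ^ (0 + (n a).bits.length) := by
    rw [zero_add]
    have := Nat.lt_size_self (n a)
    rw [← Nat.size_eq_bits_len] at *
    exact this
  obtain ⟨h5, h6, h7⟩ := sqStep_iter (n a) (n a).bits.length 0 h4
  generalize (sqStep (n a))^[(n a).bits.length] (0, n a + 1) = s at *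
  have h8 : n a < (s.1 + 2) * (s.1 + 2) := by
    refine lt_of_lt_of_le h6 ?_
    rw [pow_zero] at h7
    apply Nat.mul_le_mul <;> omega
  split_ifs with h
  · exact Nat.eq_sqrt.2 ⟨h, h8⟩
  · push Not at h
    exact Nat.eq_sqrt.2 ⟨h5, h⟩

end Pool.Agent.TH694.M3
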