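import Pool.Agent.TH817.N4a.B

set_option autoImplicit false

/-!
Assembly of the twisted fourth moment.
-/

namespace Pool.Agent.TH817.N4_ASM

open Finset Filter Topology MeasureTheory Complex MonoidAlgebra
open Pool.Agent.W184.NZ Pool.Agent.TH806 Pool.Agent.TH806.N4
open Pool.Agent.H306R2.SM (om cl Yf)
open Pool.Agent.H262R4.TM (Rng Ck)
open Pool.Agent.H448R2.GC (cu cs ker XX)

noncomputable section

/-- integrability with polynomial bounds -/
lemma pint {κ : ℕ} {δ : ℝ} (hδ : 0 < δ) {F : ℝ → ℝ} (hF : Continuous F) {C : ℝ}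
    (h1 : ∀ t, 0 ≤ t → |F t| ≤ C * (1 + t) ^ 8) : IntegrableOn (fun t => om κ δ t * F t) (Set.Ioi 0) :=
  om_poly_int hδ hF 8 h1

/-- the splitting of the fourth moment -/
theorem split {κ k : ℕ} {T B : ℝ} {w : ℝ → ℝ} (hκ : 1 ≤ κ) (hT : 1 ≤ T) (hw : Continuous w) (hw0 : ∀ t, 0 ≤ w t)
    (hwB : ∀ t, w t ≤ B) (h1 : ∀ t, ‖A1 k T t‖ ≤ T) (h2 : ∀ t, ‖A2 k T t‖ ≤ T) :
    IntegrableOn (fun t => om κ (κ / T) t * (Xz t ^ 4 * w t)) (Set.Ioi 0) ∧
    IntegrableOn (fun t => wz κ T t * (‖A1 k T t‖ ^ 2 * w t)) (Set.Ioi 0) ∧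
    IntegrableOn (fun t => om κ (κ / T) t * (((starRingEnd ℂ) (riemannZeta (cl t)) ^ 2 * A1 k T t ^ 2).re * w t))
      (Set.Ioi 0) ∧
    |(∫ t in Set.Ioi (0:ℝ), om κ (κ / T) t * (Xz t ^ 4 * w t)) -
      (2 * (∫ t in Set.Ioi (0:ℝ), om κ (κ / T) t *
        (((starRingEnd ℂ) (riemannZeta (cl t)) ^ 2 * A1 k T t ^ 2).re * w t)) +
      2 * (∫ t in Set.Ioi (0:ℝ), wz κ T t * (‖A2 k T t‖ ^ 2 * w t)) -
      ∫ t in Set.Ioi (0:ℝ), wz κ T t * (‖A2 k T t - A1 k T t‖ ^ 2 * w t))| ≤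
      ∫ t in Set.Ioi (0:ℝ), om κ (κ / T) t * (Df k T t * w t) := by
  have hκ0 : (0:ℝ) < κ := by exact_mod_cast hκ
  have hT0 : 0 < T := by linarith
  have hδ : 0 < (κ:ℝ) / T := by positivity
  have hB : 0 ≤ B := (hw0 0).trans (hwB 0)
  have hzc := Pool.Agent.H262R4.TM.TTW.zeta_cont
  have hA1c : Continuous fun t => A1 k T t := A_cont _ _ _
  have hA2c : Continuous fun t => A2 k T t := A_cont _ _ _
  have hzb : ∀ t, 0 ≤ t → ‖riemannZeta (cl t)‖ ^ 4 ≤ 24 ^ 4 * (1 + t) ^ 8 := by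
    intro t ht
    have h1 := Pool.Agent.H262R4.TM.TTW.zeta_cl_bound t ht
    calc _ ≤ (24 * (1 + t) ^ 2) ^ 4 := pow_le_pow_left₀ (norm_nonneg _) h1 4
      _ = _ := by ring
  have i4 : IntegrableOn (fun t => om κ (κ / T) t * (Xz t ^ 4 * w t)) (Set.Ioi 0) := by
    refine pint hδ ((Xz_cont.pow 4).mul hw) (C := 24 ^ 4 * B) fun t ht => ?_
    have h0 : 0 ≤ Xz t ^ 4 := by have := Xz_nonneg t; positivity
    rw [abs_of_nonneg (mul_nonneg h0 (hw0 t))]
    calc Xz t ^ 4 * w t ≤ (24 ^ 4 * (1 + t) ^ 8) * B := mul_le_mul (hzb t ht) (hwB t) (hw0 t) (by positivity)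
      _ = _ := by ring
  have hzc2 : Continuous fun t => (starRingEnd ℂ) (riemannZeta (cl t)) := Complex.continuous_conj.comp hzc
  have i1 : IntegrableOn (fun t => om κ (κ / T) t *
      (((starRingEnd ℂ) (riemannZeta (cl t)) ^ 2 * A1 k T t ^ 2).re * w t)) (Set.Ioi 0) := by
    refine pint hδ ((Complex.continuous_re.comp ((hzc2.pow 2).mul (hA1c.pow 2))).mul hw)
      (C := 24 ^ 4 * T ^ 2 * B) fun t ht => ?_
    have h1' := Pool.Agent.H262R4.TM.TTW.zeta_cl_bound t ht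
    have ht1 : (1:ℝ) ≤ 1 + t := by linarith
    have h3 : ‖riemannZeta (cl t)‖ ^ 2 ≤ 24 ^ 4 * (1 + t) ^ 8 := by
      calc _ ≤ (24 * (1 + t) ^ 2) ^ 2 := pow_le_pow_left₀ (norm_nonneg _) h1' 2
        _ = 24 ^ 2 * (1 + t) ^ 4 := by ring
        _ ≤ 24 ^ 4 * (1 + t) ^ 8 := by gcongr <;> norm_num
    rw [abs_mul, abs_of_nonneg (hw0 t)]
    have h4 : |((starRingEnd ℂ) (riemannZeta (cl t)) ^ 2 * A1 k T t ^ 2).re| ≤ (24 ^ 4 * (1 + t) ^ 8) * T ^ 2 := by
      refine (Complex.abs_re_le_norm _).trans ?_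
      rw [norm_mul, norm_pow, norm_pow, RCLike.norm_conj]
      exact mul_le_mul h3 (pow_le_pow_left₀ (norm_nonneg _) (h1 t) 2) (by positivity) (by positivity)
    calc _ ≤ ((24 ^ 4 * (1 + t) ^ 8) * T ^ 2) * B := mul_le_mul h4 (hwB t) (hw0 t) (by positivity)
      _ = _ := by ring
  have iA : ∀ A : ℝ → ℂ, Continuous A → (∀ t, ‖A t‖ ≤ 2 * T) →
      IntegrableOn (fun t => wz κ T t * (‖A t‖ ^ 2 * w t)) (Set.Ioi 0) := by
    intro A hA hAb
    refine wz_int κ hδ (C := (2 * T) ^ 2 * B) ((hA.norm.pow 2).mul hw) fun t => ?_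
    rw [abs_of_nonneg (mul_nonneg (by positivity) (hw0 t))]
    exact mul_le_mul (pow_le_pow_left₀ (norm_nonneg _) (hAb t) 2) (hwB t) (hw0 t) (by positivity)
  have i2 := iA _ hA2c (fun t => (h2 t).trans (by linarith))
  have i2' := iA _ hA1c (fun t => (h1 t).trans (by linarith))
  have i3 : IntegrableOn (fun t => wz κ T t * (‖A2 k T t - A1 k T t‖ ^ 2 * w t)) (Set.Ioi 0) :=
    iA (fun t => A2 k T t - A1 k T t) (hA2c.sub hA1c)
      (fun t => (norm_sub_le _ _).trans (by have := h1 t; have := h2 t; linarith))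
  refine ⟨i4, i2', i1, ?_⟩
  have j1 : IntegrableOn (fun t => 2 * (om κ (κ / T) t *
      (((starRingEnd ℂ) (riemannZeta (cl t)) ^ 2 * A1 k T t ^ 2).re * w t))) (Set.Ioi 0) := i1.const_mul 2
  have j2 : IntegrableOn (fun t => 2 * (wz κ T t * (‖A2 k T t‖ ^ 2 * w t))) (Set.Ioi 0) := i2.const_mul 2
  have e : 2 * (∫ t in Set.Ioi (0:ℝ), om κ (κ / T) t *
        (((starRingEnd ℂ) (riemannZeta (cl t)) ^ 2 * A1 k T t ^ 2).re * w t)) +
      2 * (∫ t in Set.Ioi (0:ℝ), wz κ T t * (‖A2 k T t‖ ^ 2 * w t)) -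
      (∫ t in Set.Ioi (0:ℝ), wz κ T t * (‖A2 k T t - A1 k T t‖ ^ 2 * w t)) =
      ∫ t in Set.Ioi (0:ℝ), om κ (κ / T) t * (PQ (riemannZeta (cl t)) (A1 k T t) (A2 k T t) * w t) := by
    have u1 := integral_add (μ := volume.restrict (Set.Ioi (0:ℝ))) j1 j2
    have u2 := integral_sub (μ := volume.restrict (Set.Ioi (0:ℝ))) (j1.add j2) i3
    simp only [Pi.add_apply] at u1 u2
    rw [← integral_const_mul, ← integral_const_mul, ← u1, ← u2]
    refine integral_congr_ae (Eventually.of_forall fun t => ?_)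
    simp only
    unfold PQ wz
    ring
  have iP : IntegrableOn (fun t => om κ (κ / T) t * (PQ (riemannZeta (cl t)) (A1 k T t) (A2 k T t) * w t))
      (Set.Ioi 0) := by
    refine ((j1.add j2).sub i3).congr (Eventually.of_forall fun t => ?_)
    simp only [Pi.add_apply, Pi.sub_apply]
    unfold PQ wz
    ring
  rw [e, ← integral_sub i4 iP]
  refine (abs_integral_le_integral_abs).trans (le_of_eq ?_)
  refine setIntegral_congr_fun measurableSet_Ioi fun t ht => ?_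
  have ht0 : (0:ℝ) ≤ t := le_of_lt ht
  have ho := om_nn κ hδ ht0
  have e2 : om κ (κ / T) t * (Xz t ^ 4 * w t) -
      om κ (κ / T) t * (PQ (riemannZeta (cl t)) (A1 k T t) (A2 k T t) * w t) =
      -(om κ (κ / T) t * w t * (PQ (riemannZeta (cl t)) (A1 k T t) (A2 k T t) - ‖riemannZeta (cl t)‖ ^ 4)) := by
    unfold Xz; ring
  rw [e2, abs_neg, abs_mul, abs_of_nonneg (mul_nonneg ho (hw0 t))]
  unfold Df
  ring

lemma rpow_exp {T x : ℝ} (hT : 0 < T) : T ^ x = Real.exp (x * Real.log T) := by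
  rw [Real.rpow_def_of_pos hT]; congr 1; ring

lemma W_eq {κ : ℕ} {T : ℝ} : W 4 κ T = ∫ t in Set.Ioi (0:ℝ), om κ (κ / T) t * (Xz t ^ 4 * 1) := by
  unfold W
  refine integral_congr_ae (Eventually.of_forall fun t => ?_)
  simp only
  rw [mul_one]
  congr 1
  have : ((4:ℝ)) = ((4:ℕ):ℝ) := by norm_num
  rw [this, Real.rpow_natCast]

/-- the final combination -/
lemma comb {X W0 lam s1 s2 s3 r1 r2 r3 E ly L3 Ce C1 C2 C3 BB : ℝ}
    (hly : 1 ≤ ly) (hE : 0 < E) (hL : 0 < L3) (hlam0 : 0 ≤ lam) (hlam : lam ≤ BB * E) (hCe : 0 < Ce)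
    (hBB : 0 < BB)
    (q1 : |X - (2 * s1 + 2 * s2 - s3)| ≤ Ce * L3 * E) (q2 : |W0 - (2 * r1 + 2 * r2 - r3)| ≤ Ce * L3 * 1)
    (d1 : |s1 - lam * r1| ≤ C1 * ly * L3 * E) (d2 : |s2 - lam * r2| ≤ C2 * ly * L3 * E)
    (d3 : |s3 - lam * r3| ≤ C3 * ly * L3 * E) :
    |X - lam * W0| ≤ (2 * C1 + 2 * C2 + C3 + Ce + BB * Ce) * ly * L3 * E := by
  have e : X - lam * W0 = (X - (2 * s1 + 2 * s2 - s3)) + 2 * (s1 - lam * r1) + 2 * (s2 - lam * r2) -
      (s3 - lam * r3) - lam * (W0 - (2 * r1 + 2 * r2 - r3)) := by ring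
  have q3 : |lam * (W0 - (2 * r1 + 2 * r2 - r3))| ≤ BB * E * (Ce * L3 * 1) := by
    rw [abs_mul, abs_of_nonneg hlam0]
    exact mul_le_mul hlam q2 (abs_nonneg _) (by positivity)
  have p1 : Ce * L3 * E ≤ Ce * L3 * E * ly := le_mul_of_one_le_right (by positivity) hly
  have p2 : BB * E * (Ce * L3 * 1) ≤ BB * E * (Ce * L3 * 1) * ly := le_mul_of_one_le_right (by positivity) hly
  have p3 : (2 * C1 + 2 * C2 + C3 + Ce + BB * Ce) * ly * L3 * E = Ce * L3 * E * ly + 2 * (C1 * ly * L3 * E) +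
    2 * (C2 * ly * L3 * E) + C3 * ly * L3 * E + BB * E * (Ce * L3 * 1) * ly := by ring
  rw [e, p3]
  obtain ⟨a1, a2⟩ := abs_le.mp q1
  obtain ⟨b1, b2⟩ := abs_le.mp q3
  obtain ⟨c1, c2⟩ := abs_le.mp d1
  obtain ⟨c3, c4⟩ := abs_le.mp d2
  obtain ⟨c5, c6⟩ := abs_le.mp d3
  rw [abs_le]
  constructor <;> linarith

theorem t_ASM (hMG : P_MG) (hKR : P_KR) (hAFP : P_AFP) (hTB : P_TB0) (h1 : P_TW1) (h2 : P_TW2) (hW2 : P_W2)
    (hX : P_X4L) : P_T4 ∧ P_W4 := by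
  obtain ⟨k₀, hk₀⟩ := hAFP (1 / 200) (by norm_num) (by norm_num)
  set k := max k₀ 3 with hkd
  have hk : 3 ≤ k := le_max_right _ _
  obtain ⟨CA, T₀, hCA, hA0⟩ := hk₀ k (le_max_left _ _)
  have hA : HA k CA T₀ := by
    intro T hT t ht1 ht2
    exact hA0 T hT t ht1 ht2 (ck k T) (E1 T) (E2 T) rfl rfl rfl
  obtain ⟨ηB, hηB0, hηB1, hB⟩ := hTB
  have hB : HB ηB := hB
  have hAb : ∀ᶠ T : ℝ in atTop, (∀ t, ‖A1 k T t‖ ≤ T) ∧ ∀ t, ‖A2 k T t‖ ≤ T := by
    filter_upwards [eventually_ge_atTop (1:ℝ), Real.tendsto_log_atTop.eventually_ge_atTop 1300] with T hT1 hL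
    have hT0 : 0 < T := by linarith
    have hL0 : 0 < Real.log T := by linarith
    have e1 := E1_eq T
    have e2 := E2_eq hT0
    obtain ⟨lp1, lp2⟩ := log2pi
    exact ⟨fun t => A_bd hT0 hL0 (by rw [e1]; linarith) t, fun t => A_bd hT0 hL0 (by rw [e2]; linarith) t⟩
  constructor
  · -- the twisted moment
    obtain ⟨η1, hη10, hη11, h1⟩ := h1
    obtain ⟨η2, hη20, hη21, h2⟩ := h2
    refine ⟨min ηB (min η1 η2), lt_min hηB0 (lt_min hη10 hη20), (min_le_left _ _).trans hηB1, fun c => ?_⟩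
    by_cases hc : 0 ≤ c
    swap
    · exact ⟨1, one_pos, 1, le_rfl, fun Rs _ => Eventually.of_forall fun T κ _ y a J G hBL =>
        absurd hBL.c0 hc⟩
    obtain ⟨B, hB0, R0, hR0, hW⟩ := hW2 c hc
    obtain ⟨Ce, hCe, hE⟩ := errE hk hCA hA hηB0 hηB1 hB c
    obtain ⟨CK, hCK, hKRk⟩ := hKR (1 / 200) (k + 1) (by norm_num) (by norm_num) (by omega)
    set BB := Real.exp (2 * B) with hBB
    have hBB0 : 0 < BB := Real.exp_pos _
    obtain ⟨C1, hC1, hT1⟩ := h1 (k + 1) c BB CK (by omega)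
    obtain ⟨C2, hC2, hT2⟩ := h2 (k + 1) c BB CK (by omega)
    obtain ⟨C3, hC3, hT3⟩ := h2 (k + 1) c BB (2 * CK) (by omega)
    refine ⟨2 * C1 + 2 * C2 + C3 + Ce + BB * Ce, by positivity, R0, hR0, fun Rs hRs => ?_⟩
    have hRs1 : 1 ≤ Rs := hR0.trans hRs
    filter_upwards [hE Rs hRs1, hT1 Rs hRs1, hT2 Rs hRs1, hT3 Rs hRs1, hAb, eventually_ge_atTop (1:ℝ),
      Real.tendsto_log_atTop.eventually_ge_atTop 1300] with T hE hT1 hT2 hT3 hAb hT1' hL1300
    intro κ hκ y a J G hBL hIs hy ha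
    obtain ⟨hA1b, hA2b⟩ := hAb
    have hT0 : 0 < T := by linarith
    set L := Real.log T with hLd
    have hL1 : 1 ≤ L := by linarith
    have hL0 : 0 < L := by linarith
    have hκ1 : 1 ≤ κ := by
      have := hκ.1
      have h2 : (0:ℝ) < κ := lt_of_lt_of_le (by positivity) this
      exact_mod_cast h2
    have hly := log_y_pos hBL
    have hyB : 320 * ((Rs:ℝ) + 1) * Real.log y ≤ ηB * L :=
      hy.trans (mul_le_mul_of_nonneg_right (min_le_left _ _) hL0.le)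
    have hy1 : 320 * ((Rs:ℝ) + 1) * Real.log y ≤ η1 * L :=
      hy.trans (mul_le_mul_of_nonneg_right ((min_le_right _ _).trans (min_le_left _ _)) hL0.le)
    have hy2 : 320 * ((Rs:ℝ) + 1) * Real.log y ≤ η2 * L :=
      hy.trans (mul_le_mul_of_nonneg_right ((min_le_right _ _).trans (min_le_right _ _)) hL0.le)
    obtain ⟨hMG1, g0, φ0, hG0⟩ := hMG c y J Rs a G hBL hRs1 ha
    obtain ⟨g, φ, hG⟩ := hMG1 hIs
    -- the size of the main factor
    have hlam : 0 ≤ lam w2 G ∧ lam w2 G ≤ BB * EV J y a := by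
      obtain ⟨w1', w2'⟩ := hW J Rs (II y) (bb y) (RR Rs) a hBL.rg hRs (RR_ge Rs) ha
      have hexp : ∀ V : ℝ, Real.exp ((4 * a + a ^ 2) * V + B * (|a| + Real.exp (-(Rs:ℝ)))) ≤
          BB * Real.exp ((4 * a + a ^ 2) * V) := by
        intro V
        rw [hBB, ← Real.exp_add]
        apply Real.exp_le_exp.mpr
        have x1 : Real.exp (-(Rs:ℝ)) ≤ 1 := Real.exp_le_one_iff.mpr (by simp)
        have : B * (|a| + Real.exp (-(Rs:ℝ))) ≤ B * 2 := mul_le_mul_of_nonneg_left (by linarith) hB0.le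
        linarith
      rcases hIs with h | ⟨lm, hl0, hl1, h⟩
      · rw [h]
        exact ⟨w1'.1, w1'.2.trans (hexp _)⟩
      · obtain ⟨w3, w4⟩ := w2' lm hl0 hl1
        rw [h]
        exact ⟨(Real.exp_pos _).le.trans w3, w4.trans (hexp _)⟩
    have hlabs : |lam w2 G| ≤ BB * EV J y a := by rw [abs_of_nonneg hlam.1]; exact hlam.2
    -- the kernel representations
    have e1 := E1_eq T
    have e2 := E2_eq hT0
    rw [← hLd] at e1 e2
    obtain ⟨lp1, lp2⟩ := log2pi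
    obtain ⟨M1, K1, hM1, _, _, hK1⟩ := hKRk L (E1 T) hL1 (by rw [e1]; positivity) (by rw [e1]; linarith)
    obtain ⟨M2, K2, hM2, _, _, hK2⟩ := hKRk L (E2 T) hL1 (by rw [e2]; linarith) (by rw [e2]; linarith)
    have ec : (1 / 200 : ℝ) * L / ((k + 1 : ℕ) : ℝ) = ck k T := by unfold ck; push_cast; rw [hLd]
    rw [ec] at hK1 hK2
    set f1 : ℕ → ℂ := fun m => (cu (k + 1) (ck k T) (Real.log m - E1 T) : ℂ) with hf1
    set f2 : ℕ → ℂ := fun m => (cu (k + 1) (ck k T) (Real.log m - E2 T) : ℂ) with hf2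
    set M := max M1 M2 with hM
    have hM1' : (M1:ℝ) ≤ T ^ (99 / 200 : ℝ) := by
      rw [rpow_exp hT0, ← hLd]
      exact hM1.trans (Real.exp_le_exp.mpr (by rw [e1]; linarith))
    have hM2' : (M2:ℝ) ≤ T ^ (41 / 80 : ℝ) := by
      rw [rpow_exp hT0, ← hLd]
      exact hM2.trans (Real.exp_le_exp.mpr (by rw [e2]; linarith))
    have hM' : (M:ℝ) ≤ T ^ (41 / 80 : ℝ) := by
      rw [hM, Nat.cast_max]
      refine max_le (hM1'.trans ?_) hM2'
      exact Real.rpow_le_rpow_of_exponent_le hT1' (by norm_num)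
    have eA1 : ∀ t, DP f1 M1 t = A1 k T t := fun t => ((hK1 M1 le_rfl).2 t).symm
    have eA2 : ∀ t, DP f2 M2 t = A2 k T t := fun t => ((hK2 M2 le_rfl).2 t).symm
    have eA3 : ∀ t, DP (fun m => f2 m - f1 m) M t = A2 k T t - A1 k T t := fun t => by
      rw [DP_sub, ← (hK1 M (le_max_left _ _)).2 t, ← (hK2 M (le_max_right _ _)).2 t]
      rfl
    have hcp := ck_pos k (T := T) hL0
    have hfd : ∀ n, n ≠ 0 → ‖f2 n - f1 n‖ ≤ 1 := by
      intro n _
      simp only [hf1, hf2]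
      rw [← Complex.ofReal_sub, Complex.norm_real, Real.norm_eq_abs, abs_le]
      have u1 := Pool.Agent.H448R2.GC.cu_nonneg (k + 1) (ck k T) (Real.log n - E1 T) hcp
      have u2 := Pool.Agent.H448R2.GC.cu_nonneg (k + 1) (ck k T) (Real.log n - E2 T) hcp
      have u3 := Pool.Agent.H448R2.GC.cu_le_one (k + 1) (ck k T) (Real.log n - E1 T) hcp
      have u4 := Pool.Agent.H448R2.GC.cu_le_one (k + 1) (ck k T) (Real.log n - E2 T) hcp
      constructor <;> linarith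
    have hKd := krep_sub hL1 (by omega) (hK1 M (le_max_left _ _)).1 (hK2 M (le_max_right _ _)).1 hfd
    have d1 := hT1 κ hκ y a J g φ G f1 M1 K1 hG ha hlabs hy1 (hK1 M1 le_rfl).1 hM1'
    have d2 := hT2 κ hκ y a J g φ G f2 M2 K2 hG ha hlabs hy2 (hK2 M2 le_rfl).1 hM2'
    have d3 := hT3 κ hκ y a J g φ G (fun m => f2 m - f1 m) M (fun v => K2 v - K1 v) hG ha hlabs hy2 hKd hM'
    simp only [eA1] at d1
    simp only [eA2] at d2
    simp only [eA3] at d3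
    -- the two splittings
    obtain ⟨i4, _, _, q1⟩ := split (κ := κ) (k := k) (B := Real.exp (Real.log y * (320 * ((Rs:ℝ) + 1)))) hκ1 hT1'
      (mg_cont hG) (mg_nn hG) (mg_le hG) hA1b hA2b
    obtain ⟨_, _, _, q2⟩ := split (κ := κ) (k := k) (B := 1) hκ1 hT1' (w := fun _ => 1) continuous_const
      (fun _ => zero_le_one) (fun _ => le_rfl) hA1b hA2b
    have r1 := (hE κ hκ y a J g φ G hG ha hyB).1
    have r2 := (hE κ hκ y 0 J g0 φ0 1 hG0 (by norm_num) hyB).1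
    simp only [ev_one_re, EV_zero] at r2
    have q1' := q1.trans r1
    have q2' := q2.trans r2
    rw [← W_eq] at q2'
    simp only [mul_one] at q2'
    refine ⟨i4, ?_⟩
    exact comb hly.le (EV_pos J y a) (by positivity) hlam.1 hlam.2 hCe hBB0 q1' (by rw [mul_one]; exact q2') d1 d2 d3
  · -- the fourth moment
    obtain ⟨cX, hcX, hX⟩ := hX
    obtain ⟨c, hc0, hrange⟩ := ranges
    obtain ⟨J, hRg, _, hend, hVV⟩ := hrange 144 le_rfl
    have hBL : BL c 144 J := ⟨hc0, le_rfl, hRg, hend, hVV⟩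
    obtain ⟨Ce, hCe, hE⟩ := errE hk hCA hA hηB0 hηB1 hB c
    obtain ⟨_, g0, φ0, hG0⟩ := hMG c 144 J 1 0 1 hBL le_rfl (by norm_num)
    refine ⟨cX, 5 * Ce, hcX, by positivity, ?_⟩
    have hlogT : ∀ᶠ T : ℝ in atTop, 320 * (((1:ℕ):ℝ) + 1) * Real.log 144 ≤ ηB * Real.log T :=
      (Real.tendsto_log_atTop.const_mul_atTop hηB0).eventually_ge_atTop _
    filter_upwards [hX, hE 1 le_rfl, hAb, hlogT, eventually_ge_atTop (1:ℝ),
      Real.tendsto_log_atTop.eventually_ge_atTop 1300] with T hX hE hAb hlT hT1' hL1300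
    intro κ hκ
    obtain ⟨hA1b, hA2b⟩ := hAb
    have hT0 : 0 < T := by linarith
    set L := Real.log T with hLd
    have hL1 : 1 ≤ L := by linarith
    have hL0 : 0 < L := by linarith
    have hκ1 : 1 ≤ κ := by
      have := hκ.1
      have h2 : (0:ℝ) < κ := lt_of_lt_of_le (by positivity) this
      exact_mod_cast h2
    have hκ0 : (0:ℝ) < κ := by exact_mod_cast hκ1
    have hδ : 0 < (κ:ℝ) / T := by positivity
    refine ⟨hX κ hκ, ?_⟩
    obtain ⟨_, iA1, iS1, q2⟩ := split (κ := κ) (k := k) (B := 1) hκ1 hT1' (w := fun _ => 1) continuous_const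
      (fun _ => zero_le_one) (fun _ => le_rfl) hA1b hA2b
    obtain ⟨r1, r2, r3⟩ := hE κ hκ 144 0 J g0 φ0 1 hG0 (by norm_num) hlT
    simp only [ev_one_re, EV_zero] at r1 r2 r3
    have q2' := q2.trans r1
    rw [← W_eq] at q2'
    have s1 : ∫ t in Set.Ioi (0:ℝ), om κ (κ / T) t *
        (((starRingEnd ℂ) (riemannZeta (cl t)) ^ 2 * A1 k T t ^ 2).re * 1) ≤
        ∫ t in Set.Ioi (0:ℝ), wz κ T t * (‖A1 k T t‖ ^ 2 * 1) := by
      refine setIntegral_mono_on iS1 iA1 measurableSet_Ioi fun t ht => ?_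
      have ho := om_nn κ hδ (le_of_lt ht)
      have h3 : ((starRingEnd ℂ) (riemannZeta (cl t)) ^ 2 * A1 k T t ^ 2).re ≤
          ‖riemannZeta (cl t)‖ ^ 2 * ‖A1 k T t‖ ^ 2 := by
        refine (Complex.re_le_norm _).trans ?_
        rw [norm_mul, norm_pow, norm_pow, RCLike.norm_conj]
      unfold wz
      rw [mul_one, mul_one, mul_assoc]
      exact mul_le_mul_of_nonneg_left h3 ho
    have s3 : 0 ≤ ∫ t in Set.Ioi (0:ℝ), wz κ T t * (‖A2 k T t - A1 k T t‖ ^ 2 * 1) :=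
      setIntegral_nonneg measurableSet_Ioi fun t ht =>
        mul_nonneg (wz_nonneg κ hT0 (le_of_lt ht)) (by positivity)
    have h34 : Ce * L ^ 3 ≤ Ce * L ^ 4 := mul_le_mul_of_nonneg_left (pow_le_pow_right₀ hL1 (by norm_num)) hCe.le
    have := (abs_le.mp q2').2
    simp only [mul_one] at this r2 r3 s1 s3
    linarith

end

end Pool.Agent.TH817.N4_ASM
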