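import Mathlib

set_option autoImplicit false

namespace Pool.Agent.TH599.UW

/-- A map whose values differ by at most `C` on the fibres of `f` is approximated, up to `C + η`, by
the composition of `f` with a Lipschitz map. -/
theorem exists_lipschitz_approx {X : Type} [TopologicalSpace X] [CompactSpace X] {m : ℕ}
    (f : X → EuclideanSpace ℝ (Fin m)) (hf : Continuous f) (F : X → EuclideanSpace ℝ (Fin 3))
    (hF : Continuous F) {C : ℝ} (hC : 0 ≤ C) (hfF : ∀ x y, f x = f y → ‖F x - F y‖ ≤ C) {η : ℝ}
    (hη : 0 < η) :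
    ∃ (L : NNReal) (g : EuclideanSpace ℝ (Fin m) → EuclideanSpace ℝ (Fin 3)),
      LipschitzWith L g ∧ ∀ x, ‖g (f x) - F x‖ ≤ C + η := by
  classical
  -- the modulus
  obtain ⟨τ, hτ, hmod⟩ : ∃ τ : ℝ, 0 < τ ∧ ∀ x y, dist (f x) (f y) < τ → ‖F x - F y‖ < C + η := by
    set K : Set (X × X) := {z | C + η ≤ ‖F z.1 - F z.2‖} with hK
    have hKc : IsClosed K := isClosed_le continuous_const
      ((hF.comp continuous_fst).sub (hF.comp continuous_snd)).norm
    by_cases hne : K.Nonempty
    · have hdc : Continuous fun z : X × X => dist (f z.1) (f z.2) :=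
        (hf.comp continuous_fst).dist (hf.comp continuous_snd)
      obtain ⟨z, hz, hmin⟩ := hKc.isCompact.exists_isMinOn hne hdc.continuousOn
      have hpos : 0 < dist (f z.1) (f z.2) := by
        rcases (dist_nonneg (x := f z.1) (y := f z.2)).lt_or_eq with h | h
        · exact h
        · exfalso
          have h1 := hfF z.1 z.2 (dist_eq_zero.mp h.symm)
          have h2 : C + η ≤ ‖F z.1 - F z.2‖ := hz
          linarith
      refine ⟨dist (f z.1) (f z.2), hpos, fun x y hxy => ?_⟩
      by_contra hcon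
      push Not at hcon
      have := hmin (show (x, y) ∈ K from hcon)
      simp only [Set.mem_ofPred_eq] at this
      linarith
    · refine ⟨1, one_pos, fun x y _ => ?_⟩
      by_contra hcon
      push Not at hcon
      exact hne ⟨(x, y), hcon⟩
  -- finitely many points
  obtain ⟨s, hs⟩ := isCompact_univ.elim_finite_subcover (fun x : X => {y : X | dist (f y) (f x) < τ / 2})
    (fun x => isOpen_lt (hf.dist continuous_const) continuous_const)
    (fun y _ => Set.mem_iUnion.mpr ⟨y, by simp [hτ]⟩)
  set ρ : X → EuclideanSpace ℝ (Fin m) → ℝ := fun j y => max 0 (τ - dist y (f j)) with hρ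
  have hρ0 : ∀ j y, 0 ≤ ρ j y := fun j y => le_max_left _ _
  have hρL : ∀ j y y', |ρ j y - ρ j y'| ≤ dist y y' := by
    intro j y y'
    have h1 := abs_max_sub_max_le_abs (0:ℝ) (τ - dist y (f j)) (τ - dist y' (f j))
    have h1' : |max 0 (τ - dist y (f j)) - max 0 (τ - dist y' (f j))| ≤
        |(τ - dist y (f j)) - (τ - dist y' (f j))| := by
      have := abs_max_sub_max_le_abs (τ - dist y (f j)) (τ - dist y' (f j)) (0:ℝ)
      rwa [max_comm, max_comm (τ - dist y' (f j)) 0] at this
    refine h1'.trans ?_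
    have h2 : (τ - dist y (f j)) - (τ - dist y' (f j)) = dist y' (f j) - dist y (f j) := by ring
    rw [h2, dist_comm y y']
    exact abs_dist_sub_le _ _ _
  set S : EuclideanSpace ℝ (Fin m) → ℝ := fun y => ∑ j ∈ s, ρ j y with hS
  have hSL : ∀ y y', |S y - S y'| ≤ s.card * dist y y' := by
    intro y y'
    simp only [hS]
    rw [← Finset.sum_sub_distrib]
    refine (Finset.abs_sum_le_sum_abs _ _).trans ?_
    refine (Finset.sum_le_card_nsmul _ _ _ fun j _ => hρL j y y').trans ?_
    rw [nsmul_eq_mul]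
  set D : EuclideanSpace ℝ (Fin m) → ℝ := fun y => max (τ / 2) (S y) with hD
  have hD0 : ∀ y, τ / 2 ≤ D y := fun y => le_max_left _ _
  have hDpos : ∀ y, 0 < D y := fun y => lt_of_lt_of_le (by positivity) (hD0 y)
  have hDL : ∀ y y', |D y - D y'| ≤ s.card * dist y y' := by
    intro y y'
    have := abs_max_sub_max_le_abs (S y) (S y') (τ / 2)
    simp only [hD]
    rw [max_comm, max_comm (τ / 2) (S y')]
    exact this.trans (hSL y y')
  have hρD : ∀ j ∈ s, ∀ y, ρ j y ≤ D y := fun j hj y =>
    (Finset.single_le_sum (f := fun j => ρ j y) (fun i _ => hρ0 i y) hj).trans (le_max_right _ _)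
  -- the quotients are Lipschitz
  set A : ℝ := 2 / τ * (1 + s.card) with hA
  have hA0 : 0 ≤ A := by positivity
  have hqL : ∀ j ∈ s, ∀ y y', |ρ j y / D y - ρ j y' / D y'| ≤ A * dist y y' := by
    intro j hj y y'
    have h1 : ρ j y / D y - ρ j y' / D y' = ((ρ j y - ρ j y') + (ρ j y' / D y') * (D y' - D y)) / D y := by
      have := (hDpos y).ne'
      have := (hDpos y').ne'
      field_simp
      ring
    have h2 : |(ρ j y - ρ j y') + (ρ j y' / D y') * (D y' - D y)| ≤ dist y y' + 1 * (s.card * dist y y') := by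
      refine (abs_add_le _ _).trans (add_le_add (hρL j y y') ?_)
      rw [abs_mul]
      have h3 : |ρ j y' / D y'| ≤ 1 := by
        rw [abs_of_nonneg (div_nonneg (hρ0 j y') (hDpos y').le), div_le_one (hDpos y')]
        exact hρD j hj y'
      have h4 : |D y' - D y| ≤ s.card * dist y y' := by rw [abs_sub_comm]; exact hDL y y'
      exact mul_le_mul h3 h4 (abs_nonneg _) zero_le_one
    rw [h1, abs_div, abs_of_pos (hDpos y), div_le_iff₀ (hDpos y)]
    refine h2.trans ?_
    have h5 : 0 ≤ (1 + (s.card:ℝ)) * dist y y' := by positivity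
    calc dist y y' + 1 * (s.card * dist y y') = (1 + (s.card:ℝ)) * dist y y' * 1 := by ring
      _ ≤ (1 + (s.card:ℝ)) * dist y y' * (2 / τ * D y) := by
          refine mul_le_mul_of_nonneg_left ?_ h5
          have := hD0 y
          rw [div_mul_eq_mul_div, le_div_iff₀ hτ]
          linarith
      _ = A * dist y y' * D y := by rw [hA]; ring
  set g : EuclideanSpace ℝ (Fin m) → EuclideanSpace ℝ (Fin 3) := fun y => ∑ j ∈ s, (ρ j y / D y) • F j with hg
  set B : ℝ := ∑ j ∈ s, ‖F j‖ with hB
  have hB0 : 0 ≤ B := Finset.sum_nonneg fun _ _ => norm_nonneg _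
  refine ⟨Real.toNNReal (A * B), g, LipschitzWith.of_dist_le_mul fun y y' => ?_, fun x => ?_⟩
  · rw [dist_eq_norm]
    simp only [hg]
    rw [← Finset.sum_sub_distrib]
    refine (norm_sum_le _ _).trans ?_
    have h1 : ∀ j ∈ s, ‖(ρ j y / D y) • F j - (ρ j y' / D y') • F j‖ ≤ (A * dist y y') * ‖F j‖ := by
      intro j hj
      rw [← sub_smul, norm_smul, Real.norm_eq_abs]
      exact mul_le_mul_of_nonneg_right (hqL j hj y y') (norm_nonneg _)
    refine (Finset.sum_le_sum h1).trans ?_
    rw [← Finset.mul_sum, Real.coe_toNNReal _ (mul_nonneg hA0 hB0)]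
    exact le_of_eq (by ring)
  · -- on the image
    obtain ⟨j0, hj0s, hj0⟩ : ∃ j ∈ s, dist (f x) (f j) < τ / 2 := by
      have := hs (Set.mem_univ x)
      simpa using this
    have hSx : τ / 2 ≤ S (f x) := by
      have h1 : τ / 2 ≤ ρ j0 (f x) := le_trans (by linarith) (le_max_right 0 (τ - dist (f x) (f j0)))
      exact h1.trans (Finset.single_le_sum (f := fun j => ρ j (f x)) (fun i _ => hρ0 i _) hj0s)
    have hDx : D (f x) = S (f x) := max_eq_right hSx
    have hsum : ∑ j ∈ s, ρ j (f x) / D (f x) = 1 := by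
      rw [← Finset.sum_div, hDx, div_self]
      have : 0 < S (f x) := lt_of_lt_of_le (by positivity) hSx
      exact this.ne'
    have he : g (f x) - F x = ∑ j ∈ s, (ρ j (f x) / D (f x)) • (F j - F x) := by
      simp only [hg, smul_sub]
      rw [Finset.sum_sub_distrib, ← Finset.sum_smul, hsum, one_smul]
    rw [he]
    refine (norm_sum_le _ _).trans ?_
    have h1 : ∀ j ∈ s, ‖(ρ j (f x) / D (f x)) • (F j - F x)‖ ≤ (ρ j (f x) / D (f x)) * (C + η) := by
      intro j _
      have hq : 0 ≤ ρ j (f x) / D (f x) := div_nonneg (hρ0 j _) (hDpos _).le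
      rw [norm_smul, Real.norm_eq_abs, abs_of_nonneg hq]
      by_cases hd : dist (f x) (f j) < τ
      · refine mul_le_mul_of_nonneg_left ?_ hq
        have := hmod x j hd
        rw [norm_sub_rev]
        exact this.le
      · have : ρ j (f x) = 0 := max_eq_left (by linarith [not_lt.mp hd])
        rw [this]; simp
    refine (Finset.sum_le_sum h1).trans ?_
    rw [← Finset.sum_mul, hsum, one_mul]

end Pool.Agent.TH599.UW
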