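import Mathlib

/-!
# Averaging over shifts
-/

set_option autoImplicit false

namespace Pool.Agent.TH694.M3

/-- the power of two dividing `p + a` exactly is `2 ^ i` -/
def lvl (a p : ℤ) (i : ℕ) : Prop := (2 ^ i : ℤ) ∣ p + a ∧ ¬ (2 ^ (i + 1) : ℤ) ∣ p + a

open Classical in
/-- the sum of the gaps of a list which satisfy `P` -/
noncomputable def gapSum (P : ℤ → Prop) : List ℤ → ℤ
  | a :: b :: l => (if P (b - a) then b - a else 0) + gapSum P (b :: l)
  | _ => 0

open Classical in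
/-- the increasing list of the values `y t` of all items `t` with `lo t < p ≤ hi t` -/
noncomputable def ylist {ι : Type} (I : Finset ι) (lo hi y : ι → ℤ) (p : ℤ) : List ℤ :=
  ((I.filter (fun t => lo t < p ∧ p ≤ hi t)).val.map y).sort (· ≤ ·)

open Classical in
theorem card_dvd_le (k j : ℕ) (hj : j ≤ k) (p : ℤ) :
    ((Finset.range (2 ^ k)).filter (fun a : ℕ => (2 ^ j : ℤ) ∣ p + a)).card ≤ 2 ^ (k - j) := by
  have h2 : 0 < 2 ^ j := by positivity
  rw [← Finset.card_range (2 ^ (k - j))]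
  refine Finset.card_le_card_of_injOn (fun a => a / 2 ^ j) ?_ ?_
  · intro a ha
    have ha' := Finset.mem_filter.1 (Finset.mem_coe.1 ha)
    have h1 := Finset.mem_range.1 ha'.1
    rw [Finset.mem_coe, Finset.mem_range]
    apply Nat.div_lt_of_lt_mul
    rw [← pow_add, Nat.add_sub_cancel' hj]
    exact h1
  · intro a ha b hb hab
    have ha' := (Finset.mem_filter.1 (Finset.mem_coe.1 ha)).2
    have hb' := (Finset.mem_filter.1 (Finset.mem_coe.1 hb)).2
    have h3 : (2 ^ j : ℤ) ∣ (a : ℤ) - b := by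
      have := dvd_sub ha' hb'
      rwa [add_sub_add_left_eq_sub] at this
    simp only at hab
    have h4 : a % 2 ^ j = b % 2 ^ j := by
      have h5 : (b : ℤ) ≡ a [ZMOD ((2 ^ j : ℕ) : ℤ)] := by
        rw [Int.modEq_iff_dvd]
        push_cast
        exact h3
      exact ((Int.natCast_modEq_iff).1 h5).symm
    rw [← Nat.div_add_mod a (2 ^ j), ← Nat.div_add_mod b (2 ^ j), hab, h4]

open Classical in
theorem card_lvl_le (k : ℕ) (p : ℤ) (th : ℝ) (hth : 0 < th) :
    (((Finset.range (2 ^ k)).filter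
      (fun a : ℕ => ∃ i < k, lvl a p i ∧ th < 2 ^ i)).card : ℝ) ≤ 2 ^ k / th := by
  by_cases hex : ∃ i, i < k ∧ th < 2 ^ i
  · have hfind := Nat.find_spec hex
    set i0 := Nat.find hex with hi0
    have h1 : ((Finset.range (2 ^ k)).filter
        (fun a : ℕ => ∃ i < k, lvl a p i ∧ th < 2 ^ i)).card ≤ 2 ^ (k - i0) := by
      refine le_trans (Finset.card_le_card ?_) (card_dvd_le k i0 hfind.1.le p)
      intro a ha
      rw [Finset.mem_filter] at ha ⊢
      refine ⟨ha.1, ?_⟩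
      obtain ⟨i, hi, hl, ht⟩ := ha.2
      have h2 : i0 ≤ i := Nat.find_min' hex ⟨hi, ht⟩
      exact (pow_dvd_pow 2 h2).trans hl.1
    have h3 : (((Finset.range (2 ^ k)).filter
        (fun a : ℕ => ∃ i < k, lvl a p i ∧ th < 2 ^ i)).card : ℝ) ≤ 2 ^ (k - i0) := by
      exact_mod_cast h1
    refine h3.trans ?_
    rw [le_div_iff₀ hth]
    calc (2 : ℝ) ^ (k - i0) * th ≤ 2 ^ (k - i0) * 2 ^ i0 :=
          mul_le_mul_of_nonneg_left hfind.2.le (by positivity)
      _ = 2 ^ k := by rw [← pow_add, Nat.sub_add_cancel hfind.1.le]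
  · have h1 : (Finset.range (2 ^ k)).filter
        (fun a : ℕ => ∃ i < k, lvl a p i ∧ th < 2 ^ i) = ∅ := by
      rw [Finset.filter_eq_empty_iff]
      rintro a _ ⟨i, hi, _, ht⟩
      exact hex ⟨i, hi, ht⟩
    rw [h1, Finset.card_empty, Nat.cast_zero]
    positivity

theorem gapSum_nonneg (P : ℤ → Prop) : ∀ l : List ℤ, l.Pairwise (· ≤ ·) → 0 ≤ gapSum P l
  | [], _ => le_refl _
  | [_], _ => le_refl _
  | a :: b :: l, h => by
    rw [gapSum]
    have h1 : a ≤ b := (List.pairwise_cons.1 h).1 b (by simp)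
    have h2 := gapSum_nonneg P (b :: l) (List.pairwise_cons.1 h).2
    split_ifs <;> linarith

open Classical in
theorem gapSum_sum (k c : ℕ) (p : ℤ) : ∀ l : List ℤ, l.Pairwise (· ≤ ·) →
    ∑ a ∈ Finset.range (2 ^ k),
      ((gapSum (fun g => ∃ i < k, lvl a p i ∧ g * 2 ^ c < 2 ^ i) l : ℤ) : ℝ) ≤
        l.length * (2 ^ k / 2 ^ c)
  | [], _ => by simp [gapSum]
  | [_], _ => by simp [gapSum]; positivity
  | x :: b :: l, h => by
    have h1 : x ≤ b := (List.pairwise_cons.1 h).1 b (by simp)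
    have ih := gapSum_sum k c p (b :: l) (List.pairwise_cons.1 h).2
    simp only [gapSum, Int.cast_add, Finset.sum_add_distrib]
    rw [List.length_cons, Nat.cast_add, Nat.cast_one, add_mul, one_mul, add_comm]
    refine add_le_add ih ?_
    refine le_trans (Finset.sum_le_sum (g := fun a : ℕ =>
      (if ∃ i < k, lvl a p i ∧ (b - x) * 2 ^ c < 2 ^ i then ((b - x : ℤ) : ℝ) else 0)) ?_) ?_
    · intro a _
      split_ifs <;> simp
    rw [← Finset.sum_filter, Finset.sum_const, nsmul_eq_mul]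
    rcases h1.eq_or_lt with h3 | h3
    · subst h3
      simp
      positivity
    · have h4 : (0 : ℝ) < ((b - x : ℤ) : ℝ) := by
        exact_mod_cast sub_pos.2 h3
      have h5 := card_lvl_le k p (((b - x : ℤ) : ℝ) * 2 ^ c) (by positivity)
      have h6 : (Finset.range (2 ^ k)).filter
          (fun a : ℕ => ∃ i < k, lvl a p i ∧ (b - x) * 2 ^ c < 2 ^ i) =
          (Finset.range (2 ^ k)).filter
          (fun a : ℕ => ∃ i < k, lvl a p i ∧ ((b - x : ℤ) : ℝ) * 2 ^ c < 2 ^ i) := by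
        apply Finset.filter_congr
        intro a _
        refine exists_congr fun i => and_congr_right fun _ => and_congr_right fun _ => ?_
        exact_mod_cast Iff.rfl
      rw [h6]
      calc _ ≤ 2 ^ k / (((b - x : ℤ) : ℝ) * 2 ^ c) * ((b - x : ℤ) : ℝ) :=
            mul_le_mul_of_nonneg_right h5 h4.le
        _ = 2 ^ k / 2 ^ c := by field_simp

open Classical in
theorem averaging {ι : Type} (I : Finset ι) (lo hi y : ι → ℤ) (q : ι → ℝ)
    (hlo : ∀ t ∈ I, lo t ≤ hi t) (hq : ∀ t ∈ I, 2 * ((hi t : ℝ) - lo t) ≤ q t)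
    (k e c : ℕ) (he : 0 < e) (hQ0 : 0 < ∑ t ∈ I, q t) (hQ : ∑ t ∈ I, q t < 2 ^ k)
    (PP : Finset ℤ) :
    ∃ a : ℕ, a < 2 ^ k ∧
      (∀ t ∈ I, ∀ p : ℤ, lo t < p → p ≤ hi t → ¬ (2 ^ k : ℤ) ∣ p + a) ∧
      (∑ t ∈ I.filter (fun t => ∃ p : ℤ, lo t < p ∧ p ≤ hi t ∧
          ∃ i < k, lvl a p i ∧ e * q t < 2 ^ i), q t) +
        ∑ p ∈ PP, ((gapSum (fun g => ∃ i < k, lvl a p i ∧ g * 2 ^ c < 2 ^ i)
          (ylist I lo hi y p) : ℤ) : ℝ) ≤ (1 / e + 1 / 2 ^ c) * ∑ t ∈ I, q t := by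
  set Q := ∑ t ∈ I, q t with hQdef
  have heR : (0 : ℝ) < e := by exact_mod_cast he
  have hq0 : ∀ t ∈ I, 0 ≤ q t := by
    intro t ht
    have h1 : (lo t : ℝ) ≤ hi t := by exact_mod_cast hlo t ht
    linarith [hq t ht]
  have hcard : ∀ t ∈ I, ((Finset.Ioc (lo t) (hi t)).card : ℝ) = (hi t : ℝ) - lo t := by
    intro t ht
    rw [Int.card_Ioc]
    have h1 := hlo t ht
    have h2 : (((hi t - lo t).toNat : ℤ) : ℝ) = ((hi t - lo t : ℤ) : ℝ) := by
      rw [Int.toNat_of_nonneg (by linarith)]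
    push_cast at h2
    exact h2
  have hsum : ∑ t ∈ I, ((Finset.Ioc (lo t) (hi t)).card : ℝ) ≤ Q / 2 := by
    rw [hQdef, Finset.sum_div]
    refine Finset.sum_le_sum fun t ht => ?_
    rw [hcard t ht]
    linarith [hq t ht]
  set F1 : ℕ → ℝ := fun a => ∑ t ∈ I.filter (fun t => ∃ p : ℤ, lo t < p ∧ p ≤ hi t ∧
          ∃ i < k, lvl a p i ∧ e * q t < 2 ^ i), q t with hF1
  set F2 : ℕ → ℝ := fun a => ∑ p ∈ PP, ((gapSum (fun g => ∃ i < k, lvl a p i ∧ g * 2 ^ c < 2 ^ i)
          (ylist I lo hi y p) : ℤ) : ℝ) with hF2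
  set T : ℕ → ℕ := fun a => ∑ t ∈ I, ((Finset.Ioc (lo t) (hi t)).filter
    (fun p => (2 ^ k : ℤ) ∣ p + a)).card with hT
  have hsorted : ∀ p, (ylist I lo hi y p).Pairwise (· ≤ ·) := by
    intro p
    unfold ylist
    exact Multiset.pairwise_sort _ _
  -- first sum
  have s1 : ∑ a ∈ Finset.range (2 ^ k), F1 a ≤ 2 ^ k / e * (Q / 2) := by
    have h1 : ∀ a ∈ Finset.range (2 ^ k), F1 a ≤ ∑ t ∈ I, ∑ p ∈ Finset.Ioc (lo t) (hi t),
        (if ∃ i < k, lvl a p i ∧ e * q t < 2 ^ i then q t else 0) := by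
      intro a _
      simp only [hF1]
      rw [Finset.sum_filter]
      refine Finset.sum_le_sum fun t ht => ?_
      have hnn : ∀ p ∈ Finset.Ioc (lo t) (hi t),
          0 ≤ (if ∃ i < k, lvl a p i ∧ e * q t < 2 ^ i then q t else 0) := by
        intro p _
        split_ifs
        · exact hq0 t ht
        · exact le_refl _
      split_ifs with hp
      · obtain ⟨p, hp1, hp2, hp3⟩ := hp
        have h2 := Finset.single_le_sum hnn (Finset.mem_Ioc.2 ⟨hp1, hp2⟩)
        rw [if_pos hp3] at h2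
        exact h2
      · exact Finset.sum_nonneg hnn
    refine (Finset.sum_le_sum h1).trans ?_
    rw [Finset.sum_comm]
    have h2 : ∀ t ∈ I, ∑ a ∈ Finset.range (2 ^ k), ∑ p ∈ Finset.Ioc (lo t) (hi t),
        (if ∃ i < k, lvl a p i ∧ e * q t < 2 ^ i then q t else 0) ≤
        ((Finset.Ioc (lo t) (hi t)).card : ℝ) * (2 ^ k / e) := by
      intro t ht
      have h9 : ((Finset.Ioc (lo t) (hi t)).card : ℝ) * (2 ^ k / e) =
          ∑ _p ∈ Finset.Ioc (lo t) (hi t), ((2 : ℝ) ^ k / e) := by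
        rw [Finset.sum_const, nsmul_eq_mul]
      rw [Finset.sum_comm, h9]
      refine Finset.sum_le_sum fun p _ => ?_
      rw [← Finset.sum_filter, Finset.sum_const, nsmul_eq_mul]
      rcases (hq0 t ht).eq_or_lt with h3 | h3
      · rw [← h3, mul_zero]
        positivity
      · calc _ ≤ 2 ^ k / (e * q t) * q t :=
              mul_le_mul_of_nonneg_right (card_lvl_le k p (e * q t) (by positivity)) h3.le
          _ = 2 ^ k / e := by field_simp
    refine (Finset.sum_le_sum h2).trans ?_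
    rw [← Finset.sum_mul, mul_comm]
    exact mul_le_mul_of_nonneg_left hsum (by positivity)
  -- second sum
  have s2 : ∑ a ∈ Finset.range (2 ^ k), F2 a ≤ 2 ^ k / 2 ^ c * (Q / 2) := by
    simp only [hF2]
    rw [Finset.sum_comm]
    have h1 : ∀ p ∈ PP, ∑ a ∈ Finset.range (2 ^ k),
        ((gapSum (fun g => ∃ i < k, lvl a p i ∧ g * 2 ^ c < 2 ^ i)
          (ylist I lo hi y p) : ℤ) : ℝ) ≤
        ((I.filter (fun t => lo t < p ∧ p ≤ hi t)).card : ℝ) * (2 ^ k / 2 ^ c) := by
      intro p _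
      have h2 := gapSum_sum k c p (ylist I lo hi y p) (hsorted p)
      have h3 : (ylist I lo hi y p).length = (I.filter (fun t => lo t < p ∧ p ≤ hi t)).card := by
        unfold ylist
        rw [Multiset.length_sort, Multiset.card_map]
        rfl
      rw [h3] at h2
      exact h2
    refine (Finset.sum_le_sum h1).trans ?_
    rw [← Finset.sum_mul, mul_comm]
    refine mul_le_mul_of_nonneg_left ?_ (by positivity)
    refine le_trans ?_ hsum
    have h4 : ∀ p : ℤ, ((I.filter (fun t => lo t < p ∧ p ≤ hi t)).card : ℝ) =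
        ∑ t ∈ I, (if lo t < p ∧ p ≤ hi t then 1 else 0) := by
      intro p
      rw [Finset.card_filter]
      push_cast
      rfl
    simp only [h4]
    rw [Finset.sum_comm]
    refine Finset.sum_le_sum fun t _ => ?_
    rw [← Finset.sum_filter, Finset.sum_const, nsmul_eq_mul, mul_one]
    exact_mod_cast Finset.card_le_card (by
      intro p hp
      exact Finset.mem_Ioc.2 (Finset.mem_filter.1 hp).2)
  -- third sum
  have s3 : ∑ a ∈ Finset.range (2 ^ k), (T a : ℝ) ≤ Q / 2 := by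
    refine le_trans ?_ hsum
    have h1 : ∑ a ∈ Finset.range (2 ^ k), T a ≤ ∑ t ∈ I, (Finset.Ioc (lo t) (hi t)).card := by
      simp only [hT]
      rw [Finset.sum_comm]
      refine Finset.sum_le_sum fun t _ => ?_
      simp only [Finset.card_filter]
      rw [Finset.sum_comm]
      rw [Finset.card_eq_sum_ones]
      refine Finset.sum_le_sum fun p _ => ?_
      rw [← Finset.card_filter]
      have := card_dvd_le k k le_rfl p
      simpa using this
    exact_mod_cast h1
  have hF1n : ∀ a, 0 ≤ F1 a := fun a =>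
    Finset.sum_nonneg fun t ht => hq0 t (Finset.mem_filter.1 ht).1
  have hF2n : ∀ a, 0 ≤ F2 a := fun a =>
    Finset.sum_nonneg fun p _ => by exact_mod_cast gapSum_nonneg _ _ (hsorted p)
  set B : ℝ := Q / (2 * e) + Q / (2 * 2 ^ c) with hB
  have hB0 : 0 < B := by positivity
  have hN : (0 : ℝ) < 2 ^ k := by positivity
  obtain ⟨a, ha, hlt⟩ : ∃ a ∈ Finset.range (2 ^ k), F1 a + F2 a + 2 * B * T a < 2 * B := by
    by_contra hcon
    push Not at hcon
    have h1 := Finset.sum_le_sum hcon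
    rw [Finset.sum_const, Finset.card_range, nsmul_eq_mul, Finset.sum_add_distrib,
      Finset.sum_add_distrib, ← Finset.mul_sum] at h1
    push_cast at h1
    have h2 : 2 ^ k / (e : ℝ) * (Q / 2) + 2 ^ k / 2 ^ c * (Q / 2) = 2 ^ k * B := by
      rw [hB]
      field_simp
    have h3 : 2 * B * ∑ a ∈ Finset.range (2 ^ k), (T a : ℝ) ≤ 2 * B * (Q / 2) :=
      mul_le_mul_of_nonneg_left s3 (by positivity)
    have h4 : B * Q < B * 2 ^ k := mul_lt_mul_of_pos_left hQ hB0
    nlinarith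
  have hTa : T a = 0 := by
    by_contra hne
    have h1 : (1 : ℝ) ≤ T a := by exact_mod_cast Nat.one_le_iff_ne_zero.2 hne
    have h2 : 2 * B * 1 ≤ 2 * B * T a := mul_le_mul_of_nonneg_left h1 (by positivity)
    linarith [hF1n a, hF2n a]
  refine ⟨a, Finset.mem_range.1 ha, ?_, ?_⟩
  · intro t ht p hp1 hp2 hdvd
    have h1 := (Finset.sum_eq_zero_iff.1 hTa) t ht
    rw [Finset.card_eq_zero, Finset.filter_eq_empty_iff] at h1
    exact h1 (Finset.mem_Ioc.2 ⟨hp1, hp2⟩) hdvd
  · have h1 : (1 / (e : ℝ) + 1 / 2 ^ c) * Q = 2 * B := by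
      rw [hB]
      field_simp
    rw [h1]
    rw [hTa] at hlt
    simp only [Nat.cast_zero, mul_zero, add_zero] at hlt
    exact hlt.le

end Pool.Agent.TH694.M3
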